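import Mathlib

/-!
Project OZ (MP_7e0861_pr).  FK percolation (random-cluster model) on finite domains of the square lattice
with free boundary condition: common definitions.
-/

namespace Pool.Helper49.FK

/-- Nearest-neighbour edges: `(x, true)` is `{x, x + (1, 0)}` and `(x, false)` is `{x, x + (0, 1)}`. -/
abbrev Edge : Type := (ℤ × ℤ) × Bool

/-- The second end of an edge (the first is `e.1`). -/
def tip (e : Edge) : ℤ × ℤ := if e.2 = true then (e.1.1 + 1, e.1.2) else (e.1.1, e.1.2 + 1)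

/-- The edges with both ends in `D`. -/
def edges (D : Finset (ℤ × ℤ)) : Finset Edge :=
  (D ×ˢ (Finset.univ : Finset Bool)).filter fun e => tip e ∈ D

/-- The graph of the open edges. -/
def gr (ω : Finset Edge) : SimpleGraph (ℤ × ℤ) where
  Adj x y := ∃ e ∈ ω, (e.1 = x ∧ tip e = y) ∨ (e.1 = y ∧ tip e = x)
  symm := by
    constructor
    rintro x y ⟨e, he, h⟩
    exact ⟨e, he, h.symm⟩
  loopless := by
    constructor
    rintro x ⟨e, _, h⟩
    rcases h with ⟨h1, h2⟩ | ⟨h1, h2⟩ <;>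
    · rw [← h1] at h2
      unfold tip at h2
      split_ifs at h2 <;> simp [Prod.ext_iff] at h2

/-- `x` and `y` are connected by open edges. -/
def Conn (ω : Finset Edge) (x y : ℤ × ℤ) : Prop := (gr ω).Reachable x y

open Classical in
/-- The number of clusters of `(D, ω)`. -/
noncomputable def ncl (D : Finset (ℤ × ℤ)) (ω : Finset Edge) : ℕ :=
  (D.image fun x => (gr ω).connectedComponentMk x).card

/-- The weight of a configuration, `r e` is the odds ratio `p_e / (1 - p_e)`. -/
noncomputable def wt (q : ℝ) (r : Edge → ℝ) (D : Finset (ℤ × ℤ)) (ω : Finset Edge) : ℝ :=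
  (∏ e ∈ ω, r e) * q ^ ncl D ω

/-- The partition function of `D` (free boundary condition). -/
noncomputable def Z (q : ℝ) (r : Edge → ℝ) (D : Finset (ℤ × ℤ)) : ℝ :=
  ∑ ω ∈ (edges D).powerset, wt q r D ω

/-- The expectation of `f`. -/
noncomputable def ex (q : ℝ) (r : Edge → ℝ) (D : Finset (ℤ × ℤ)) (f : Finset Edge → ℝ) : ℝ :=
  (∑ ω ∈ (edges D).powerset, wt q r D ω * f ω) / Z q r D

open Classical in
/-- The probability of `A`. -/
noncomputable def pr (q : ℝ) (r : Edge → ℝ) (D : Finset (ℤ × ℤ)) (A : Finset Edge → Prop) : ℝ :=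
  ex q r D fun ω => if A ω then 1 else 0

/-- No open edge touches `V`. -/
def Iso (V : Finset (ℤ × ℤ)) (ω : Finset Edge) : Prop := ∀ e ∈ ω, e.1 ∉ V ∧ tip e ∉ V

/-- The probability that no open edge touches `V`: `q ^ |V| Z (D ∖ V) / Z (D)` (for `V ⊆ D`). -/
noncomputable def Psi (q : ℝ) (r : Edge → ℝ) (D V : Finset (ℤ × ℤ)) : ℝ :=
  q ^ (V ∩ D).card * Z q r (D \ V) / Z q r D

/-- The two-point function. -/
noncomputable def G (q : ℝ) (r : Edge → ℝ) (D : Finset (ℤ × ℤ)) (x y : ℤ × ℤ) : ℝ :=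
  pr q r D fun ω => Conn ω x y

open Classical in
/-- The vertices of the cluster of `x` in `D`. -/
noncomputable def clu (D : Finset (ℤ × ℤ)) (ω : Finset Edge) (x : ℤ × ℤ) : Finset (ℤ × ℤ) :=
  D.filter fun y => Conn ω x y

open Classical in
/-- The open edges of the cluster of `x`. -/
noncomputable def cle (ω : Finset Edge) (x : ℤ × ℤ) : Finset Edge :=
  ω.filter fun e => Conn ω x e.1

/-- `(V, C)` is a connected graph with vertices `V`. -/
def IsClu (V : Finset (ℤ × ℤ)) (C : Finset Edge) : Prop :=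
  C ⊆ edges V ∧ ∀ x ∈ V, ∀ y ∈ V, Conn C x y

/-- The box `{-N, ..., N} ^ 2`. -/
noncomputable def box (N : ℕ) : Finset (ℤ × ℤ) := Finset.Icc (-(N : ℤ)) N ×ˢ Finset.Icc (-(N : ℤ)) N

/-- The homogeneous odds ratio. -/
def hom (r : ℝ) : Edge → ℝ := fun _ => r

/-- The odds ratios with the defect: `r'` on the horizontal edges of the row `0`, `r` on the others. -/
def dfc (r r' : ℝ) : Edge → ℝ := fun e => if e.2 = true ∧ e.1.2 = 0 then r' else r

/-- The infinite-volume probability that no open edge touches `V` (homogeneous). -/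
noncomputable def PsiI (q r : ℝ) (V : Finset (ℤ × ℤ)) : ℝ := ⨅ N : ℕ, Psi q (hom r) (box N) V

/-- The infinite-volume two-point function (homogeneous, free). -/
noncomputable def GI (q r : ℝ) (x y : ℤ × ℤ) : ℝ := ⨆ N : ℕ, G q (hom r) (box N) x y

/-- The weight of a cluster in infinite volume: the probability that the cluster of a vertex of `V` is
`(V, C)`. -/
noncomputable def clw (q r : ℝ) (V : Finset (ℤ × ℤ)) (C : Finset Edge) : ℝ :=
  r ^ C.card * PsiI q r V / q ^ (V.card - 1)

/-- Exponential decay of the free two-point function. -/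
def ExpDecay (q r : ℝ) : Prop :=
  ∃ c C : ℝ, 0 < c ∧ 0 < C ∧ ∀ x : ℤ × ℤ,
    GI q r (0, 0) x ≤ C * Real.exp (-c * (|(x.1 : ℝ)| + |(x.2 : ℝ)|))

/-- The box of radius `n` centred at `x`. -/
noncomputable def bx (x : ℤ × ℤ) (n : ℕ) : Finset (ℤ × ℤ) :=
  Finset.Icc (x.1 - n) (x.1 + n) ×ˢ Finset.Icc (x.2 - n) (x.2 + n)

/-- `x` is joined to the boundary of the box `bx x n` inside this box. -/
def Arm (n : ℕ) (x : ℤ × ℤ) (ω : Finset Edge) : Prop :=
  ∃ y ∈ bx x n, (|y.1 - x.1| = n ∨ |y.2 - x.2| = n) ∧ Conn (ω ∩ edges (bx x n)) x y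

/-- The edges of `box (n + 1)` which are not inside `box n`. -/
noncomputable def ring (n : ℕ) : Finset Edge := edges (box (n + 1)) \ edges (box n)

/-- Exponential decay with wired boundary condition. -/
def ExpW (q r : ℝ) : Prop :=
  ∃ c C : ℝ, 0 < c ∧ 0 < C ∧ ∀ n : ℕ,
    pr q (hom r) (box (n + 1)) (fun ω => ring n ⊆ ω ∧ Arm n (0, 0) ω) ≤
      C * Real.exp (-c * n) * pr q (hom r) (box (n + 1)) (fun ω => ring n ⊆ ω)

end Pool.Helper49.FK
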