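import Mathlib
import Pool.Agent.Helper49.FK.Defs

/-!
Project OZ.  Block FK-1: connections and the number of clusters.

`ncl D ω` is the number of connected components of the graph `gr ω` that meet `D`.

* `ncl_insert_of_conn`: the components of `gr (insert e ω)` are those of `gr ω`.
* `ncl_insert_of_not_conn`: exactly the two components of `e.1` and `tip e` (both meet `D`) are merged.
* `ncl_super`: the number of components is supermodular.  Add the edges of `ω' ∖ ω` one by one: to `ω ∩ ω'`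
  (giving `ω'`) and to `ω` (giving `ω ∪ ω'`); at each step the decrease of `ncl` is `0` or `1`, and if it is `0` for
  the smaller configuration it is `0` for the larger one (`Conn.mono`).
* `ncl_union`: `D₁`, `D₂` disjoint, `ωᵢ ⊆ edges Dᵢ`: a component of `gr (ω₁ ∪ ω₂)` meeting `D₁ ∪ D₂` lies in `D₁` or in
  `D₂`.  In particular `ncl_sdiff` (vertices of `V` are isolated).
-/

namespace Pool.Helper49.FK

theorem Conn.refl (ω : Finset Edge) (x : ℤ × ℤ) : Conn ω x x := SimpleGraph.Reachable.refl x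

theorem Conn.symm {ω : Finset Edge} {x y : ℤ × ℤ} (h : Conn ω x y) : Conn ω y x :=
  SimpleGraph.Reachable.symm h

theorem Conn.trans {ω : Finset Edge} {x y z : ℤ × ℤ} (h : Conn ω x y) (h' : Conn ω y z) :
    Conn ω x z := SimpleGraph.Reachable.trans h h'

theorem Conn.mono {ω ω' : Finset Edge} (hω : ω ⊆ ω') {x y : ℤ × ℤ} (h : Conn ω x y) :
    Conn ω' x y := by
  have hle : gr ω ≤ gr ω' := by
    intro a b hab
    obtain ⟨e, he, h'⟩ := hab
    exact ⟨e, hω he, h'⟩
  exact SimpleGraph.Reachable.mono hle h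

theorem conn_edge {ω : Finset Edge} {e : Edge} (he : e ∈ ω) : Conn ω e.1 (tip e) :=
  SimpleGraph.Adj.reachable ⟨e, he, Or.inl ⟨rfl, rfl⟩⟩

theorem mem_edges {D : Finset (ℤ × ℤ)} {e : Edge} : e ∈ edges D ↔ e.1 ∈ D ∧ tip e ∈ D := by
  unfold edges
  rw [Finset.mem_filter, Finset.mem_product]
  simp

theorem edges_mono {D D' : Finset (ℤ × ℤ)} (h : D ⊆ D') : edges D ⊆ edges D' := by
  intro e he
  rw [mem_edges] at he ⊢
  exact ⟨h he.1, h he.2⟩

private theorem induct61 {ω : Finset Edge} {S : Set (ℤ × ℤ)} {x y : ℤ × ℤ} (h : Conn ω x y)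
    (hx : x ∈ S) (hS : ∀ e ∈ ω, (e.1 ∈ S ↔ tip e ∈ S)) : y ∈ S := by
  obtain ⟨p⟩ := h
  induction p with
  | nil => exact hx
  | cons hadj _ ih =>
    apply ih
    obtain ⟨e, he, h'⟩ := hadj
    rcases h' with ⟨h1, h2⟩ | ⟨h1, h2⟩
    · rw [← h2]
      rw [← h1] at hx
      exact (hS e he).1 hx
    · rw [← h1]
      rw [← h2] at hx
      exact (hS e he).2 hx

/-- A connection in `ω ⊆ edges D` from a point of `D` stays in `D`. -/
theorem Conn.mem {D : Finset (ℤ × ℤ)} {ω : Finset Edge} (hω : ω ⊆ edges D) {x y : ℤ × ℤ}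
    (h : Conn ω x y) (hx : x ∈ D) : y ∈ D := by
  have := induct61 (S := {z | z ∈ D}) h hx (fun e he => by
    have h1 := mem_edges.1 (hω he)
    simp only [Set.mem_ofPred_eq]
    exact ⟨fun _ => h1.2, fun _ => h1.1⟩)
  exact this

/-- Induction along a connection: a set of vertices closed under open edges. -/
theorem Conn.induct {ω : Finset Edge} {S : Set (ℤ × ℤ)} {x y : ℤ × ℤ} (h : Conn ω x y)
    (hx : x ∈ S) (hS : ∀ e ∈ ω, (e.1 ∈ S ↔ tip e ∈ S)) : y ∈ S :=
  induct61 h hx hS

theorem iso_iff {D V : Finset (ℤ × ℤ)} {ω : Finset Edge} :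
    (ω ⊆ edges D ∧ Iso V ω) ↔ ω ⊆ edges (D \ V) := by
  constructor
  · rintro ⟨h1, h2⟩ e he
    have h3 := mem_edges.1 (h1 he)
    have h4 := h2 e he
    rw [mem_edges, Finset.mem_sdiff, Finset.mem_sdiff]
    exact ⟨⟨h3.1, h4.1⟩, h3.2, h4.2⟩
  · intro h
    refine ⟨h.trans (edges_mono Finset.sdiff_subset), fun e he => ?_⟩
    have h1 := mem_edges.1 (h he)
    rw [Finset.mem_sdiff, Finset.mem_sdiff] at h1
    exact ⟨h1.1.2, h1.2.2⟩

private theorem mk_eq61 {ω : Finset Edge} {x y : ℤ × ℤ} :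
    (gr ω).connectedComponentMk x = (gr ω).connectedComponentMk y ↔ Conn ω x y :=
  SimpleGraph.ConnectedComponent.eq

private theorem card_image_le61 {α β γ : Type*} [DecidableEq β] [DecidableEq γ] {D : Finset α} {f : α → β} {g : α → γ}
    (h : ∀ x ∈ D, ∀ y ∈ D, f x = f y → g x = g y) : (D.image g).card ≤ (D.image f).card := by
  have h1 : (D.image g) = (D.image (fun x => (f x, g x))).image Prod.snd := by
    rw [Finset.image_image]
    rfl
  have h2 : (D.image f) = (D.image (fun x => (f x, g x))).image Prod.fst := by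
    rw [Finset.image_image]
    rfl
  rw [h1, h2]
  refine Finset.card_image_le.trans (le_of_eq ?_)
  symm
  apply Finset.card_image_of_injOn
  intro a ha b hb hab
  rw [Finset.mem_coe, Finset.mem_image] at ha hb
  obtain ⟨x, hx, rfl⟩ := ha
  obtain ⟨y, hy, rfl⟩ := hb
  simp only at hab
  exact Prod.ext hab (h x hx y hy hab)

open Classical in
private theorem card_image_conn61 {D : Finset (ℤ × ℤ)} {ω ω' : Finset Edge}
    (h : ∀ x ∈ D, ∀ y ∈ D, (Conn ω x y ↔ Conn ω' x y)) :
    (D.image fun x => (gr ω).connectedComponentMk x).card =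
      (D.image fun x => (gr ω').connectedComponentMk x).card := by
  apply le_antisymm
  · apply card_image_le61
    intro x hx y hy hxy
    rw [mk_eq61] at hxy ⊢
    exact (h x hx y hy).2 hxy
  · apply card_image_le61
    intro x hx y hy hxy
    rw [mk_eq61] at hxy ⊢
    exact (h x hx y hy).1 hxy

private theorem ncl_congr61 {D : Finset (ℤ × ℤ)} {ω ω' : Finset Edge}
    (h : ∀ x ∈ D, ∀ y ∈ D, (Conn ω x y ↔ Conn ω' x y)) : ncl D ω = ncl D ω' := by
  unfold ncl
  exact card_image_conn61 h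

private theorem conn_insert61 {ω : Finset Edge} {e : Edge} {x y : ℤ × ℤ} (h : Conn (insert e ω) x y) :
    Conn ω x y ∨ (Conn ω x e.1 ∧ Conn ω (tip e) y) ∨ (Conn ω x (tip e) ∧ Conn ω e.1 y) := by
  have key : ∀ a b, Conn ω a b → ∀ z, (Conn ω z a ↔ Conn ω z b) := fun a b hab z =>
    ⟨fun h => h.trans hab, fun h => h.trans hab.symm⟩
  have := induct61 (S := {z | Conn ω x z ∨ (Conn ω x e.1 ∧ Conn ω (tip e) z) ∨ (Conn ω x (tip e) ∧ Conn ω e.1 z)})
    h (Or.inl (Conn.refl ω x)) (by
      intro e' he'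
      simp only [Set.mem_ofPred_eq]
      rcases Finset.mem_insert.1 he' with rfl | he'
      · constructor
        · rintro (h | ⟨h1, _⟩ | ⟨h1, _⟩)
          · exact Or.inr (Or.inl ⟨h, Conn.refl _ _⟩)
          · exact Or.inr (Or.inl ⟨h1, Conn.refl _ _⟩)
          · exact Or.inl h1
        · rintro (h | ⟨h1, _⟩ | ⟨h1, _⟩)
          · exact Or.inr (Or.inr ⟨h, Conn.refl _ _⟩)
          · exact Or.inl h1
          · exact Or.inr (Or.inr ⟨h1, Conn.refl _ _⟩)
      · have hc := key _ _ (conn_edge he')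
        rw [hc x, hc (tip e), hc e.1])
  exact this

theorem ncl_empty (D : Finset (ℤ × ℤ)) : ncl D ∅ = D.card := by
  classical
  unfold ncl
  apply Finset.card_image_of_injective
  intro x y hxy
  simp only at hxy
  rw [mk_eq61] at hxy
  have := induct61 (S := {z | x = z}) hxy rfl (fun e he => absurd he (Finset.notMem_empty e))
  exact this

theorem ncl_insert_of_conn {D : Finset (ℤ × ℤ)} {ω : Finset Edge} {e : Edge}
    (h : Conn ω e.1 (tip e)) : ncl D (insert e ω) = ncl D ω := by
  apply ncl_congr61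
  intro x _ y _
  constructor
  · intro hxy
    rcases conn_insert61 hxy with h1 | ⟨h1, h2⟩ | ⟨h1, h2⟩
    · exact h1
    · exact (h1.trans h).trans h2
    · exact (h1.trans h.symm).trans h2
  · exact Conn.mono (Finset.subset_insert _ _)

theorem ncl_insert_of_not_conn {D : Finset (ℤ × ℤ)} {ω : Finset Edge} {e : Edge}
    (he : e ∈ edges D) (h : ¬ Conn ω e.1 (tip e)) : ncl D (insert e ω) + 1 = ncl D ω := by
  classical
  obtain ⟨he1, he2⟩ := mem_edges.1 he
  set D' : Finset (ℤ × ℤ) := D.filter fun x => ¬ Conn ω x (tip e) with hD'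
  have h1 : (D'.image fun x => (gr ω).connectedComponentMk x) =
      (D.image fun x => (gr ω).connectedComponentMk x).erase ((gr ω).connectedComponentMk (tip e)) := by
    ext c
    simp only [hD', Finset.mem_image, Finset.mem_filter, Finset.mem_erase]
    constructor
    · rintro ⟨x, ⟨hx, hn⟩, rfl⟩
      refine ⟨fun hc => hn (mk_eq61.1 hc), x, hx, rfl⟩
    · rintro ⟨hc, x, hx, rfl⟩
      exact ⟨x, ⟨hx, fun hn => hc (mk_eq61.2 hn)⟩, rfl⟩
  have h2 : (D'.image fun x => (gr (insert e ω)).connectedComponentMk x) =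
      (D.image fun x => (gr (insert e ω)).connectedComponentMk x) := by
    apply Finset.Subset.antisymm (Finset.image_subset_image (Finset.filter_subset _ _))
    intro c hc
    rw [Finset.mem_image] at hc ⊢
    obtain ⟨x, hx, rfl⟩ := hc
    by_cases hn : Conn ω x (tip e)
    · refine ⟨e.1, Finset.mem_filter.2 ⟨he1, h⟩, mk_eq61.2 ?_⟩
      exact (conn_edge (Finset.mem_insert_self e ω)).trans (hn.mono (Finset.subset_insert _ _)).symm
    · exact ⟨x, Finset.mem_filter.2 ⟨hx, hn⟩, rfl⟩
  have h3 : (D'.image fun x => (gr ω).connectedComponentMk x).card =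
      (D'.image fun x => (gr (insert e ω)).connectedComponentMk x).card := by
    have := @card_image_conn61 D' ω (insert e ω) (by
      intro x hx y hy
      rw [hD', Finset.mem_filter] at hx hy
      constructor
      · exact Conn.mono (Finset.subset_insert _ _)
      · intro hxy
        rcases conn_insert61 hxy with h1 | ⟨_, h2⟩ | ⟨h1, _⟩
        · exact h1
        · exact absurd h2.symm hy.2
        · exact absurd h1 hx.2)
    convert this
  have h4 : (gr ω).connectedComponentMk (tip e) ∈ (D.image fun x => (gr ω).connectedComponentMk x) :=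
    Finset.mem_image_of_mem _ he2
  have h5 := Finset.card_erase_add_one h4
  unfold ncl
  have e1 : (D.image fun x => (gr (insert e ω)).connectedComponentMk x).card + 1 =
      (D.image fun x => (gr ω).connectedComponentMk x).card := by
    rw [← h2, ← h3, h1, h5]
  convert e1

private theorem ncl_super_aux61 {D : Finset (ℤ × ℤ)} {A B : Finset Edge} (hAB : A ⊆ B) (F : Finset Edge)
    (hF : F ⊆ edges D) : ncl D B + ncl D (A ∪ F) ≤ ncl D (B ∪ F) + ncl D A := by
  classical
  induction F using Finset.induction_on with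
  | empty => simp
  | insert e F _ ih =>
    have hF' : F ⊆ edges D := (Finset.subset_insert _ _).trans hF
    have he : e ∈ edges D := hF (Finset.mem_insert_self _ _)
    have ih' := ih hF'
    have e1 : A ∪ insert e F = insert e (A ∪ F) := by
      ext z; simp only [Finset.mem_union, Finset.mem_insert]; tauto
    have e2 : B ∪ insert e F = insert e (B ∪ F) := by
      ext z; simp only [Finset.mem_union, Finset.mem_insert]; tauto
    have key : ncl D (B ∪ F) + ncl D (A ∪ insert e F) ≤ ncl D (B ∪ insert e F) + ncl D (A ∪ F) := by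
      rw [e1, e2]
      by_cases hA : Conn (A ∪ F) e.1 (tip e)
      · rw [ncl_insert_of_conn hA, ncl_insert_of_conn (hA.mono (Finset.union_subset_union_left hAB))]
      · have h1 := ncl_insert_of_not_conn he hA
        by_cases hB : Conn (B ∪ F) e.1 (tip e)
        · rw [ncl_insert_of_conn hB]
          omega
        · have h2 := ncl_insert_of_not_conn he hB
          omega
    omega

theorem ncl_super {D : Finset (ℤ × ℤ)} {ω ω' : Finset Edge} (hω : ω ⊆ edges D)
    (hω' : ω' ⊆ edges D) : ncl D ω + ncl D ω' ≤ ncl D (ω ∪ ω') + ncl D (ω ∩ ω') := by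
  have h := ncl_super_aux61 (D := D) (A := ω ∩ ω') (B := ω) Finset.inter_subset_left ω' hω'
  rw [Finset.union_eq_right.2 (Finset.inter_subset_right : ω ∩ ω' ⊆ ω')] at h
  exact h

private theorem conn_union61 {D₁ D₂ : Finset (ℤ × ℤ)} (hD : Disjoint D₁ D₂) {ω₁ ω₂ : Finset Edge}
    (h₁ : ω₁ ⊆ edges D₁) (h₂ : ω₂ ⊆ edges D₂) {x y : ℤ × ℤ} (hx : x ∈ D₁) (h : Conn (ω₁ ∪ ω₂) x y) :
    y ∈ D₁ ∧ Conn ω₁ x y := by
  have := induct61 (S := {z | z ∈ D₁ ∧ Conn ω₁ x z}) h ⟨hx, Conn.refl _ _⟩ (by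
    intro e he
    simp only [Set.mem_ofPred_eq]
    rcases Finset.mem_union.1 he with he | he
    · have h1 := mem_edges.1 (h₁ he)
      have h2 := conn_edge he
      exact ⟨fun h => ⟨h1.2, h.2.trans h2⟩, fun h => ⟨h1.1, h.2.trans h2.symm⟩⟩
    · have h1 := mem_edges.1 (h₂ he)
      have h3 := Finset.disjoint_right.1 hD h1.1
      have h4 := Finset.disjoint_right.1 hD h1.2
      exact ⟨fun h => absurd h.1 h3, fun h => absurd h.1 h4⟩)
  exact this

theorem ncl_union {D₁ D₂ : Finset (ℤ × ℤ)} (hD : Disjoint D₁ D₂) {ω₁ ω₂ : Finset Edge}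
    (h₁ : ω₁ ⊆ edges D₁) (h₂ : ω₂ ⊆ edges D₂) :
    ncl (D₁ ∪ D₂) (ω₁ ∪ ω₂) = ncl D₁ ω₁ + ncl D₂ ω₂ := by
  classical
  have e1 : ncl D₁ (ω₁ ∪ ω₂) = ncl D₁ ω₁ := ncl_congr61 fun x hx y _ =>
    ⟨fun h => (conn_union61 hD h₁ h₂ hx h).2, Conn.mono Finset.subset_union_left⟩
  have e2 : ncl D₂ (ω₁ ∪ ω₂) = ncl D₂ ω₂ := ncl_congr61 fun x hx y _ =>
    ⟨fun h => (conn_union61 hD.symm h₂ h₁ hx (by rwa [Finset.union_comm])).2, Conn.mono Finset.subset_union_right⟩
  rw [← e1, ← e2]
  unfold ncl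
  have h3 : ((D₁ ∪ D₂).image fun x => (gr (ω₁ ∪ ω₂)).connectedComponentMk x).card =
      (D₁.image fun x => (gr (ω₁ ∪ ω₂)).connectedComponentMk x).card +
        (D₂.image fun x => (gr (ω₁ ∪ ω₂)).connectedComponentMk x).card := by
    rw [Finset.image_union, Finset.card_union_of_disjoint]
    rw [Finset.disjoint_left]
    intro c hc hc'
    rw [Finset.mem_image] at hc hc'
    obtain ⟨x, hx, rfl⟩ := hc
    obtain ⟨y, hy, hxy⟩ := hc'
    have := conn_union61 hD h₁ h₂ hx (mk_eq61.1 hxy).symm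
    exact Finset.disjoint_left.1 hD this.1 hy
  convert h3

theorem ncl_sdiff {D V : Finset (ℤ × ℤ)} {ω : Finset Edge} (hω : ω ⊆ edges (D \ V)) :
    ncl D ω = ncl (D \ V) ω + (V ∩ D).card := by
  have hd : Disjoint (D \ V) (V ∩ D) := by
    rw [Finset.disjoint_left]
    intro x hx hx'
    exact (Finset.mem_sdiff.1 hx).2 (Finset.mem_inter.1 hx').1
  have h := ncl_union hd hω (Finset.empty_subset (edges (V ∩ D)))
  have e1 : (D \ V) ∪ (V ∩ D) = D := by
    ext x
    simp only [Finset.mem_union, Finset.mem_sdiff, Finset.mem_inter]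
    tauto
  rw [e1, Finset.union_empty, ncl_empty] at h
  exact h

theorem ncl_connected {V : Finset (ℤ × ℤ)} {C : Finset Edge} (h : IsClu V C)
    (hV : V.Nonempty) : ncl V C = 1 := by
  classical
  obtain ⟨v, hv⟩ := hV
  unfold ncl
  rw [Finset.card_eq_one]
  refine ⟨(gr C).connectedComponentMk v, ?_⟩
  ext c
  rw [Finset.mem_image, Finset.mem_singleton]
  constructor
  · rintro ⟨x, hx, rfl⟩
    exact mk_eq61.2 (h.2 x hx v hv)
  · rintro rfl
    exact ⟨v, hv, rfl⟩

end Pool.Helper49.FK
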