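import Mathlib
import Pool.Agent.Helper49.FK.Defs
import Pool.Agent.Helper49.FK.Comp

/-!
Project OZ.  Block FK-2: the FKG inequality and monotonicity, `q ≥ 1`.

* `wt_super`: `wt ω * wt ω' ≤ wt (ω ∪ ω') * wt (ω ∩ ω')` for `ω, ω' ⊆ edges D`, from `ncl_super`.
* `fkg`: Mathlib's `fkg` on the lattice `Finset Edge` needs functions on a finite lattice: use the sublattice of
  the subsets of `edges D` (`Finset.powerset`, or `Finset (edges D)` subtype), for nonnegative monotone functions; for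
  general ones add constants (`f` is bounded below by `f ∅`).
* `ex_mono_r`: the weights for `r'` are those for `r` times `∏ e ∈ ω, (r' e / r e)` where `r e > 0`; if some `r e = 0`
  argue by continuity or treat the edges with `r e = 0` as closed.  Or: change one edge at a time; the
  expectation of `f` is the mixture of the conditional expectations given `e` open and `e` closed, the
  first is larger (FKG), and the probability of `e` open increases with `r e`.
* `ex_mono_D`: conditioned on all edges of `D'` not in `edges D` being closed, the law in `D'` is the law in `D`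
  (`ncl D' ω = ncl D ω + (D' ∖ D).card`), and conditioning on a decreasing event decreases `ex f` (FKG).
-/

namespace Pool.Helper49.FK

/-- Increasing functions of the configuration. -/
def Mono (f : Finset Edge → ℝ) : Prop := ∀ ω ω', ω ⊆ ω' → f ω ≤ f ω'

variable {q : ℝ} {r r' : Edge → ℝ} {D D' : Finset (ℤ × ℤ)} {f g : Finset Edge → ℝ}

theorem wt_nonneg (hq : 0 < q) (hr : ∀ e, 0 ≤ r e) (ω : Finset Edge) : 0 ≤ wt q r D ω := by
  unfold wt
  exact mul_nonneg (Finset.prod_nonneg fun e _ => hr e) (pow_nonneg hq.le _)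

theorem Z_pos (hq : 0 < q) (hr : ∀ e, 0 ≤ r e) : 0 < Z q r D := by
  unfold Z
  refine Finset.sum_pos' (fun ω _ => wt_nonneg hq hr ω) ⟨∅, by simp, ?_⟩
  unfold wt
  simp only [Finset.prod_empty, one_mul]
  exact pow_pos hq _

theorem ex_add : ex q r D (fun ω => f ω + g ω) = ex q r D f + ex q r D g := by
  unfold ex
  rw [← add_div, ← Finset.sum_add_distrib]
  congr 1
  exact Finset.sum_congr rfl fun ω _ => by ring

theorem ex_const_mul (c : ℝ) : ex q r D (fun ω => c * f ω) = c * ex q r D f := by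
  unfold ex
  rw [← mul_div_assoc, Finset.mul_sum]
  congr 1
  exact Finset.sum_congr rfl fun ω _ => by ring

theorem ex_const (hq : 0 < q) (hr : ∀ e, 0 ≤ r e) (c : ℝ) : ex q r D (fun _ => c) = c := by
  unfold ex
  rw [← Finset.sum_mul]
  change Z q r D * c / Z q r D = c
  rw [mul_comm]
  exact mul_div_cancel_right₀ c (Z_pos hq hr).ne'

theorem ex_sum {ι : Type*} (s : Finset ι) (F : ι → Finset Edge → ℝ) :
    ex q r D (fun ω => ∑ i ∈ s, F i ω) = ∑ i ∈ s, ex q r D (F i) := by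
  unfold ex
  rw [← Finset.sum_div, Finset.sum_comm]
  congr 1
  exact Finset.sum_congr rfl fun ω _ => Finset.mul_sum _ _ _

theorem ex_le (hq : 0 < q) (hr : ∀ e, 0 ≤ r e) (h : ∀ ω, ω ⊆ edges D → f ω ≤ g ω) :
    ex q r D f ≤ ex q r D g := by
  unfold ex
  refine div_le_div_of_nonneg_right (Finset.sum_le_sum fun ω hω => ?_) (Z_pos hq hr).le
  exact mul_le_mul_of_nonneg_left (h ω (Finset.mem_powerset.1 hω)) (wt_nonneg hq hr ω)

theorem ex_congr (h : ∀ ω, ω ⊆ edges D → f ω = g ω) : ex q r D f = ex q r D g := by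
  unfold ex
  congr 1
  exact Finset.sum_congr rfl fun ω hω => by rw [h ω (Finset.mem_powerset.1 hω)]

/-- The factor `q ^ ncl` is supermodular. -/
private theorem pow_super (hq : 1 ≤ q) {ω ω' : Finset Edge} (hω : ω ⊆ edges D)
    (hω' : ω' ⊆ edges D) :
    q ^ ncl D ω * q ^ ncl D ω' ≤ q ^ ncl D (ω ∩ ω') * q ^ ncl D (ω ∪ ω') := by
  rw [← pow_add, ← pow_add]
  refine pow_le_pow_right₀ hq ?_
  have := ncl_super hω hω'
  omega

/-- The weights for two families of odds ratios. -/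
private theorem wt_super2 (hq : 1 ≤ q) (hr : ∀ e, 0 ≤ r e) (hrr : ∀ e, r e ≤ r' e)
    {ω ω' : Finset Edge} (hω : ω ⊆ edges D) (hω' : ω' ⊆ edges D) :
    wt q r D ω * wt q r' D ω' ≤ wt q r D (ω ∩ ω') * wt q r' D (ω ∪ ω') := by
  have hr' : ∀ e, 0 ≤ r' e := fun e => (hr e).trans (hrr e)
  have h1 : ∏ e ∈ ω, r e = (∏ e ∈ ω ∩ ω', r e) * ∏ e ∈ ω \ ω', r e := by
    rw [← Finset.prod_union (Finset.disjoint_sdiff_inter ω ω').symm]
    congr 1
    rw [Finset.union_comm]
    exact (Finset.sdiff_union_inter ω ω').symm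
  have h2 : ∏ e ∈ ω ∪ ω', r' e = (∏ e ∈ ω \ ω', r' e) * ∏ e ∈ ω', r' e := by
    rw [← Finset.prod_union Finset.sdiff_disjoint]
    congr 1
    exact (Finset.sdiff_union_self_eq_union).symm
  have h3 : ∏ e ∈ ω \ ω', r e ≤ ∏ e ∈ ω \ ω', r' e :=
    Finset.prod_le_prod (fun e _ => hr e) fun e _ => hrr e
  unfold wt
  rw [h1, h2]
  have h4 : 0 ≤ ∏ e ∈ ω ∩ ω', r e := Finset.prod_nonneg fun e _ => hr e
  have h5 : 0 ≤ ∏ e ∈ ω', r' e := Finset.prod_nonneg fun e _ => hr' e
  have h6 : 0 ≤ ∏ e ∈ ω \ ω', r' e := Finset.prod_nonneg fun e _ => hr' e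
  have h7 := pow_super hq hω hω'
  have h8 : 0 ≤ q ^ ncl D ω * q ^ ncl D ω' := by positivity
  calc (∏ e ∈ ω ∩ ω', r e) * (∏ e ∈ ω \ ω', r e) * q ^ ncl D ω * ((∏ e ∈ ω', r' e) * q ^ ncl D ω')
      = ((∏ e ∈ ω ∩ ω', r e) * (∏ e ∈ ω', r' e) * ∏ e ∈ ω \ ω', r e) *
          (q ^ ncl D ω * q ^ ncl D ω') := by ring
    _ ≤ ((∏ e ∈ ω ∩ ω', r e) * (∏ e ∈ ω', r' e) * ∏ e ∈ ω \ ω', r' e) *
          (q ^ ncl D (ω ∩ ω') * q ^ ncl D (ω ∪ ω')) := by
        refine mul_le_mul ?_ h7 h8 (by positivity)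
        exact mul_le_mul_of_nonneg_left h3 (mul_nonneg h4 h5)
    _ = _ := by ring

theorem wt_super (hq : 1 ≤ q) (hr : ∀ e, 0 ≤ r e) {ω ω' : Finset Edge} (hω : ω ⊆ edges D)
    (hω' : ω' ⊆ edges D) :
    wt q r D ω * wt q r D ω' ≤ wt q r D (ω ∪ ω') * wt q r D (ω ∩ ω') := by
  rw [mul_comm (wt q r D (ω ∪ ω'))]
  exact wt_super2 hq hr (fun e => le_rfl) hω hω'

/-- Comparison of two weights (Holley), for nonnegative increasing functions. -/
private theorem holley_gen {u : Finset Edge} {μ ν : Finset Edge → ℝ} (hμ : ∀ s, 0 ≤ μ s)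
    (hν : ∀ s, 0 ≤ ν s)
    (h : ∀ s, s ⊆ u → ∀ t, t ⊆ u → μ s * ν t ≤ μ (s ∩ t) * ν (s ∪ t)) (hf : Mono f)
    (hf0 : ∀ s, 0 ≤ f s) :
    (∑ s ∈ u.powerset, μ s * f s) * ∑ s ∈ u.powerset, ν s ≤
      (∑ s ∈ u.powerset, μ s) * ∑ s ∈ u.powerset, ν s * f s := by
  have h1 := Finset.four_functions_theorem u (f₁ := fun s => μ s * f s) (f₂ := ν) (f₃ := μ)
    (f₄ := fun s => ν s * f s) (fun s => mul_nonneg (hμ s) (hf0 s)) hν hμ
    (fun s => mul_nonneg (hν s) (hf0 s)) (by
      intro s hs t ht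
      have h2 := h s hs t ht
      have h3 : f s ≤ f (s ∪ t) := hf _ _ Finset.subset_union_left
      calc μ s * f s * ν t = μ s * ν t * f s := by ring
        _ ≤ μ (s ∩ t) * ν (s ∪ t) * f (s ∪ t) :=
            mul_le_mul h2 h3 (hf0 s) (mul_nonneg (hμ _) (hν _))
        _ = μ (s ∩ t) * (ν (s ∪ t) * f (s ∪ t)) := by ring)
    (𝒜 := u.powerset) (ℬ := u.powerset) subset_rfl subset_rfl
  rwa [Finset.powerset_infs_powerset_self, Finset.powerset_sups_powerset_self] at h1

/-- Reduction to nonnegative functions. -/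
private theorem shift (hf : Mono f) : Mono (fun ω => f ω - f ∅) ∧ ∀ ω, 0 ≤ f ω - f ∅ :=
  ⟨fun ω ω' h => sub_le_sub_right (hf ω ω' h) _, fun ω => sub_nonneg.2 (hf _ _ (Finset.empty_subset _))⟩

private theorem ex_shift (hq : 0 < q) (hr : ∀ e, 0 ≤ r e) (c : ℝ) :
    ex q r D (fun ω => f ω - c) = ex q r D f - c := by
  have h1 := ex_add (q := q) (r := r) (D := D) (f := f) (g := fun _ => -c)
  rw [ex_const hq hr] at h1
  simpa [sub_eq_add_neg] using h1

private theorem fkg_nonneg (hq : 1 ≤ q) (hr : ∀ e, 0 ≤ r e) (hf : Mono f) (hg : Mono g)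
    (hf0 : ∀ ω, 0 ≤ f ω) (hg0 : ∀ ω, 0 ≤ g ω) :
    ex q r D f * ex q r D g ≤ ex q r D (fun ω => f ω * g ω) := by
  have hq0 : 0 < q := lt_of_lt_of_le one_pos hq
  have hw : ∀ ω, 0 ≤ wt q r D ω := fun ω => wt_nonneg hq0 hr ω
  have h1 := holley_gen (u := edges D) (μ := wt q r D) (ν := fun s => wt q r D s * g s) hw
    (fun s => mul_nonneg (hw s) (hg0 s)) (by
      intro s hs t ht
      have h2 := wt_super hq hr hs ht
      have h3 : g t ≤ g (s ∪ t) := hg _ _ Finset.subset_union_right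
      calc wt q r D s * (wt q r D t * g t) = wt q r D s * wt q r D t * g t := by ring
        _ ≤ wt q r D (s ∪ t) * wt q r D (s ∩ t) * g (s ∪ t) :=
            mul_le_mul h2 h3 (hg0 t) (mul_nonneg (hw _) (hw _))
        _ = wt q r D (s ∩ t) * (wt q r D (s ∪ t) * g (s ∪ t)) := by ring) hf hf0
  have hZ := Z_pos (D := D) hq0 hr
  unfold ex
  rw [div_mul_div_comm, div_le_div_iff₀ (mul_pos hZ hZ) hZ]
  have h4 : ∑ s ∈ (edges D).powerset, wt q r D s * g s * f s =
      ∑ s ∈ (edges D).powerset, wt q r D s * (f s * g s) :=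
    Finset.sum_congr rfl fun s _ => by ring
  rw [h4] at h1
  have h5 : ∑ s ∈ (edges D).powerset, wt q r D s = Z q r D := rfl
  rw [h5] at h1
  calc (∑ ω ∈ (edges D).powerset, wt q r D ω * f ω) *
        (∑ ω ∈ (edges D).powerset, wt q r D ω * g ω) * Z q r D
      ≤ (Z q r D * ∑ s ∈ (edges D).powerset, wt q r D s * (f s * g s)) * Z q r D :=
        mul_le_mul_of_nonneg_right h1 hZ.le
    _ = _ := by ring

theorem fkg (hq : 1 ≤ q) (hr : ∀ e, 0 ≤ r e) (hf : Mono f) (hg : Mono g) :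
    ex q r D f * ex q r D g ≤ ex q r D (fun ω => f ω * g ω) := by
  have hq0 : 0 < q := lt_of_lt_of_le one_pos hq
  have h1 := fkg_nonneg (D := D) hq hr (shift hf).1 (shift hg).1 (shift hf).2 (shift hg).2
  rw [ex_shift hq0 hr, ex_shift hq0 hr] at h1
  have h2 : ex q r D (fun ω => (f ω - f ∅) * (g ω - g ∅)) =
      ex q r D (fun ω => f ω * g ω) - g ∅ * ex q r D f - f ∅ * ex q r D g + f ∅ * g ∅ := by
    have h3 : (fun ω => (f ω - f ∅) * (g ω - g ∅)) = fun ω : Finset Edge =>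
        f ω * g ω + ((-g ∅) * f ω + ((-f ∅) * g ω + f ∅ * g ∅)) := by
      funext ω; ring
    rw [h3, ex_add, ex_add, ex_add, ex_const_mul, ex_const_mul, ex_const hq0 hr]
    ring
  rw [h2] at h1
  nlinarith [h1]

theorem ex_mono_r (hq : 1 ≤ q) (hr : ∀ e, 0 ≤ r e) (hrr : ∀ e, r e ≤ r' e) (hf : Mono f) :
    ex q r D f ≤ ex q r' D f := by
  have hq0 : 0 < q := lt_of_lt_of_le one_pos hq
  have hr' : ∀ e, 0 ≤ r' e := fun e => (hr e).trans (hrr e)
  have key : ∀ f : Finset Edge → ℝ, Mono f → (∀ ω, 0 ≤ f ω) → ex q r D f ≤ ex q r' D f := by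
    intro f hf hf0
    have h1 := holley_gen (u := edges D) (μ := wt q r D) (ν := wt q r' D)
      (fun ω => wt_nonneg hq0 hr ω) (fun ω => wt_nonneg hq0 hr' ω)
      (fun s hs t ht => wt_super2 hq hr hrr hs ht) hf hf0
    unfold ex
    rw [div_le_div_iff₀ (Z_pos hq0 hr) (Z_pos hq0 hr')]
    unfold Z
    linarith
  have h2 := key _ (shift hf).1 (shift hf).2
  rw [ex_shift hq0 hr, ex_shift hq0 hr'] at h2
  linarith

theorem ex_mono_D (hq : 1 ≤ q) (hr : ∀ e, 0 ≤ r e) (hD : D ⊆ D') (hf : Mono f) :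
    ex q r D f ≤ ex q r D' f := by
  classical
  have hq0 : 0 < q := lt_of_lt_of_le one_pos hq
  have hE : edges D ⊆ edges D' := edges_mono hD
  have hDD : D' \ (D' \ D) = D := by
    rw [Finset.sdiff_sdiff_eq_self hD]
  have hw : ∀ ω, ω ⊆ edges D → wt q r D' ω = wt q r D ω * q ^ ((D' \ D) ∩ D').card := by
    intro ω hω
    have h1 := ncl_sdiff (D := D') (V := D' \ D) (ω := ω) (by rw [hDD]; exact hω)
    rw [hDD] at h1
    unfold wt
    rw [h1, pow_add, mul_assoc]
  have key : ∀ f : Finset Edge → ℝ, Mono f → (∀ ω, 0 ≤ f ω) → ex q r D f ≤ ex q r D' f := by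
    intro f hf hf0
    let μ : Finset Edge → ℝ := fun s => if s ⊆ edges D then wt q r D' s else 0
    have hμ : ∀ s, 0 ≤ μ s := by
      intro s
      simp only [μ]
      split_ifs
      · exact wt_nonneg hq0 hr s
      · exact le_rfl
    have hsum : ∀ F : Finset Edge → ℝ, ∑ s ∈ (edges D').powerset, μ s * F s =
        (∑ s ∈ (edges D).powerset, wt q r D s * F s) * q ^ ((D' \ D) ∩ D').card := by
      intro F
      rw [Finset.sum_mul]
      symm
      apply Finset.sum_subset_zero_on_sdiff (Finset.powerset_mono.2 hE)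
      · intro s hs
        rw [Finset.mem_sdiff, Finset.mem_powerset, Finset.mem_powerset] at hs
        simp only [μ]
        rw [if_neg hs.2, zero_mul]
      · intro s hs
        rw [Finset.mem_powerset] at hs
        simp only [μ]
        rw [if_pos hs, hw s hs]
        ring
    have h1 := holley_gen (u := edges D') (μ := μ) (ν := wt q r D') hμ
      (fun ω => wt_nonneg hq0 hr ω) (by
        intro s hs t ht
        simp only [μ]
        by_cases h : s ⊆ edges D
        · rw [if_pos h, if_pos (Finset.inter_subset_left.trans h)]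
          have := wt_super (D := D') hq hr hs ht
          linarith
        · rw [if_neg h, zero_mul]
          refine mul_nonneg ?_ (wt_nonneg hq0 hr _)
          split_ifs
          · exact wt_nonneg hq0 hr _
          · exact le_rfl) hf hf0
    have h2 := hsum f
    have h3 := hsum (fun _ => 1)
    simp only [mul_one] at h3
    rw [h2, h3] at h1
    have hQ : 0 < q ^ ((D' \ D) ∩ D').card := pow_pos hq0 _
    unfold ex
    rw [div_le_div_iff₀ (Z_pos hq0 hr) (Z_pos hq0 hr)]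
    unfold Z
    by_contra hcon
    push Not at hcon
    have h4 := mul_lt_mul_of_pos_right hcon hQ
    nlinarith [h1, h4]
  have h2 := key _ (shift hf).1 (shift hf).2
  rw [ex_shift hq0 hr, ex_shift hq0 hr] at h2
  linarith

end Pool.Helper49.FK
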