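import Mathlib
import Pool.Agent.Helper49.FK.Defs
import Pool.Agent.Helper49.FK.Comp
import Pool.Agent.Helper49.FK.Fkg

/-!
Project OZ.  Block FK-9: probabilities of events, conditioning on open edges.

`prW F A` is the conditional probability of `A` given that all edges of `F` are open (boundary condition wired
through `F`).
* `prW_and`: `A` increasing, `B` depends only on the edges of `F'`.  Decompose `B` according to `ω ∩ F'`.  For
  `ξ ⊆ F'` the four functions theorem / the lattice condition `wt_super` gives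
  `P (F ⊆ ω, A, ω ∩ F' = ξ) * P (F ∪ F' ⊆ ω) ≤ P (F ⊆ ω, ω ∩ F' = ξ) * P (F ∪ F' ⊆ ω, A)`
  (apply Mathlib's `four_functions_theorem` or Holley's inequality to the indicator functions times `wt`).
* `prW_mono`: increase `D`, `r`, `F`: the law given `F ⊆ ω` is dominated; the lattice condition again (Holley: for
  `r ≤ r'` and `D ⊆ D'` one has `wt D r ω * wt D' r' ω' ≤ wt D r (ω ∩ ω') * wt D' r' (ω ∪ ω')` up to the constants
  `q ^ (D' ∖ D).card`).
* `pr_prod`: induction with `prW_and` (and `prW_mono`).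
-/

namespace Pool.Helper49.FK

/-- Increasing events. -/
def Incr (A : Finset Edge → Prop) : Prop := ∀ ω ω', ω ⊆ ω' → A ω → A ω'

/-- `A` depends only on the edges of `F`. -/
def Dep (F : Finset Edge) (A : Finset Edge → Prop) : Prop := ∀ ω, A (ω ∩ F) ↔ A ω

/-- The conditional probability of `A` given that all edges of `F` are open. -/
noncomputable def prW (q : ℝ) (r : Edge → ℝ) (D : Finset (ℤ × ℤ)) (F : Finset Edge)
    (A : Finset Edge → Prop) : ℝ :=
  pr q r D (fun ω => F ⊆ ω ∧ A ω) / pr q r D (fun ω => F ⊆ ω)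

open Classical in
/-- The vertices of `D` joined to `S`. -/
noncomputable def cluS (D S : Finset (ℤ × ℤ)) (ω : Finset Edge) : Finset (ℤ × ℤ) :=
  D.filter fun y => ∃ s ∈ S, Conn ω s y

open Classical in
/-- The open edges joined to `S`. -/
noncomputable def cleS (S : Finset (ℤ × ℤ)) (ω : Finset Edge) : Finset Edge :=
  ω.filter fun e => ∃ s ∈ S, Conn ω s e.1

variable {q : ℝ} {r r' : Edge → ℝ} {D D' : Finset (ℤ × ℤ)} {A B : Finset Edge → Prop}

private theorem pr_eq (A : Finset Edge → Prop) [DecidablePred A] :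
    pr q r D A = (∑ ω ∈ (edges D).powerset, wt q r D ω * (if A ω then 1 else 0)) / Z q r D := by
  unfold pr ex
  congr 1
  refine Finset.sum_congr rfl fun ω _ => ?_
  congr 1
  by_cases h : A ω <;> simp [h]

theorem pr_nonneg (hq : 0 < q) (hr : ∀ e, 0 ≤ r e) (A : Finset Edge → Prop) :
    0 ≤ pr q r D A := by
  classical
  rw [pr_eq]
  refine div_nonneg (Finset.sum_nonneg fun ω _ => mul_nonneg (wt_nonneg hq hr ω) ?_) (Z_pos hq hr).le
  split_ifs <;> norm_num

theorem pr_mono (hq : 0 < q) (hr : ∀ e, 0 ≤ r e) (h : ∀ ω, ω ⊆ edges D → A ω → B ω) :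
    pr q r D A ≤ pr q r D B := by
  classical
  unfold pr
  refine ex_le hq hr fun ω hω => ?_
  by_cases hA : A ω
  · rw [if_pos hA, if_pos (h ω hω hA)]
  · rw [if_neg hA]
    split_ifs <;> norm_num

theorem pr_congr (h : ∀ ω, ω ⊆ edges D → (A ω ↔ B ω)) : pr q r D A = pr q r D B := by
  classical
  unfold pr
  refine ex_congr fun ω hω => ?_
  by_cases hA : A ω
  · rw [if_pos hA, if_pos ((h ω hω).1 hA)]
  · rw [if_neg hA, if_neg fun hB => hA ((h ω hω).2 hB)]

private theorem pr_true (hq : 0 < q) (hr : ∀ e, 0 ≤ r e) : pr q r D (fun _ => True) = 1 := by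
  classical
  refine Eq.trans ?_ (ex_const (D := D) hq hr 1)
  exact ex_congr fun ω _ => by simp

theorem pr_le_one (hq : 0 < q) (hr : ∀ e, 0 ≤ r e) (A : Finset Edge → Prop) :
    pr q r D A ≤ 1 := by
  rw [← pr_true (D := D) hq hr]
  exact pr_mono hq hr fun _ _ _ => trivial

theorem pr_split (A B : Finset Edge → Prop) :
    pr q r D A = pr q r D (fun ω => A ω ∧ B ω) + pr q r D (fun ω => A ω ∧ ¬ B ω) := by
  classical
  unfold pr
  rw [← ex_add]
  refine ex_congr fun ω _ => ?_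
  by_cases hA : A ω <;> by_cases hB : B ω <;> simp [hA, hB]

theorem pr_add_compl (hq : 0 < q) (hr : ∀ e, 0 ≤ r e) (A : Finset Edge → Prop) :
    pr q r D A + pr q r D (fun ω => ¬ A ω) = 1 := by
  have h := pr_split (q := q) (r := r) (D := D) (fun _ => True) A
  rw [pr_true hq hr] at h
  rw [h]
  congr 1 <;> exact pr_congr fun ω _ => by simp

theorem pr_or_le (hq : 0 < q) (hr : ∀ e, 0 ≤ r e) (A B : Finset Edge → Prop) :
    pr q r D (fun ω => A ω ∨ B ω) ≤ pr q r D A + pr q r D B := by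
  classical
  unfold pr
  rw [← ex_add]
  refine ex_le hq hr fun ω _ => ?_
  by_cases hA : A ω <;> by_cases hB : B ω <;> simp [hA, hB]

private theorem pr_false : pr q r D (fun _ => False) = 0 := by
  classical
  rw [pr_eq]
  simp

theorem pr_exists_le {ι : Type*} (hq : 0 < q) (hr : ∀ e, 0 ≤ r e) (s : Finset ι)
    (A : ι → Finset Edge → Prop) :
    pr q r D (fun ω => ∃ i ∈ s, A i ω) ≤ ∑ i ∈ s, pr q r D (A i) := by
  classical
  induction s using Finset.induction_on with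
  | empty =>
    have h : pr q r D (fun ω => ∃ i ∈ (∅ : Finset ι), A i ω) = 0 := by
      rw [← pr_false (q := q) (r := r) (D := D)]
      exact pr_congr fun ω _ => by simp
    rw [h]; simp
  | insert a s ha ih =>
    rw [Finset.sum_insert ha]
    have h : pr q r D (fun ω => ∃ i ∈ insert a s, A i ω)
        = pr q r D (fun ω => A a ω ∨ ∃ i ∈ s, A i ω) :=
      pr_congr fun ω _ => by simp [Finset.mem_insert, or_and_right, exists_or]
    rw [h]
    exact (pr_or_le hq hr _ _).trans (by linarith)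

private theorem mono_ite (hA : Incr A) [DecidablePred A] :
    Mono fun ω => (if A ω then (1 : ℝ) else 0) := by
  intro ω ω' h
  by_cases h1 : A ω
  · simp only [if_pos h1, if_pos (hA _ _ h h1), le_refl]
  · simp only [if_neg h1]
    split_ifs <;> norm_num

theorem pr_fkg (hq : 1 ≤ q) (hr : ∀ e, 0 ≤ r e) (hA : Incr A) (hB : Incr B) :
    pr q r D A * pr q r D B ≤ pr q r D (fun ω => A ω ∧ B ω) := by
  classical
  refine (fkg hq hr (mono_ite hA) (mono_ite hB)).trans (le_of_eq ?_)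
  unfold pr
  refine ex_congr fun ω _ => ?_
  by_cases hA : A ω <;> by_cases hB : B ω <;> simp [hA, hB]

theorem pr_mono_r (hq : 1 ≤ q) (hr : ∀ e, 0 ≤ r e) (h : ∀ e, r e ≤ r' e) (hA : Incr A) :
    pr q r D A ≤ pr q r' D A := by
  classical
  exact ex_mono_r hq hr h (mono_ite hA)

theorem pr_mono_D (hq : 1 ≤ q) (hr : ∀ e, 0 ≤ r e) (h : D ⊆ D') (hA : Incr A) :
    pr q r D A ≤ pr q r D' A := by
  classical
  exact ex_mono_D hq hr h (mono_ite hA)

theorem pr_open_pos (hq : 0 < q) (hr : ∀ e, 0 ≤ r e) {F : Finset Edge} (hF : F ⊆ edges D)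
    (h : ∀ e ∈ F, 0 < r e) : 0 < pr q r D (fun ω => F ⊆ ω) := by
  classical
  rw [pr_eq]
  refine div_pos (lt_of_lt_of_le ?_ (Finset.single_le_sum (f := fun ω => wt q r D ω *
    (if F ⊆ ω then 1 else 0)) (fun ω _ => mul_nonneg (wt_nonneg hq hr ω) ?_)
    (Finset.mem_powerset.2 hF))) (Z_pos hq hr)
  · simp only [Finset.Subset.refl, if_true, mul_one]
    exact mul_pos (Finset.prod_pos h) (pow_pos hq _)
  · split_ifs <;> norm_num

theorem prW_nonneg (hq : 0 < q) (hr : ∀ e, 0 ≤ r e) (F : Finset Edge)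
    (A : Finset Edge → Prop) : 0 ≤ prW q r D F A :=
  div_nonneg (pr_nonneg hq hr _) (pr_nonneg hq hr _)

theorem prW_mono_event (hq : 0 < q) (hr : ∀ e, 0 ≤ r e) (F : Finset Edge)
    (h : ∀ ω, ω ⊆ edges D → F ⊆ ω → A ω → B ω) : prW q r D F A ≤ prW q r D F B :=
  div_le_div_of_nonneg_right (pr_mono hq hr fun ω hω h1 => ⟨h1.1, h ω hω h1.1 h1.2⟩)
    (pr_nonneg hq hr _)

theorem prW_le_one (hq : 0 < q) (hr : ∀ e, 0 ≤ r e) (F : Finset Edge)
    (A : Finset Edge → Prop) : prW q r D F A ≤ 1 :=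
  div_le_one_of_le₀ (pr_mono hq hr fun _ _ h => h.1) (pr_nonneg hq hr _)

theorem prW_empty (hq : 0 < q) (hr : ∀ e, 0 ≤ r e) (A : Finset Edge → Prop) :
    prW q r D ∅ A = pr q r D A := by
  unfold prW
  have h1 : pr q r D (fun ω => ∅ ⊆ ω ∧ A ω) = pr q r D A := pr_congr fun ω _ => by simp
  have h2 : pr q r D (fun ω => (∅ : Finset Edge) ⊆ ω) = 1 := by
    rw [← pr_true (D := D) hq hr]
    exact pr_congr fun ω _ => by simp
  rw [h1, h2, div_one]

theorem prW_exists_le {ι : Type*} (hq : 0 < q) (hr : ∀ e, 0 ≤ r e) (F : Finset Edge)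
    (s : Finset ι) (A : ι → Finset Edge → Prop) :
    prW q r D F (fun ω => ∃ i ∈ s, A i ω) ≤ ∑ i ∈ s, prW q r D F (A i) := by
  unfold prW
  rw [← Finset.sum_div]
  refine div_le_div_of_nonneg_right ?_ (pr_nonneg hq hr _)
  have h : pr q r D (fun ω => F ⊆ ω ∧ ∃ i ∈ s, A i ω)
      = pr q r D (fun ω => ∃ i ∈ s, (F ⊆ ω ∧ A i ω)) :=
    pr_congr fun ω _ => ⟨fun ⟨h1, i, hi, h2⟩ => ⟨i, hi, h1, h2⟩, fun ⟨i, hi, h1, h2⟩ => ⟨h1, i, hi, h2⟩⟩
  rw [h]
  exact pr_exists_le hq hr s _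

/-- The four functions theorem for two weights. -/
private theorem four {E E' : Finset Edge} (hE : E ⊆ E') (w w' : Finset Edge → ℝ) (hw : ∀ ω, 0 ≤ w ω)
    (hw' : ∀ ω, 0 ≤ w' ω) (P1 P2 P3 P4 : Finset Edge → Prop) [DecidablePred P1] [DecidablePred P2]
    [DecidablePred P3] [DecidablePred P4]
    (h : ∀ a b, a ⊆ E → b ⊆ E' → P1 a → P2 b →
      P3 (a ∩ b) ∧ P4 (a ∪ b) ∧ w a * w' b ≤ w (a ∩ b) * w' (a ∪ b)) :
    (∑ ω ∈ E.powerset, w ω * (if P1 ω then 1 else 0)) *
        (∑ ω ∈ E'.powerset, w' ω * (if P2 ω then 1 else 0)) ≤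
      (∑ ω ∈ E.powerset, w ω * (if P3 ω then 1 else 0)) *
        (∑ ω ∈ E'.powerset, w' ω * (if P4 ω then 1 else 0)) := by
  classical
  have i0 : ∀ (P : Prop) [Decidable P], (0 : ℝ) ≤ if P then 1 else 0 := by
    intro P _; split_ifs <;> norm_num
  have key := Finset.four_functions_theorem (β := ℝ) E'
    (f₁ := fun ω => if ω ⊆ E then w ω * (if P1 ω then 1 else 0) else 0)
    (f₂ := fun ω => w' ω * (if P2 ω then 1 else 0))
    (f₃ := fun ω => w ω * (if P3 ω then 1 else 0))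
    (f₄ := fun ω => w' ω * (if P4 ω then 1 else 0))
    (fun ω => by
      show (0 : ℝ) ≤ if ω ⊆ E then w ω * (if P1 ω then 1 else 0) else 0
      split_ifs <;> simp [hw])
    (fun ω => mul_nonneg (hw' ω) (i0 _)) (fun ω => mul_nonneg (hw ω) (i0 _))
    (fun ω => mul_nonneg (hw' ω) (i0 _)) ?_ (𝒜 := E.powerset) (ℬ := E'.powerset)
    (Finset.powerset_mono.2 hE) (Finset.Subset.refl _)
  · have e1 : ∑ ω ∈ E.powerset, (if ω ⊆ E then w ω * (if P1 ω then 1 else 0) else 0)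
        = ∑ ω ∈ E.powerset, w ω * (if P1 ω then 1 else 0) :=
      Finset.sum_congr rfl fun ω hω => by rw [if_pos (Finset.mem_powerset.1 hω)]
    rw [e1] at key
    refine key.trans (mul_le_mul ?_ ?_ ?_ ?_)
    · refine Finset.sum_le_sum_of_subset_of_nonneg ?_ fun ω _ _ => mul_nonneg (hw ω) (i0 _)
      intro c hc
      obtain ⟨a, ha, b, hb, rfl⟩ := Finset.mem_infs.1 hc
      exact Finset.mem_powerset.2 (Finset.inter_subset_left.trans (Finset.mem_powerset.1 ha))
    · refine Finset.sum_le_sum_of_subset_of_nonneg ?_ fun ω _ _ => mul_nonneg (hw' ω) (i0 _)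
      intro c hc
      obtain ⟨a, ha, b, hb, rfl⟩ := Finset.mem_sups.1 hc
      exact Finset.mem_powerset.2 (Finset.union_subset ((Finset.mem_powerset.1 ha).trans hE)
        (Finset.mem_powerset.1 hb))
    · exact Finset.sum_nonneg fun ω _ => mul_nonneg (hw' ω) (i0 _)
    · exact Finset.sum_nonneg fun ω _ => mul_nonneg (hw ω) (i0 _)
  · intro a _ b hb
    show (if a ⊆ E then w a * (if P1 a then 1 else 0) else 0) * (w' b * (if P2 b then 1 else 0)) ≤
      (w (a ∩ b) * (if P3 (a ∩ b) then 1 else 0)) * (w' (a ∪ b) * (if P4 (a ∪ b) then 1 else 0))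
    have hR : 0 ≤ (w (a ∩ b) * (if P3 (a ∩ b) then 1 else 0)) *
        (w' (a ∪ b) * (if P4 (a ∪ b) then 1 else 0)) :=
      mul_nonneg (mul_nonneg (hw _) (i0 _)) (mul_nonneg (hw' _) (i0 _))
    by_cases ha : a ⊆ E
    · by_cases h1 : P1 a
      · by_cases h2 : P2 b
        · obtain ⟨h3, h4, h5⟩ := h a b ha hb h1 h2
          rw [if_pos ha, if_pos h1, if_pos h2, if_pos h3, if_pos h4]
          linarith
        · rw [if_neg h2]; simpa using hR
      · rw [if_neg h1]; simpa using hR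
    · rw [if_neg ha]; simpa using hR

private theorem wt_super' (hq : 1 ≤ q) (hr : ∀ e, 0 ≤ r e) (h : ∀ e, r e ≤ r' e) (hD : D ⊆ D')
    {a b : Finset Edge} (ha : a ⊆ edges D) (hb : b ⊆ edges D') :
    wt q r D a * wt q r' D' b ≤ wt q r D (a ∩ b) * wt q r' D' (a ∪ b) := by
  classical
  have hr' : ∀ e, 0 ≤ r' e := fun e => (hr e).trans (h e)
  have hDD : D' \ (D' \ D) = D := by
    ext x; simp only [Finset.mem_sdiff]; constructor
    · rintro ⟨h1, h2⟩; by_contra h3; exact h2 ⟨h1, h3⟩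
    · intro h1; exact ⟨hD h1, fun h2 => h2.2 h1⟩
  have n1 : ∀ c, c ⊆ edges D → ncl D' c = ncl D c + ((D' \ D) ∩ D').card := by
    intro c hc
    have := ncl_sdiff (D := D') (V := D' \ D) (ω := c) (by rw [hDD]; exact hc)
    rw [hDD] at this
    exact this
  have n2 := ncl_super (D := D') (ω := a) (ω' := b) (ha.trans (edges_mono hD)) hb
  rw [n1 a ha, n1 (a ∩ b) (Finset.inter_subset_left.trans ha)] at n2
  have n3 : ncl D a + ncl D' b ≤ ncl D (a ∩ b) + ncl D' (a ∪ b) := by omega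
  have p1 : (∏ e ∈ a, r e) * (∏ e ∈ b, r' e) ≤ (∏ e ∈ a ∩ b, r e) * (∏ e ∈ a ∪ b, r' e) := by
    have q1 : (∏ e ∈ a, r e) = (∏ e ∈ a ∩ b, r e) * ∏ e ∈ a \ b, r e := by
      rw [Finset.prod_inter_mul_prod_sdiff]
    have q2 : (∏ e ∈ a ∪ b, r' e) = (∏ e ∈ a \ b, r' e) * ∏ e ∈ b, r' e := by
      rw [← Finset.prod_union Finset.sdiff_disjoint, Finset.sdiff_union_self_eq_union]
    rw [q1, q2, mul_assoc]
    refine mul_le_mul_of_nonneg_left ?_ (Finset.prod_nonneg fun e _ => hr e)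
    exact mul_le_mul_of_nonneg_right (Finset.prod_le_prod (fun e _ => hr e) fun e _ => h e)
      (Finset.prod_nonneg fun e _ => hr' e)
  have p2 : q ^ (ncl D a + ncl D' b) ≤ q ^ (ncl D (a ∩ b) + ncl D' (a ∪ b)) :=
    pow_le_pow_right₀ hq n3
  unfold wt
  have hq0 : (0 : ℝ) < q := by linarith
  calc (∏ e ∈ a, r e) * q ^ ncl D a * ((∏ e ∈ b, r' e) * q ^ ncl D' b)
      = ((∏ e ∈ a, r e) * (∏ e ∈ b, r' e)) * q ^ (ncl D a + ncl D' b) := by rw [pow_add]; ring
    _ ≤ ((∏ e ∈ a ∩ b, r e) * (∏ e ∈ a ∪ b, r' e)) * q ^ (ncl D (a ∩ b) + ncl D' (a ∪ b)) :=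
        mul_le_mul p1 p2 (pow_pos hq0 _).le (mul_nonneg (Finset.prod_nonneg fun e _ => hr e)
          (Finset.prod_nonneg fun e _ => hr' e))
    _ = _ := by rw [pow_add]; ring

/-- The comparison of two pairs of events. -/
private theorem pr_four (hq : 1 ≤ q) (hr : ∀ e, 0 ≤ r e) (h : ∀ e, r e ≤ r' e) (hD : D ⊆ D')
    (P1 P2 P3 P4 : Finset Edge → Prop)
    (hP : ∀ a b, a ⊆ edges D → b ⊆ edges D' → P1 a → P2 b → P3 (a ∩ b) ∧ P4 (a ∪ b)) :
    pr q r D P1 * pr q r' D' P2 ≤ pr q r D P3 * pr q r' D' P4 := by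
  classical
  have hq0 : (0 : ℝ) < q := by linarith
  have hr' : ∀ e, 0 ≤ r' e := fun e => (hr e).trans (h e)
  rw [pr_eq, pr_eq, pr_eq, pr_eq, div_mul_div_comm, div_mul_div_comm]
  refine div_le_div_of_nonneg_right ?_ (mul_pos (Z_pos hq0 hr) (Z_pos hq0 hr')).le
  refine four (edges_mono hD) _ _ (wt_nonneg hq0 hr) (wt_nonneg hq0 hr') P1 P2 P3 P4
    fun a b ha hb h1 h2 => ⟨(hP a b ha hb h1 h2).1, (hP a b ha hb h1 h2).2, wt_super' hq hr h hD ha hb⟩

theorem prW_and (hq : 1 ≤ q) (hr : ∀ e, 0 ≤ r e) {F F' : Finset Edge} (hF : F ∪ F' ⊆ edges D)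
    (hpos : ∀ e ∈ F ∪ F', 0 < r e) (hA : Incr A) (hB : Dep F' B) :
    prW q r D F (fun ω => A ω ∧ B ω) ≤ prW q r D (F ∪ F') A * prW q r D F B := by
  classical
  have hq0 : (0 : ℝ) < q := by linarith
  have h1 : 0 < pr q r D (fun ω => F ⊆ ω) := pr_open_pos hq0 hr
    (Finset.subset_union_left.trans hF) fun e he => hpos e (Finset.mem_union_left _ he)
  have h2 : 0 < pr q r D (fun ω => F ∪ F' ⊆ ω) := pr_open_pos hq0 hr hF hpos
  have key := pr_four (D := D) (D' := D) hq hr (fun e => le_refl (r e)) (Finset.Subset.refl D)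
    (fun ω => F ⊆ ω ∧ (A ω ∧ B ω)) (fun ω => F ∪ F' ⊆ ω) (fun ω => F ⊆ ω ∧ B ω)
    (fun ω => F ∪ F' ⊆ ω ∧ A ω) (by
      rintro a b _ _ ⟨k1, k2, k3⟩ k4
      refine ⟨⟨Finset.subset_inter k1 (Finset.subset_union_left.trans k4), ?_⟩,
        k4.trans Finset.subset_union_right, hA _ _ Finset.subset_union_left k2⟩
      have e1 : a ∩ b ∩ F' = a ∩ F' := by
        rw [Finset.inter_assoc, Finset.inter_eq_right.2 (Finset.subset_union_right.trans k4)]
      rw [← hB (a ∩ b), e1, hB]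
      exact k3)
  unfold prW
  rw [div_mul_div_comm, div_le_div_iff₀ h1 (mul_pos h2 h1)]
  calc pr q r D (fun ω => F ⊆ ω ∧ (A ω ∧ B ω)) * (pr q r D (fun ω => F ∪ F' ⊆ ω)
        * pr q r D (fun ω => F ⊆ ω))
      = (pr q r D (fun ω => F ⊆ ω ∧ (A ω ∧ B ω)) * pr q r D (fun ω => F ∪ F' ⊆ ω))
        * pr q r D (fun ω => F ⊆ ω) := by ring
    _ ≤ (pr q r D (fun ω => F ⊆ ω ∧ B ω) * pr q r D (fun ω => F ∪ F' ⊆ ω ∧ A ω))
        * pr q r D (fun ω => F ⊆ ω) := mul_le_mul_of_nonneg_right key h1.le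
    _ = _ := by ring

theorem prW_mono (hq : 1 ≤ q) (hr : ∀ e, 0 ≤ r e) (h : ∀ e, r e ≤ r' e) (hD : D ⊆ D')
    {F F' : Finset Edge} (hFF : F ⊆ F') (hF' : F' ⊆ edges D') (hpos : ∀ e ∈ F', 0 < r' e)
    (hA : Incr A) : prW q r D F A ≤ prW q r' D' F' A := by
  classical
  have hq0 : (0 : ℝ) < q := by linarith
  have hr' : ∀ e, 0 ≤ r' e := fun e => (hr e).trans (h e)
  have h2 : 0 < pr q r' D' (fun ω => F' ⊆ ω) := pr_open_pos hq0 hr' hF' hpos
  rcases (pr_nonneg (D := D) hq0 hr (fun ω => F ⊆ ω)).eq_or_lt with h1 | h1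
  · unfold prW
    rw [← h1, div_zero]
    exact div_nonneg (pr_nonneg hq0 hr' _) (pr_nonneg hq0 hr' _)
  have key := pr_four (D := D) (D' := D') hq hr h hD
    (fun ω => F ⊆ ω ∧ A ω) (fun ω => F' ⊆ ω) (fun ω => F ⊆ ω) (fun ω => F' ⊆ ω ∧ A ω) (by
      rintro a b _ _ ⟨k1, k2⟩ k4
      exact ⟨Finset.subset_inter k1 (hFF.trans k4), k4.trans Finset.subset_union_right,
        hA _ _ Finset.subset_union_left k2⟩)
  unfold prW
  rw [div_le_div_iff₀ h1 h2]
  linarith

theorem pr_prod {ι : Type*} (hq : 1 ≤ q) (hr : ∀ e, 0 ≤ r e) (hpos : ∀ e ∈ edges D, 0 < r e)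
    (s : Finset ι) (A : ι → Finset Edge → Prop) (F : ι → Finset Edge)
    (hF : ∀ i ∈ s, F i ⊆ edges D) (hd : ∀ i ∈ s, ∀ j ∈ s, i ≠ j → Disjoint (F i) (F j))
    (hA : ∀ i ∈ s, Incr (A i)) (hdep : ∀ i ∈ s, Dep (F i) (A i)) :
    pr q r D (fun ω => ∀ i ∈ s, A i ω) ≤ ∏ i ∈ s, prW q r D (edges D \ F i) (A i) := by
  classical
  have hq0 : (0 : ℝ) < q := by linarith
  induction s using Finset.induction_on with
  | empty =>
    rw [Finset.prod_empty]
    exact pr_le_one hq0 hr _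
  | insert i s hi ih =>
    rw [Finset.prod_insert hi]
    have ih' := ih (fun j hj => hF j (Finset.mem_insert_of_mem hj))
      (fun j hj k hk => hd j (Finset.mem_insert_of_mem hj) k (Finset.mem_insert_of_mem hk))
      (fun j hj => hA j (Finset.mem_insert_of_mem hj))
      (fun j hj => hdep j (Finset.mem_insert_of_mem hj))
    have e1 : pr q r D (fun ω => ∀ j ∈ insert i s, A j ω)
        = prW q r D ∅ (fun ω => A i ω ∧ ∀ j ∈ s, A j ω) := by
      rw [prW_empty hq0 hr]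
      exact pr_congr fun ω _ => by simp [Finset.mem_insert]
    have hB : Dep (edges D \ F i) (fun ω => ∀ j ∈ s, A j ω) := by
      intro ω
      refine forall₂_congr fun j hj => ?_
      have hjF : F j ⊆ edges D \ F i := by
        intro e he
        refine Finset.mem_sdiff.2 ⟨hF j (Finset.mem_insert_of_mem hj) he, fun h' => ?_⟩
        exact (Finset.disjoint_left.1 (hd j (Finset.mem_insert_of_mem hj) i
          (Finset.mem_insert_self _ _) (fun h'' => hi (h'' ▸ hj)))) he h'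
      have d := hdep j (Finset.mem_insert_of_mem hj)
      rw [← d (ω ∩ (edges D \ F i)), Finset.inter_assoc, Finset.inter_eq_right.2 hjF, d]
    have e2 := prW_and (D := D) (F := ∅) (F' := edges D \ F i) (A := A i)
      (B := fun ω => ∀ j ∈ s, A j ω) hq hr
      (by rw [Finset.empty_union]; exact Finset.sdiff_subset)
      (fun e he => hpos e (by
        rw [Finset.empty_union] at he; exact Finset.sdiff_subset he))
      (hA i (Finset.mem_insert_self _ _)) hB
    rw [Finset.empty_union, prW_empty (A := fun ω => ∀ j ∈ s, A j ω) hq0 hr] at e2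
    rw [e1]
    exact e2.trans (mul_le_mul_of_nonneg_left ih' (prW_nonneg hq0 hr _ _))

end Pool.Helper49.FK
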