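import Mathlib
import Pool.Agent.Helper49.FK.Defs
import Pool.Agent.Helper49.FK.Comp
import Pool.Agent.Helper49.FK.Fkg

/-!
Project OZ.  Block FK-3: the function `Psi D V`, the probability that no open edge touches `V`.

* `pr_iso`: by `iso_iff`, the configurations in `edges D` with `Iso V` are those in `edges (D ∖ V)`, with
  `ncl D ω = ncl (D ∖ V) ω + (V ∩ D).card` (`ncl_sdiff`).
* `Psi_union`: `D ∖ (S ∪ V) = (D ∖ S) ∖ V` and `(S ∪ V) ∩ D` is the disjoint union of `S ∩ D` and `V ∩ (D ∖ S)`.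
* `Psi_anti_D`, `Psi_anti_r`, `Psi_super`: `Iso V` is decreasing: `ex_mono_D`, `ex_mono_r`, `fkg` for
  `1 - indicator`.
* `Psi_ge`: let `U` be the set of the vertices connected to `S` in `D`.  On the event that no point of `S` is connected to
  a point of `V` decompose according to `U` (disjoint from `V`) and to the open edges inside `U`: given them, the
  rest is the model in `D ∖ U` (`ncl_union`), where the probability of `Iso V` is `Psi (D ∖ U) V ≥ Psi (D ∖ S) V`
  (`Psi_anti_D`, `S ∩ D ⊆ U`).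
-/

namespace Pool.Helper49.FK

variable {q : ℝ} {r r' : Edge → ℝ} {D D' S V V' : Finset (ℤ × ℤ)}

theorem pr_iso (hq : 0 < q) (hr : ∀ e, 0 ≤ r e) : pr q r D (Iso V) = Psi q r D V := by
  classical
  unfold pr ex Psi
  congr 1
  have h1 : ∑ ω ∈ (edges D).powerset, wt q r D ω * (if Iso V ω then (1 : ℝ) else 0) =
      ∑ ω ∈ (edges D).powerset.filter (fun ω => Iso V ω), wt q r D ω := by
    rw [Finset.sum_filter]
    refine Finset.sum_congr rfl fun ω _ => ?_
    split_ifs <;> simp
  have h2 : (edges D).powerset.filter (fun ω => Iso V ω) = (edges (D \ V)).powerset := by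
    ext ω
    rw [Finset.mem_filter, Finset.mem_powerset, Finset.mem_powerset]
    exact iso_iff
  have h3 : ∀ ω ∈ (edges (D \ V)).powerset, wt q r D ω = q ^ (V ∩ D).card * wt q r (D \ V) ω := by
    intro ω hω
    unfold wt
    rw [ncl_sdiff (Finset.mem_powerset.1 hω), pow_add]
    ring
  convert h1.trans ?_ using 1
  rw [h2, Finset.sum_congr rfl h3, ← Finset.mul_sum]
  rfl

theorem Psi_pos (hq : 0 < q) (hr : ∀ e, 0 ≤ r e) : 0 < Psi q r D V := by
  unfold Psi
  exact div_pos (mul_pos (pow_pos hq _) (Z_pos hq hr)) (Z_pos hq hr)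

open Classical in
private theorem pr_mono92 (hq : 0 < q) (hr : ∀ e, 0 ≤ r e) {A B : Finset Edge → Prop}
    (h : ∀ ω, ω ⊆ edges D → A ω → B ω) : pr q r D A ≤ pr q r D B := by
  unfold pr
  refine ex_le hq hr fun ω hω => ?_
  by_cases hA : A ω
  · rw [if_pos hA, if_pos (h ω hω hA)]
  · rw [if_neg hA]
    split_ifs <;> norm_num

open Classical in
private theorem pr_le_one92 (hq : 0 < q) (hr : ∀ e, 0 ≤ r e) (A : Finset Edge → Prop) :
    pr q r D A ≤ 1 := by
  have h1 : pr q r D A ≤ ex q r D (fun _ => 1) := by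
    unfold pr
    refine ex_le hq hr fun ω _ => ?_
    split_ifs <;> norm_num
  rwa [ex_const hq hr] at h1

open Classical in
private theorem mono_neg92 {A : Finset Edge → Prop} (hA : ∀ ω ω', ω ⊆ ω' → A ω' → A ω) :
    Mono (fun ω => (-1 : ℝ) * (if A ω then 1 else 0)) := by
  intro ω ω' h
  by_cases h1 : A ω'
  · simp only [if_pos h1, if_pos (hA ω ω' h h1), le_refl]
  · simp only [if_neg h1]
    split_ifs <;> norm_num

open Classical in
private theorem pr_and92 (hq : 1 ≤ q) (hr : ∀ e, 0 ≤ r e) {A B : Finset Edge → Prop}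
    (hA : ∀ ω ω', ω ⊆ ω' → A ω' → A ω) (hB : ∀ ω ω', ω ⊆ ω' → B ω' → B ω) :
    pr q r D A * pr q r D B ≤ pr q r D (fun ω => A ω ∧ B ω) := by
  have h1 := fkg (D := D) hq hr (mono_neg92 hA) (mono_neg92 hB)
  rw [ex_const_mul, ex_const_mul] at h1
  have h2 : ex q r D (fun ω => (-1 : ℝ) * (if A ω then 1 else 0) * (-1 * (if B ω then 1 else 0))) =
      pr q r D (fun ω => A ω ∧ B ω) := by
    unfold pr
    refine ex_congr fun ω _ => ?_
    by_cases ha : A ω <;> by_cases hb : B ω <;> simp [ha, hb]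
  rw [h2] at h1
  unfold pr at *
  linarith

private theorem pr_mul92 (hq : 0 < q) (hr : ∀ e, 0 ≤ r e) (A : Finset Edge → Prop) [DecidablePred A] :
    Z q r D * pr q r D A = ∑ ω ∈ (edges D).powerset, wt q r D ω * (if A ω then 1 else 0) := by
  unfold pr ex
  rw [mul_div_cancel₀ _ (Z_pos hq hr).ne']
  refine Finset.sum_congr rfl fun ω _ => ?_
  by_cases h : A ω <;> simp [h]

private theorem iso_anti92 (ω ω' : Finset Edge) (h : ω ⊆ ω') (h' : Iso V ω') : Iso V ω :=
  fun e he => h' e (h he)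

theorem Psi_le_one (hq : 0 < q) (hr : ∀ e, 0 ≤ r e) : Psi q r D V ≤ 1 := by
  rw [← pr_iso hq hr]
  exact pr_le_one92 hq hr _

theorem Psi_union (hq : 0 < q) (hr : ∀ e, 0 ≤ r e) :
    Psi q r D (S ∪ V) = Psi q r D S * Psi q r (D \ S) V := by
  unfold Psi
  have h1 : D \ (S ∪ V) = (D \ S) \ V := by
    ext x
    simp only [Finset.mem_sdiff, Finset.mem_union]
    tauto
  have h2 : ((S ∪ V) ∩ D).card = (S ∩ D).card + (V ∩ (D \ S)).card := by
    rw [← Finset.card_union_of_disjoint]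
    · congr 1
      ext x
      simp only [Finset.mem_sdiff, Finset.mem_union, Finset.mem_inter]
      tauto
    · rw [Finset.disjoint_left]
      intro x hx hx'
      simp only [Finset.mem_sdiff, Finset.mem_inter] at hx hx'
      exact hx'.2.2 hx.1
  have h3 : Z q r (D \ S) ≠ 0 := (Z_pos hq hr).ne'
  have h4 : Z q r D ≠ 0 := (Z_pos hq hr).ne'
  rw [h1, h2, pow_add]
  field_simp

theorem Psi_anti_V (hq : 0 < q) (hr : ∀ e, 0 ≤ r e) (h : V ⊆ V') :
    Psi q r D V' ≤ Psi q r D V := by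
  rw [← pr_iso hq hr, ← pr_iso hq hr]
  exact pr_mono92 hq hr fun ω _ hω e he => ⟨fun h1 => (hω e he).1 (h h1), fun h1 => (hω e he).2 (h h1)⟩

open Classical in
theorem Psi_anti_D (hq : 1 ≤ q) (hr : ∀ e, 0 ≤ r e) (h : D ⊆ D') :
    Psi q r D' V ≤ Psi q r D V := by
  have h0 : 0 < q := by linarith
  rw [← pr_iso h0 hr, ← pr_iso h0 hr]
  have h1 := ex_mono_D hq hr h (mono_neg92 (A := Iso V) iso_anti92)
  rw [ex_const_mul, ex_const_mul] at h1
  unfold pr at *
  linarith

open Classical in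
theorem Psi_anti_r (hq : 1 ≤ q) (hr : ∀ e, 0 ≤ r e) (h : ∀ e, r e ≤ r' e) :
    Psi q r' D V ≤ Psi q r D V := by
  have h0 : 0 < q := by linarith
  rw [← pr_iso h0 hr, ← pr_iso h0 (fun e => (hr e).trans (h e))]
  have h1 := ex_mono_r (D := D) hq hr h (mono_neg92 (A := Iso V) iso_anti92)
  rw [ex_const_mul, ex_const_mul] at h1
  unfold pr at *
  linarith

theorem Psi_super (hq : 1 ≤ q) (hr : ∀ e, 0 ≤ r e) :
    Psi q r D S * Psi q r D V ≤ Psi q r D (S ∪ V) := by
  have h0 : 0 < q := by linarith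
  rw [← pr_iso h0 hr, ← pr_iso h0 hr, ← pr_iso h0 hr]
  refine (pr_and92 hq hr iso_anti92 iso_anti92).trans (pr_mono92 h0 hr fun ω _ hω e he => ?_)
  have h1 := hω.1 e he
  have h2 := hω.2 e he
  simp only [Finset.mem_union, not_or]
  exact ⟨⟨h1.1, h2.1⟩, ⟨h1.2, h2.2⟩⟩

section explore92

open Classical in
/-- the vertices of `D` connected to `S` -/
private noncomputable def U92 (D S : Finset (ℤ × ℤ)) (ω : Finset Edge) : Finset (ℤ × ℤ) :=
  D.filter fun y => ∃ s ∈ S, Conn ω s y

open Classical in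
/-- the configurations in `U` which connect all its vertices to `S` -/
private noncomputable def A92 (S U : Finset (ℤ × ℤ)) : Finset (Finset Edge) :=
  (edges U).powerset.filter fun C => ∀ u ∈ U, ∃ s ∈ S, Conn C s u

private theorem mem_U92 {ω : Finset Edge} {y : ℤ × ℤ} :
    y ∈ U92 D S ω ↔ y ∈ D ∧ ∃ s ∈ S, Conn ω s y := by
  classical
  unfold U92
  exact Finset.mem_filter

private theorem mem_A92 {U : Finset (ℤ × ℤ)} {C : Finset Edge} :
    C ∈ A92 S U ↔ C ⊆ edges U ∧ ∀ u ∈ U, ∃ s ∈ S, Conn C s u := by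
  classical
  unfold A92
  exact Finset.mem_filter.trans (and_congr Finset.mem_powerset Iff.rfl)

private theorem edge_U92 {ω : Finset Edge} (hω : ω ⊆ edges D) {e : Edge} (he : e ∈ ω) :
    e.1 ∈ U92 D S ω ↔ tip e ∈ U92 D S ω := by
  have h1 := mem_edges.1 (hω he)
  rw [mem_U92, mem_U92]
  constructor
  · rintro ⟨_, s, hs, h⟩
    exact ⟨h1.2, s, hs, h.trans (conn_edge he)⟩
  · rintro ⟨_, s, hs, h⟩
    exact ⟨h1.1, s, hs, h.trans (conn_edge he).symm⟩

private theorem split92 {ω : Finset Edge} (hω : ω ⊆ edges D) {U : Finset (ℤ × ℤ)}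
    (hU : U92 D S ω = U) : ω ∩ edges U ∪ ω ∩ edges (D \ U) = ω := by
  ext e
  simp only [Finset.mem_union, Finset.mem_inter]
  constructor
  · rintro (h | h) <;> exact h.1
  · intro he
    have h1 := mem_edges.1 (hω he)
    have h2 := edge_U92 (S := S) hω he
    rw [hU] at h2
    by_cases h3 : e.1 ∈ U
    · exact Or.inl ⟨he, mem_edges.2 ⟨h3, h2.1 h3⟩⟩
    · exact Or.inr ⟨he, mem_edges.2 ⟨Finset.mem_sdiff.2 ⟨h1.1, h3⟩,
        Finset.mem_sdiff.2 ⟨h1.2, fun h => h3 (h2.2 h)⟩⟩⟩

private theorem left92 {ω : Finset Edge} (hω : ω ⊆ edges D) (hS : S ⊆ D) {U : Finset (ℤ × ℤ)}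
    (hU : U92 D S ω = U) : ω ∩ edges U ∈ A92 S U := by
  rw [mem_A92]
  refine ⟨Finset.inter_subset_right, fun u hu => ?_⟩
  rw [← hU, mem_U92] at hu
  obtain ⟨_, s, hs, h⟩ := hu
  refine ⟨s, hs, ?_⟩
  have hsU : s ∈ U := by
    rw [← hU, mem_U92]
    exact ⟨hS hs, s, hs, Conn.refl _ _⟩
  refine Conn.induct (S := {y | Conn (ω ∩ edges U) s y}) h (Conn.refl _ _) fun e he => ?_
  have h2 := edge_U92 (S := S) hω he
  rw [hU] at h2
  constructor
  · intro h3
    have h4 : e.1 ∈ U := Conn.mem Finset.inter_subset_right h3 hsU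
    exact Conn.trans h3 (conn_edge (Finset.mem_inter.2 ⟨he, mem_edges.2 ⟨h4, h2.1 h4⟩⟩))
  · intro h3
    have h4 : tip e ∈ U := Conn.mem Finset.inter_subset_right h3 hsU
    exact Conn.trans h3 (conn_edge (Finset.mem_inter.2 ⟨he, mem_edges.2 ⟨h2.2 h4, h4⟩⟩)).symm

private theorem glue92 {U : Finset (ℤ × ℤ)} (hUD : U ⊆ D) (hSU : S ⊆ U) {C ω₂ : Finset Edge}
    (hC : C ∈ A92 S U) (h2 : ω₂ ⊆ edges (D \ U)) :
    C ∪ ω₂ ⊆ edges D ∧ U92 D S (C ∪ ω₂) = U ∧ (C ∪ ω₂) ∩ edges U = C ∧
      (C ∪ ω₂) ∩ edges (D \ U) = ω₂ := by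
  rw [mem_A92] at hC
  refine ⟨Finset.union_subset (hC.1.trans (edges_mono hUD)) (h2.trans (edges_mono Finset.sdiff_subset)),
    ?_, ?_, ?_⟩
  · ext y
    rw [mem_U92]
    constructor
    · rintro ⟨_, s, hs, h⟩
      refine Conn.induct (S := (U : Set (ℤ × ℤ))) h (hSU hs) fun e he => ?_
      rcases Finset.mem_union.1 he with h | h
      · have := mem_edges.1 (hC.1 h)
        exact iff_of_true this.1 this.2
      · have := mem_edges.1 (h2 h)
        exact iff_of_false (fun h => (Finset.mem_sdiff.1 this.1).2 h)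
          (fun h => (Finset.mem_sdiff.1 this.2).2 h)
    · intro hy
      obtain ⟨s, hs, h⟩ := hC.2 y hy
      exact ⟨hUD hy, s, hs, h.mono Finset.subset_union_left⟩
  · ext e
    simp only [Finset.mem_union, Finset.mem_inter]
    constructor
    · rintro ⟨h | h, h'⟩
      · exact h
      · exact absurd (mem_edges.1 h').1 (Finset.mem_sdiff.1 (mem_edges.1 (h2 h)).1).2
    · intro h
      exact ⟨Or.inl h, hC.1 h⟩
  · ext e
    simp only [Finset.mem_union, Finset.mem_inter]
    constructor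
    · rintro ⟨h | h, h'⟩
      · exact absurd (mem_edges.1 (hC.1 h)).1 (Finset.mem_sdiff.1 (mem_edges.1 h').1).2
      · exact h
    · intro h
      exact ⟨Or.inr h, h2 h⟩

private theorem wt_glue92 {U : Finset (ℤ × ℤ)} (hUD : U ⊆ D) {C ω₂ : Finset Edge}
    (hC : C ⊆ edges U) (h2 : ω₂ ⊆ edges (D \ U)) :
    wt q r D (C ∪ ω₂) = wt q r U C * wt q r (D \ U) ω₂ := by
  unfold wt
  have h1 : ncl D (C ∪ ω₂) = ncl U C + ncl (D \ U) ω₂ := by
    rw [← ncl_union Finset.disjoint_sdiff hC h2, Finset.union_sdiff_of_subset hUD]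
  have h3 : Disjoint C ω₂ := by
    rw [Finset.disjoint_left]
    intro e he he'
    exact (Finset.mem_sdiff.1 (mem_edges.1 (h2 he')).1).2 (mem_edges.1 (hC he)).1
  rw [h1, Finset.prod_union h3, pow_add]
  ring

open Classical in
/-- decomposition according to the set of the vertices connected to `S` -/
private theorem explore_sum92 (hS : S ⊆ D) (F : Finset Edge → ℝ) :
    ∑ ω ∈ (edges D).powerset, F ω =
      ∑ U ∈ D.powerset.filter (fun U => S ⊆ U), ∑ C ∈ A92 S U,
        ∑ ω₂ ∈ (edges (D \ U)).powerset, F (C ∪ ω₂) := by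
  rw [← Finset.sum_fiberwise_of_maps_to (g := fun ω => U92 D S ω)
    (t := D.powerset.filter (fun U => S ⊆ U))]
  · refine Finset.sum_congr rfl fun U hU => ?_
    rw [Finset.mem_filter, Finset.mem_powerset] at hU
    rw [← Finset.sum_product']
    refine Finset.sum_nbij' (fun ω => (ω ∩ edges U, ω ∩ edges (D \ U))) (fun p => p.1 ∪ p.2)
      ?_ ?_ ?_ ?_ ?_
    · intro ω hω
      rw [Finset.mem_filter, Finset.mem_powerset] at hω
      rw [Finset.mem_product, Finset.mem_powerset]
      exact ⟨left92 hω.1 hS hω.2, Finset.inter_subset_right⟩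
    · rintro ⟨C, ω₂⟩ hp
      rw [Finset.mem_product, Finset.mem_powerset] at hp
      have := glue92 hU.1 hU.2 hp.1 hp.2
      rw [Finset.mem_filter, Finset.mem_powerset]
      exact ⟨this.1, this.2.1⟩
    · intro ω hω
      rw [Finset.mem_filter, Finset.mem_powerset] at hω
      exact split92 hω.1 hω.2
    · rintro ⟨C, ω₂⟩ hp
      rw [Finset.mem_product, Finset.mem_powerset] at hp
      have := glue92 hU.1 hU.2 hp.1 hp.2
      exact Prod.ext this.2.2.1 this.2.2.2
    · intro ω hω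
      rw [Finset.mem_filter, Finset.mem_powerset] at hω
      rw [split92 hω.1 hω.2]
  · intro ω _
    rw [Finset.mem_filter, Finset.mem_powerset]
    refine ⟨Finset.filter_subset _ _, fun s hs => ?_⟩
    rw [mem_U92]
    exact ⟨hS hs, s, hs, Conn.refl _ _⟩

end explore92

open Classical in
theorem Psi_ge (hq : 1 ≤ q) (hr : ∀ e, 0 ≤ r e) (hS : S ⊆ D) :
    pr q r D (fun ω => ∀ s ∈ S, ∀ v ∈ V, ¬ Conn ω s v) * Psi q r (D \ S) V ≤ Psi q r D V := by
  have h0 : 0 < q := by linarith
  have hZ : 0 < Z q r D := Z_pos h0 hr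
  set N : Finset Edge → Prop := fun ω => ∀ s ∈ S, ∀ v ∈ V, ¬ Conn ω s v with hN
  -- the event in terms of `U`
  have hNU : ∀ U : Finset (ℤ × ℤ), U ⊆ D → S ⊆ U → ∀ C ∈ A92 S U, ∀ ω₂ ⊆ edges (D \ U),
      (N (C ∪ ω₂) ↔ Disjoint U V) := by
    intro U hUD hSU C hC ω₂ h2
    obtain ⟨g1, g2, _, _⟩ := glue92 hUD hSU hC h2
    constructor
    · intro h
      rw [Finset.disjoint_left]
      intro u hu hv
      rw [← g2, mem_U92] at hu
      obtain ⟨_, s, hs, hc⟩ := hu
      exact h s hs u hv hc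
    · intro h s hs v hv hc
      have hvU : v ∈ U := by
        rw [← g2, mem_U92]
        exact ⟨Conn.mem g1 hc (hS hs), s, hs, hc⟩
      exact Finset.disjoint_left.1 h hvU hv
  have e1 : Z q r D * pr q r D N = ∑ U ∈ D.powerset.filter (fun U => S ⊆ U),
      if Disjoint U V then (∑ C ∈ A92 S U, wt q r U C) * Z q r (D \ U) else 0 := by
    have e2 : Z q r D * pr q r D N =
        ∑ ω ∈ (edges D).powerset, wt q r D ω * (if N ω then 1 else 0) := pr_mul92 h0 hr N
    rw [e2, explore_sum92 hS]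
    refine Finset.sum_congr rfl fun U hU => ?_
    rw [Finset.mem_filter, Finset.mem_powerset] at hU
    have e3 : ∀ C ∈ A92 S U, ∀ ω₂ ∈ (edges (D \ U)).powerset,
        wt q r D (C ∪ ω₂) * (if N (C ∪ ω₂) then (1 : ℝ) else 0) =
        if Disjoint U V then wt q r U C * wt q r (D \ U) ω₂ else 0 := by
      intro C hC ω₂ h2
      rw [Finset.mem_powerset] at h2
      have e4 := hNU U hU.1 hU.2 C hC ω₂ h2
      rw [wt_glue92 hU.1 (mem_A92.1 hC).1 h2]
      by_cases h : Disjoint U V
      · rw [if_pos (e4.2 h), if_pos h, mul_one]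
      · rw [if_neg (fun h' => h (e4.1 h')), if_neg h, mul_zero]
    rw [Finset.sum_congr rfl fun C hC => Finset.sum_congr rfl (e3 C hC)]
    by_cases h : Disjoint U V
    · simp only [if_pos h]
      unfold Z
      rw [Finset.sum_mul_sum]
    · simp only [if_neg h, Finset.sum_const_zero]
  have e5 : ∑ U ∈ D.powerset.filter (fun U => S ⊆ U),
      (if Disjoint U V then (∑ C ∈ A92 S U, wt q r U C) * (Z q r (D \ U) * Psi q r (D \ U) V) else 0) ≤
      Z q r D * Psi q r D V := by
    have e2 : Z q r D * Psi q r D V =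
        ∑ ω ∈ (edges D).powerset, wt q r D ω * (if Iso V ω then 1 else 0) := by
      rw [← pr_iso h0 hr]
      exact pr_mul92 h0 hr _
    rw [e2, explore_sum92 hS]
    refine Finset.sum_le_sum fun U hU => ?_
    rw [Finset.mem_filter, Finset.mem_powerset] at hU
    by_cases h : Disjoint U V
    · rw [if_pos h]
      have e6 : Z q r (D \ U) * Psi q r (D \ U) V =
          ∑ ω ∈ (edges (D \ U)).powerset, wt q r (D \ U) ω * (if Iso V ω then 1 else 0) := by
        rw [← pr_iso h0 hr]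
        exact pr_mul92 h0 hr _
      rw [e6, Finset.sum_mul_sum]
      refine Finset.sum_le_sum fun C hC => Finset.sum_le_sum fun ω₂ h2 => ?_
      rw [Finset.mem_powerset] at h2
      have hC' := (mem_A92.1 hC).1
      rw [wt_glue92 hU.1 hC' h2, ← mul_assoc]
      refine mul_le_mul_of_nonneg_left ?_ (mul_nonneg (wt_nonneg h0 hr _) (wt_nonneg h0 hr _))
      by_cases h3 : Iso V ω₂
      · have h4 : Iso V (C ∪ ω₂) := by
          intro e he
          rcases Finset.mem_union.1 he with h5 | h5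
          · have h6 := mem_edges.1 (hC' h5)
            exact ⟨fun h7 => Finset.disjoint_left.1 h h6.1 h7,
              fun h7 => Finset.disjoint_left.1 h h6.2 h7⟩
          · exact h3 e h5
        rw [if_pos h3, if_pos h4]
      · rw [if_neg h3]
        split_ifs <;> norm_num
    · rw [if_neg h]
      refine Finset.sum_nonneg fun C _ => Finset.sum_nonneg fun ω₂ _ => ?_
      refine mul_nonneg (wt_nonneg h0 hr _) ?_
      split_ifs <;> norm_num
  have e7 : Z q r D * (pr q r D N * Psi q r (D \ S) V) ≤ Z q r D * Psi q r D V := by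
    refine le_trans ?_ e5
    rw [← mul_assoc, e1, Finset.sum_mul]
    refine Finset.sum_le_sum fun U hU => ?_
    rw [Finset.mem_filter, Finset.mem_powerset] at hU
    by_cases h : Disjoint U V
    · rw [if_pos h, if_pos h, mul_assoc]
      refine mul_le_mul_of_nonneg_left ?_ (Finset.sum_nonneg fun C _ => wt_nonneg h0 hr _)
      exact mul_le_mul_of_nonneg_left (Psi_anti_D hq hr (Finset.sdiff_subset_sdiff le_rfl hU.2))
        (Z_pos h0 hr).le
    · rw [if_neg h, if_neg h, zero_mul]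
  exact le_of_mul_le_mul_left e7 hZ

open Classical in
/-- an edge is closed with probability at least `(1 + r e)⁻¹` -/
private theorem closed92 (hq : 1 ≤ q) (hr : ∀ e, 0 ≤ r e) {e : Edge} (he : e ∈ edges D) :
    (1 + r e)⁻¹ ≤ pr q r D (fun ω => e ∉ ω) := by
  have h0 : 0 < q := by linarith
  have hZ : 0 < Z q r D := Z_pos h0 hr
  have hre : 0 < 1 + r e := by linarith [hr e]
  have h1 : ∑ ω ∈ (edges D).powerset, wt q r D ω * (if e ∉ ω then (1 : ℝ) else 0) =
      ∑ ω ∈ ((edges D).erase e).powerset, wt q r D ω := by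
    have h2 : ((edges D).erase e).powerset = (edges D).powerset.filter (fun ω => e ∉ ω) := by
      ext ω
      rw [Finset.mem_filter, Finset.mem_powerset, Finset.mem_powerset]
      constructor
      · intro h
        exact ⟨h.trans (Finset.erase_subset _ _), fun h' => (Finset.mem_erase.1 (h h')).1 rfl⟩
      · rintro ⟨h, h'⟩ x hx
        exact Finset.mem_erase.2 ⟨fun h2 => h' (h2 ▸ hx), h hx⟩
    rw [h2, Finset.sum_filter]
    refine Finset.sum_congr rfl fun ω _ => ?_
    split_ifs <;> simp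
  have h3 : Z q r D ≤ (1 + r e) * ∑ ω ∈ ((edges D).erase e).powerset, wt q r D ω := by
    have h4 : edges D = insert e ((edges D).erase e) := (Finset.insert_erase he).symm
    unfold Z
    conv_lhs => rw [h4]
    rw [Finset.sum_powerset_insert (Finset.notMem_erase _ _), add_mul, one_mul, Finset.mul_sum]
    refine add_le_add_right (Finset.sum_le_sum fun ω hω => ?_) _
    rw [Finset.mem_powerset] at hω
    have h5 : e ∉ ω := fun h => (Finset.mem_erase.1 (hω h)).1 rfl
    unfold wt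
    rw [Finset.prod_insert h5, mul_assoc]
    refine mul_le_mul_of_nonneg_left ?_ (hr e)
    refine mul_le_mul_of_nonneg_left ?_ (Finset.prod_nonneg fun _ _ => hr _)
    refine pow_le_pow_right₀ hq ?_
    by_cases h6 : Conn ω e.1 (tip e)
    · rw [ncl_insert_of_conn h6]
    · have := ncl_insert_of_not_conn he h6
      omega
  rw [← h1, ← pr_mul92 h0 hr] at h3
  rw [inv_le_iff_one_le_mul₀ hre]
  have h4 : Z q r D * 1 ≤ Z q r D * (pr q r D (fun ω => e ∉ ω) * (1 + r e)) := by
    rw [mul_one]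
    refine h3.trans (le_of_eq ?_)
    ring
  exact le_of_mul_le_mul_left h4 hZ

/-- Finite energy: `Psi D V ≥ ∏ (1 + r e)⁻¹` over the edges of `D` touching `V`. -/
theorem Psi_lower (hq : 1 ≤ q) (hr : ∀ e, 0 ≤ r e) :
    ∏ e ∈ (edges D).filter (fun e => e.1 ∈ V ∨ tip e ∈ V), (1 + r e)⁻¹ ≤ Psi q r D V := by
  classical
  have h0 : 0 < q := by linarith
  have key : ∀ E : Finset Edge, E ⊆ edges D →
      ∏ e ∈ E, (1 + r e)⁻¹ ≤ pr q r D (fun ω => ∀ e ∈ E, e ∉ ω) := by
    intro E
    induction E using Finset.induction_on with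
    | empty =>
      intro _
      rw [Finset.prod_empty]
      have h1 : (1 : ℝ) = ex q r D (fun _ => 1) := (ex_const h0 hr 1).symm
      rw [h1]
      unfold pr
      refine ex_le h0 hr fun ω _ => ?_
      rw [if_pos (by simp)]
    | insert e E he ih =>
      intro hE
      rw [Finset.prod_insert he]
      have h1 := ih fun x hx => hE (Finset.mem_insert_of_mem hx)
      have h2 := closed92 hq hr (hE (Finset.mem_insert_self e E))
      have h3 : 0 ≤ ∏ e ∈ E, (1 + r e)⁻¹ :=
        Finset.prod_nonneg fun e _ => inv_nonneg.2 (by linarith [hr e])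
      have h4 : 0 ≤ (1 + r e)⁻¹ := inv_nonneg.2 (by linarith [hr e])
      calc (1 + r e)⁻¹ * ∏ e ∈ E, (1 + r e)⁻¹
          ≤ pr q r D (fun ω => e ∉ ω) * pr q r D (fun ω => ∀ e ∈ E, e ∉ ω) :=
            mul_le_mul h2 h1 h3 (h4.trans h2)
        _ ≤ pr q r D (fun ω => e ∉ ω ∧ ∀ e ∈ E, e ∉ ω) :=
            pr_and92 hq hr (fun ω ω' h h' h'' => h' (h h'')) (fun ω ω' h h' e he h'' => h' e he (h h''))
        _ ≤ _ := pr_mono92 h0 hr fun ω _ h x hx => by
            rcases Finset.mem_insert.1 hx with rfl | hx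
            · exact h.1
            · exact h.2 x hx
  refine (key _ (Finset.filter_subset _ _)).trans ?_
  rw [← pr_iso h0 hr]
  refine pr_mono92 h0 hr fun ω hω h e he => ?_
  by_contra hc
  refine h e (Finset.mem_filter.2 ⟨hω he, ?_⟩) he
  by_contra h1
  push Not at h1
  exact hc h1

end Pool.Helper49.FK
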