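import Mathlib
import Pool.Agent.Helper49.FK.Defs
import Pool.Agent.Helper49.FK.Comp
import Pool.Agent.Helper49.FK.Fkg
import Pool.Agent.Helper49.FK.PsiF

/-!
Project OZ.  Block FK-5: the law of the cluster of a vertex in a finite domain.

For `ω ⊆ edges D` and `x ∈ D` put `V = clu D ω x`, `C = cle ω x`.  Then `x ∈ V ⊆ D`, `IsClu V C`, `ω ∖ C ⊆ edges (D ∖ V)`;
conversely for `x ∈ V ⊆ D`, `IsClu V C` and `ω' ⊆ edges (D ∖ V)` the configuration `C ∪ ω'` has this cluster of `x`.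
The weight is `(∏ e ∈ C, r e) * q ^ 1 * wt (D ∖ V) ω'` (`ncl_union`, `ncl_connected`).  Sum over `ω'`.
-/

namespace Pool.Helper49.FK

open Classical in
/-- The pairs `(V, C)` with `x ∈ V ⊆ D` and `IsClu V C`. -/
noncomputable def clus (D : Finset (ℤ × ℤ)) (x : ℤ × ℤ) :
    Finset ((_ : Finset (ℤ × ℤ)) × Finset Edge) :=
  (D.powerset.filter fun V => x ∈ V).sigma fun V => (edges V).powerset.filter fun C => IsClu V C

/-- The probability that the cluster of a vertex of `V` is `(V, C)`, in the domain `D`. -/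
noncomputable def clwD (q : ℝ) (r : Edge → ℝ) (D V : Finset (ℤ × ℤ)) (C : Finset Edge) : ℝ :=
  q * (∏ e ∈ C, r e) * Z q r (D \ V) / Z q r D

variable {q : ℝ} {r : Edge → ℝ} {D : Finset (ℤ × ℤ)}

theorem mem_clus {x : ℤ × ℤ} {c : (_ : Finset (ℤ × ℤ)) × Finset Edge} :
    c ∈ clus D x ↔ c.1 ⊆ D ∧ x ∈ c.1 ∧ IsClu c.1 c.2 := by
  classical
  unfold clus
  rw [Finset.mem_sigma, Finset.mem_filter, Finset.mem_filter, Finset.mem_powerset,
    Finset.mem_powerset]
  constructor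
  · rintro ⟨⟨h1, h2⟩, _, h3⟩
    exact ⟨h1, h2, h3⟩
  · rintro ⟨h1, h2, h3⟩
    exact ⟨⟨h1, h2⟩, h3.1, h3⟩

private theorem mem_clu53 {ω : Finset Edge} {x y : ℤ × ℤ} :
    y ∈ clu D ω x ↔ y ∈ D ∧ Conn ω x y := by
  classical
  unfold clu
  exact Finset.mem_filter

private theorem mem_cle53 {ω : Finset Edge} {x : ℤ × ℤ} {e : Edge} :
    e ∈ cle ω x ↔ e ∈ ω ∧ Conn ω x e.1 := by
  classical
  unfold cle
  exact Finset.mem_filter

private theorem isClu53 {ω : Finset Edge} (hω : ω ⊆ edges D) {x : ℤ × ℤ} :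
    IsClu (clu D ω x) (cle ω x) := by
  have hsub : cle ω x ⊆ ω := fun e he => (mem_cle53.1 he).1
  constructor
  · intro e he
    rw [mem_cle53] at he
    have h1 := mem_edges.1 (hω he.1)
    rw [mem_edges, mem_clu53, mem_clu53]
    exact ⟨⟨h1.1, he.2⟩, h1.2, he.2.trans (conn_edge he.1)⟩
  · have key : ∀ y ∈ clu D ω x, Conn (cle ω x) x y := by
      intro y hy
      rw [mem_clu53] at hy
      refine Conn.induct (S := {y | Conn (cle ω x) x y}) hy.2 (Conn.refl _ _) fun e he => ?_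
      constructor
      · intro h
        have h1 : Conn ω x e.1 := Conn.mono hsub h
        exact Conn.trans h (conn_edge (mem_cle53.2 ⟨he, h1⟩))
      · intro h
        have h1 : Conn ω x (tip e) := Conn.mono hsub h
        have h2 : Conn ω x e.1 := h1.trans (conn_edge he).symm
        exact Conn.trans h (conn_edge (mem_cle53.2 ⟨he, h2⟩)).symm
    intro y hy z hz
    exact (key y hy).symm.trans (key z hz)

/-- the other edges do not touch the cluster -/
private theorem split53 {ω : Finset Edge} (hω : ω ⊆ edges D) {x : ℤ × ℤ}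
    {V : Finset (ℤ × ℤ)} {C : Finset Edge} (hV : clu D ω x = V) (hC : cle ω x = C) :
    C ∪ ω ∩ edges (D \ V) = ω := by
  subst hV hC
  ext e
  rw [Finset.mem_union, Finset.mem_inter, mem_cle53]
  constructor
  · rintro (h | h) <;> exact h.1
  · intro he
    have h1 := mem_edges.1 (hω he)
    by_cases h3 : Conn ω x e.1
    · exact Or.inl ⟨he, h3⟩
    · refine Or.inr ⟨he, mem_edges.2 ⟨Finset.mem_sdiff.2 ⟨h1.1, fun h => h3 (mem_clu53.1 h).2⟩,
        Finset.mem_sdiff.2 ⟨h1.2, fun h => h3 ?_⟩⟩⟩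
      exact (mem_clu53.1 h).2.trans (conn_edge he).symm

private theorem glue53 {x : ℤ × ℤ} {V : Finset (ℤ × ℤ)} {C ω₂ : Finset Edge} (hVD : V ⊆ D)
    (hx : x ∈ V) (hC : IsClu V C) (h2 : ω₂ ⊆ edges (D \ V)) :
    C ∪ ω₂ ⊆ edges D ∧ clu D (C ∪ ω₂) x = V ∧ cle (C ∪ ω₂) x = C ∧
      (C ∪ ω₂) ∩ edges (D \ V) = ω₂ := by
  have hin : ∀ y, Conn (C ∪ ω₂) x y → y ∈ V := by
    intro y h
    refine Conn.induct (S := (V : Set (ℤ × ℤ))) h hx fun e he => ?_
    rcases Finset.mem_union.1 he with h | h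
    · have := mem_edges.1 (hC.1 h)
      exact iff_of_true this.1 this.2
    · have := mem_edges.1 (h2 h)
      exact iff_of_false (fun h => (Finset.mem_sdiff.1 this.1).2 h)
        (fun h => (Finset.mem_sdiff.1 this.2).2 h)
  refine ⟨Finset.union_subset (hC.1.trans (edges_mono hVD))
    (h2.trans (edges_mono Finset.sdiff_subset)), ?_, ?_, ?_⟩
  · ext y
    rw [mem_clu53]
    constructor
    · rintro ⟨_, h⟩
      exact hin y h
    · intro hy
      exact ⟨hVD hy, (hC.2 x hx y hy).mono Finset.subset_union_left⟩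
  · ext e
    rw [mem_cle53, Finset.mem_union]
    constructor
    · rintro ⟨h | h, h'⟩
      · exact h
      · exact absurd (hin _ h') (Finset.mem_sdiff.1 (mem_edges.1 (h2 h)).1).2
    · intro h
      exact ⟨Or.inl h, (hC.2 x hx e.1 (mem_edges.1 (hC.1 h)).1).mono Finset.subset_union_left⟩
  · ext e
    rw [Finset.mem_inter, Finset.mem_union]
    constructor
    · rintro ⟨h | h, h'⟩
      · exact absurd (mem_edges.1 (hC.1 h)).1 (Finset.mem_sdiff.1 (mem_edges.1 h').1).2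
      · exact h
    · intro h
      exact ⟨Or.inr h, h2 h⟩

private theorem wt_glue53 {V : Finset (ℤ × ℤ)} (hVD : V ⊆ D) (hne : V.Nonempty)
    {C ω₂ : Finset Edge} (hC : IsClu V C) (h2 : ω₂ ⊆ edges (D \ V)) :
    wt q r D (C ∪ ω₂) = q * (∏ e ∈ C, r e) * wt q r (D \ V) ω₂ := by
  unfold wt
  have h1 : ncl D (C ∪ ω₂) = ncl V C + ncl (D \ V) ω₂ := by
    rw [← ncl_union Finset.disjoint_sdiff hC.1 h2, Finset.union_sdiff_of_subset hVD]
  have h3 : Disjoint C ω₂ := by
    rw [Finset.disjoint_left]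
    intro e he he'
    exact (Finset.mem_sdiff.1 (mem_edges.1 (h2 he')).1).2 (mem_edges.1 (hC.1 he)).1
  rw [h1, Finset.prod_union h3, pow_add, ncl_connected hC hne, pow_one]
  ring

open Classical in
private theorem cluster_sum53 {x : ℤ × ℤ} (hx : x ∈ D)
    (F : Finset (ℤ × ℤ) → Finset Edge → ℝ) :
    ∑ ω ∈ (edges D).powerset, wt q r D ω * F (clu D ω x) (cle ω x) =
      ∑ c ∈ clus D x, q * (∏ e ∈ c.2, r e) * Z q r (D \ c.1) * F c.1 c.2 := by
  rw [← Finset.sum_fiberwise_of_maps_to (t := clus D x)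
    (g := fun ω => (⟨clu D ω x, cle ω x⟩ : (_ : Finset (ℤ × ℤ)) × Finset Edge))]
  · refine Finset.sum_congr rfl fun c hc => ?_
    obtain ⟨V, C⟩ := c
    rw [mem_clus] at hc
    obtain ⟨hVD, hxV, hC⟩ := hc
    simp only at hVD hxV hC ⊢
    unfold Z
    rw [Finset.mul_sum, Finset.sum_mul]
    refine Finset.sum_nbij' (fun ω => ω ∩ edges (D \ V)) (fun ω₂ => C ∪ ω₂) ?_ ?_ ?_ ?_ ?_
    · intro ω _
      rw [Finset.mem_powerset]
      exact Finset.inter_subset_right
    · intro ω₂ h2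
      rw [Finset.mem_powerset] at h2
      have := glue53 hVD hxV hC h2
      rw [Finset.mem_filter, Finset.mem_powerset]
      refine ⟨this.1, ?_⟩
      rw [this.2.1, this.2.2.1]
    · intro ω hω
      rw [Finset.mem_filter, Finset.mem_powerset] at hω
      have h1 := congrArg Sigma.fst hω.2
      have h2 : cle ω x = C := by
        have h3 := hω.2
        rw [Sigma.mk.injEq] at h3
        exact eq_of_heq h3.2
      exact split53 hω.1 h1 h2
    · intro ω₂ h2
      rw [Finset.mem_powerset] at h2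
      exact (glue53 hVD hxV hC h2).2.2.2
    · intro ω hω
      rw [Finset.mem_filter, Finset.mem_powerset] at hω
      have h1 : clu D ω x = V := congrArg Sigma.fst hω.2
      have h2 : cle ω x = C := by
        have h3 := hω.2
        rw [Sigma.mk.injEq] at h3
        exact eq_of_heq h3.2
      have h3 := wt_glue53 (q := q) (r := r) hVD ⟨x, hxV⟩ hC
        (ω₂ := ω ∩ edges (D \ V)) Finset.inter_subset_right
      rw [split53 hω.1 h1 h2] at h3
      rw [h1, h2, h3]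
  · intro ω hω
    rw [Finset.mem_powerset] at hω
    rw [mem_clus]
    exact ⟨fun y hy => (mem_clu53.1 hy).1, mem_clu53.2 ⟨hx, Conn.refl _ _⟩, isClu53 hω⟩

theorem ex_cluster (hq : 0 < q) (hr : ∀ e, 0 ≤ r e) {x : ℤ × ℤ} (hx : x ∈ D)
    (F : Finset (ℤ × ℤ) → Finset Edge → ℝ) :
    ex q r D (fun ω => F (clu D ω x) (cle ω x)) =
      ∑ c ∈ clus D x, clwD q r D c.1 c.2 * F c.1 c.2 := by
  unfold ex clwD
  rw [cluster_sum53 hx F, Finset.sum_div]
  refine Finset.sum_congr rfl fun c _ => ?_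
  ring

theorem clwD_eq (hq : 0 < q) {V : Finset (ℤ × ℤ)} {C : Finset Edge} (hV : V ⊆ D)
    (hne : V.Nonempty) :
    clwD q r D V C = (∏ e ∈ C, r e) * Psi q r D V / q ^ (V.card - 1) := by
  unfold clwD Psi
  rw [Finset.inter_eq_left.2 hV]
  obtain ⟨n, hn⟩ : ∃ n, V.card = n + 1 := ⟨V.card - 1, by have := hne.card_pos; omega⟩
  rw [hn, Nat.add_sub_cancel, pow_succ]
  have h1 : q ^ n ≠ 0 := (pow_pos hq n).ne'
  rw [eq_div_iff h1]
  ring

open Classical in
theorem G_eq_sum (hq : 0 < q) (hr : ∀ e, 0 ≤ r e) {x y : ℤ × ℤ} (hx : x ∈ D) (hy : y ∈ D) :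
    G q r D x y = ∑ c ∈ (clus D x).filter (fun c => y ∈ c.1), clwD q r D c.1 c.2 := by
  have h1 := ex_cluster (r := r) hq hr hx (fun V _ => if y ∈ V then (1 : ℝ) else 0)
  have h2 : G q r D x y = ex q r D (fun ω => if y ∈ clu D ω x then (1 : ℝ) else 0) := by
    unfold G pr
    refine ex_congr fun ω _ => ?_
    by_cases h : Conn ω x y
    · rw [if_pos h, if_pos (mem_clu53.2 ⟨hy, h⟩)]
    · rw [if_neg h, if_neg (fun h' => h (mem_clu53.1 h').2)]
  rw [h2, h1, Finset.sum_filter]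
  refine Finset.sum_congr rfl fun c _ => ?_
  by_cases h : y ∈ c.1
  · rw [if_pos h, if_pos h, mul_one]
  · rw [if_neg h, if_neg h, mul_zero]

private theorem subset_box53 (D : Finset (ℤ × ℤ)) : ∃ N : ℕ, D ⊆ box N := by
  classical
  refine ⟨∑ p ∈ D, (p.1.natAbs + p.2.natAbs), fun p hp => ?_⟩
  have h := Finset.single_le_sum (f := fun p : ℤ × ℤ => p.1.natAbs + p.2.natAbs)
    (fun _ _ => Nat.zero_le _) hp
  unfold box
  rw [Finset.mem_product, Finset.mem_Icc, Finset.mem_Icc]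
  obtain ⟨M, hM⟩ : ∃ M, M = ∑ p ∈ D, (p.1.natAbs + p.2.natAbs) := ⟨_, rfl⟩
  rw [← hM] at h ⊢
  refine ⟨⟨?_, ?_⟩, ?_, ?_⟩ <;> omega

private theorem PsiI_le53 {ρ : ℝ} (hq : 1 ≤ q) (hρ : 0 ≤ ρ) (D V : Finset (ℤ × ℤ)) :
    PsiI q ρ V ≤ Psi q (hom ρ) D V := by
  have h0 : 0 < q := by linarith
  have hr : ∀ e, 0 ≤ hom ρ e := fun _ => hρ
  obtain ⟨N, hN⟩ := subset_box53 D
  have hb : BddBelow (Set.range fun N : ℕ => Psi q (hom ρ) (box N) V) :=
    ⟨0, by rintro _ ⟨n, rfl⟩; exact (Psi_pos h0 hr).le⟩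
  exact (ciInf_le hb N).trans (Psi_anti_D hq hr hN)

/-- In homogeneous domains the cluster weights are at least those of infinite volume. -/
theorem clw_le_clwD {ρ : ℝ} (hq : 1 ≤ q) (hρ : 0 ≤ ρ) {V : Finset (ℤ × ℤ)} {C : Finset Edge}
    (hV : V ⊆ D) (hne : V.Nonempty) : clw q ρ V C ≤ clwD q (hom ρ) D V C := by
  have h0 : 0 < q := by linarith
  rw [clwD_eq h0 hV hne]
  unfold clw
  have h1 : ∏ e ∈ C, hom ρ e = ρ ^ C.card := by
    unfold hom
    rw [Finset.prod_const]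
  rw [h1]
  exact div_le_div_of_nonneg_right
    (mul_le_mul_of_nonneg_left (PsiI_le53 hq hρ D V) (pow_nonneg hρ _)) (pow_pos h0 _).le

/-- With a weaker defect line and a cluster without edges of the line: still at least the homogeneous
infinite-volume weight. -/
theorem clw_le_clwD_dfc {ρ ρ' : ℝ} (hq : 1 ≤ q) (hρ' : 0 ≤ ρ') (hρ : ρ' ≤ ρ)
    {V : Finset (ℤ × ℤ)} {C : Finset Edge} (hV : V ⊆ D) (hne : V.Nonempty)
    (hC : ∀ e ∈ C, ¬ (e.2 = true ∧ e.1.2 = 0)) : clw q ρ V C ≤ clwD q (dfc ρ ρ') D V C := by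
  have h0 : 0 < q := by linarith
  have hρ0 : 0 ≤ ρ := hρ'.trans hρ
  rw [clwD_eq h0 hV hne]
  unfold clw
  have h1 : ∏ e ∈ C, dfc ρ ρ' e = ρ ^ C.card := by
    rw [← Finset.prod_const]
    refine Finset.prod_congr rfl fun e he => ?_
    unfold dfc
    rw [if_neg (hC e he)]
  have h2 : Psi q (hom ρ) D V ≤ Psi q (dfc ρ ρ') D V := by
    refine Psi_anti_r hq (fun e => ?_) (fun e => ?_)
    · unfold dfc
      split_ifs
      · exact hρ'
      · exact hρ0
    · unfold dfc hom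
      split_ifs
      · exact hρ
      · exact le_rfl
  rw [h1]
  exact div_le_div_of_nonneg_right
    (mul_le_mul_of_nonneg_left ((PsiI_le53 hq hρ0 D V).trans h2) (pow_nonneg hρ0 _))
    (pow_pos h0 _).le

end Pool.Helper49.FK
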