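import Mathlib
import Pool.Agent.Helper49.FK.Defs
import Pool.Agent.Helper49.FK.Comp
import Pool.Agent.Helper49.FK.Fkg

/-!
Project OZ.  Block FK-4: the two-point function in finite domains.

The indicator of a connection is increasing (`Conn.mono`), so all follows from `fkg`, `ex_mono_r`, `ex_mono_D`,
and `Conn.trans`.  Translations and the two reflections map `D` to `D.map _` and preserve the number of clusters
and the homogeneous weights (the edge `(x, b)` goes to an edge with the translated or reflected ends: for the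
reflection `y ↦ -y` the edge `(x, false) = {x, x + (0, 1)}` goes to `((x.1, -x.2 - 1), false)`).
* `pr_open_ge`, `pr_closed_ge`: by FKG it suffices to treat one edge; `P (e open) ≥ r / (r + q)` and
  `P (e closed) ≥ 1 / (1 + r)` since given the other edges the conditional odds of `e` are `r e` or `r e / q`.
-/

namespace Pool.Helper49.FK

variable {q : ℝ} {r r' : Edge → ℝ} {D D' : Finset (ℤ × ℤ)}

open Classical in
private theorem ind_mono {A : Finset Edge → Prop} (hA : ∀ ω ω', ω ⊆ ω' → A ω → A ω') :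
    Mono (fun ω => if A ω then (1 : ℝ) else 0) := by
  intro ω ω' h
  by_cases h1 : A ω
  · simp [h1, hA ω ω' h h1]
  · simp only [h1, if_false]
    split_ifs <;> norm_num

private theorem pr_nonneg' (hq : 0 < q) (hr : ∀ e, 0 ≤ r e) (A : Finset Edge → Prop) :
    0 ≤ pr q r D A := by
  classical
  unfold pr
  refine (ex_const (q := q) (r := r) (D := D) hq hr 0).ge.trans (ex_le hq hr fun ω _ => ?_)
  split_ifs <;> norm_num

private theorem pr_le_one' (hq : 0 < q) (hr : ∀ e, 0 ≤ r e) (A : Finset Edge → Prop) :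
    pr q r D A ≤ 1 := by
  classical
  unfold pr
  refine (ex_le hq hr fun ω _ => ?_).trans (ex_const (q := q) (r := r) (D := D) hq hr 1).le
  split_ifs <;> norm_num

theorem G_nonneg (hq : 0 < q) (hr : ∀ e, 0 ≤ r e) (x y : ℤ × ℤ) : 0 ≤ G q r D x y :=
  pr_nonneg' hq hr _

theorem G_le_one (hq : 0 < q) (hr : ∀ e, 0 ≤ r e) (x y : ℤ × ℤ) : G q r D x y ≤ 1 :=
  pr_le_one' hq hr _

theorem G_symm (x y : ℤ × ℤ) : G q r D x y = G q r D y x := by
  unfold G
  congr 1
  funext ω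
  exact propext ⟨Conn.symm, Conn.symm⟩

theorem G_mono_D (hq : 1 ≤ q) (hr : ∀ e, 0 ≤ r e) (h : D ⊆ D') (x y : ℤ × ℤ) :
    G q r D x y ≤ G q r D' x y :=
  ex_mono_D hq hr h (ind_mono fun _ _ h1 h2 => Conn.mono h1 h2)

theorem G_mono_r (hq : 1 ≤ q) (hr : ∀ e, 0 ≤ r e) (h : ∀ e, r e ≤ r' e) (x y : ℤ × ℤ) :
    G q r D x y ≤ G q r' D x y :=
  ex_mono_r hq hr h (ind_mono fun _ _ h1 h2 => Conn.mono h1 h2)

private theorem pr_fkg' (hq : 1 ≤ q) (hr : ∀ e, 0 ≤ r e) {A B : Finset Edge → Prop}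
    (hA : ∀ ω ω', ω ⊆ ω' → A ω → A ω') (hB : ∀ ω ω', ω ⊆ ω' → B ω → B ω') :
    pr q r D A * pr q r D B ≤ pr q r D (fun ω => A ω ∧ B ω) := by
  classical
  unfold pr
  refine (fkg hq hr (ind_mono hA) (ind_mono hB)).trans (le_of_eq ?_)
  refine ex_congr fun ω _ => ?_
  by_cases h1 : A ω <;> by_cases h2 : B ω <;> simp [h1, h2]

private theorem pr_fkg_dec (hq : 1 ≤ q) (hr : ∀ e, 0 ≤ r e) {A B : Finset Edge → Prop}
    (hA : ∀ ω ω', ω ⊆ ω' → A ω' → A ω) (hB : ∀ ω ω', ω ⊆ ω' → B ω' → B ω) :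
    pr q r D A * pr q r D B ≤ pr q r D (fun ω => A ω ∧ B ω) := by
  classical
  have hm : ∀ A : Finset Edge → Prop, (∀ ω ω', ω ⊆ ω' → A ω' → A ω) →
      Mono (fun ω => (-1) * (if A ω then (1 : ℝ) else 0)) := by
    intro A hA ω ω' h
    by_cases h1 : A ω'
    · simp [h1, hA ω ω' h h1]
    · simp only [h1, if_false]
      split_ifs <;> norm_num
  unfold pr
  have := fkg (D := D) hq hr (hm A hA) (hm B hB)
  rw [ex_const_mul, ex_const_mul] at this
  calc _ = (-1) * ex q r D (fun ω => if A ω then 1 else 0) *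
        ((-1) * ex q r D (fun ω => if B ω then 1 else 0)) := by ring
    _ ≤ _ := this
    _ = _ := by
      refine ex_congr fun ω _ => ?_
      by_cases h1 : A ω <;> by_cases h2 : B ω <;> simp [h1, h2]

private theorem pr_mono' (hq : 0 < q) (hr : ∀ e, 0 ≤ r e) {A B : Finset Edge → Prop}
    (h : ∀ ω, ω ⊆ edges D → A ω → B ω) : pr q r D A ≤ pr q r D B := by
  classical
  unfold pr
  refine ex_le hq hr fun ω hω => ?_
  by_cases h1 : A ω
  · simp [h1, h ω hω h1]
  · simp only [h1, if_false]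
    split_ifs <;> norm_num

theorem G_triangle (hq : 1 ≤ q) (hr : ∀ e, 0 ≤ r e) (x y z : ℤ × ℤ) :
    G q r D x y * G q r D y z ≤ G q r D x z := by
  unfold G
  refine (pr_fkg' hq hr (fun _ _ h1 h2 => Conn.mono h1 h2)
    (fun _ _ h1 h2 => Conn.mono h1 h2)).trans ?_
  exact pr_mono' (by linarith) hr fun ω _ h => h.1.trans h.2

theorem pr_conn_le (hq : 0 < q) (hr : ∀ e, 0 ≤ r e) (S V : Finset (ℤ × ℤ)) :
    pr q r D (fun ω => ∃ s ∈ S, ∃ v ∈ V, Conn ω s v) ≤ ∑ s ∈ S, ∑ v ∈ V, G q r D s v := by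
  classical
  unfold G pr
  simp_rw [← ex_sum]
  refine ex_le hq hr fun ω _ => ?_
  have hnn : ∀ s ∈ S, 0 ≤ ∑ v ∈ V, (if Conn ω s v then (1 : ℝ) else 0) :=
    fun s _ => Finset.sum_nonneg fun v _ => by split_ifs <;> norm_num
  split_ifs with h
  · obtain ⟨s, hs, v, hv, h⟩ := h
    refine le_trans ?_ (Finset.single_le_sum hnn hs)
    refine le_trans ?_ (Finset.single_le_sum (f := fun v => if Conn ω s v then (1 : ℝ) else 0)
      (fun v _ => by split_ifs <;> norm_num) hv)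
    simp [h]
  · exact Finset.sum_nonneg hnn

private theorem wt_insert (hq : 1 ≤ q) (hr : ∀ e, 0 ≤ r e) {ω : Finset Edge} {e : Edge}
    (he : e ∈ edges D) (hω : e ∉ ω) :
    r e * wt q r D ω ≤ q * wt q r D (insert e ω) ∧ wt q r D (insert e ω) ≤ r e * wt q r D ω := by
  have hP : 0 ≤ ∏ e ∈ ω, r e := Finset.prod_nonneg fun e _ => hr e
  have hq0 : 0 ≤ q := by linarith
  unfold wt
  rw [Finset.prod_insert hω]
  by_cases hc : Conn ω e.1 (tip e)
  · rw [ncl_insert_of_conn hc]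
    have h0 : 0 ≤ r e * (∏ e ∈ ω, r e) * q ^ ncl D ω := by
      have := hr e
      positivity
    constructor
    · nlinarith
    · exact le_of_eq (by ring)
  · rw [← ncl_insert_of_not_conn he hc, pow_succ]
    have h0 : 0 ≤ r e * (∏ e ∈ ω, r e) * q ^ ncl D (insert e ω) := by
      have := hr e
      positivity
    constructor
    · exact le_of_eq (by ring)
    · nlinarith

private theorem sum_pow {e : Edge} (he : e ∈ edges D) (g : Finset Edge → ℝ) :
    ∑ ω ∈ (edges D).powerset, g ω = ∑ ω ∈ ((edges D).erase e).powerset, g ω +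
      ∑ ω ∈ ((edges D).erase e).powerset, g (insert e ω) := by
  conv_lhs => rw [← Finset.insert_erase he]
  exact Finset.sum_powerset_insert (Finset.notMem_erase e _) g

private theorem notMem_of {e : Edge} {ω : Finset Edge} (h : ω ∈ ((edges D).erase e).powerset) :
    e ∉ ω := fun h' => Finset.notMem_erase e _ (Finset.mem_powerset.1 h h')

private theorem pr_open_eq {e : Edge} (he : e ∈ edges D) :
    pr q r D (fun ω => e ∈ ω) =
      (∑ ω ∈ ((edges D).erase e).powerset, wt q r D (insert e ω)) / Z q r D := by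
  unfold pr ex
  rw [sum_pow he]
  congr 1
  refine (congrArg₂ (· + ·) (Finset.sum_eq_zero fun ω hω => ?_)
    (Finset.sum_congr rfl fun ω hω => ?_)).trans (zero_add _)
  · simp [notMem_of hω]
  · simp

private theorem pr_closed_eq {e : Edge} (he : e ∈ edges D) :
    pr q r D (fun ω => e ∉ ω) =
      (∑ ω ∈ ((edges D).erase e).powerset, wt q r D ω) / Z q r D := by
  unfold pr ex
  rw [sum_pow he]
  congr 1
  refine (congrArg₂ (· + ·) (Finset.sum_congr rfl fun ω hω => ?_)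
    (Finset.sum_eq_zero fun ω hω => ?_)).trans (add_zero _)
  · simp [notMem_of hω]
  · simp

private theorem pr_open_one (hq : 1 ≤ q) (hr : ∀ e, 0 ≤ r e) {e : Edge} (he : e ∈ edges D) :
    r e / (r e + q) ≤ pr q r D (fun ω => e ∈ ω) := by
  have hq0 : 0 < q := by linarith
  have hZ : 0 < Z q r D := Z_pos hq0 hr
  rw [pr_open_eq he, div_le_div_iff₀ (by have := hr e; linarith) hZ]
  unfold Z
  rw [sum_pow he]
  have h3 : r e * ∑ ω ∈ ((edges D).erase e).powerset, wt q r D ω ≤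
      q * ∑ ω ∈ ((edges D).erase e).powerset, wt q r D (insert e ω) := by
    rw [Finset.mul_sum, Finset.mul_sum]
    exact Finset.sum_le_sum fun ω hω => (wt_insert hq hr he (notMem_of hω)).1
  nlinarith

private theorem pr_closed_one (hq : 1 ≤ q) (hr : ∀ e, 0 ≤ r e) (e : Edge) :
    (1 + r e)⁻¹ ≤ pr q r D (fun ω => e ∉ ω) := by
  have hq0 : 0 < q := by linarith
  have hZ : 0 < Z q r D := Z_pos hq0 hr
  have hre := hr e
  by_cases he : e ∈ edges D
  · rw [pr_closed_eq he, inv_eq_one_div, div_le_div_iff₀ (by linarith) hZ]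
    unfold Z
    rw [sum_pow he]
    have h3 : ∑ ω ∈ ((edges D).erase e).powerset, wt q r D (insert e ω) ≤
        r e * ∑ ω ∈ ((edges D).erase e).powerset, wt q r D ω := by
      rw [Finset.mul_sum]
      exact Finset.sum_le_sum fun ω hω => (wt_insert hq hr he (notMem_of hω)).2
    nlinarith
  · have h1 : (1 + r e)⁻¹ ≤ 1 := inv_le_one_of_one_le₀ (by linarith)
    refine h1.trans ?_
    unfold pr
    refine (ex_const (q := q) (r := r) (D := D) hq0 hr 1).ge.trans
      (ex_le hq0 hr fun ω hω => ?_)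
    have : e ∉ ω := fun h => he (hω h)
    simp [this]

theorem pr_open_ge (hq : 1 ≤ q) (hr : ∀ e, 0 ≤ r e) {F : Finset Edge} (hF : F ⊆ edges D) :
    ∏ e ∈ F, (r e / (r e + q)) ≤ pr q r D (fun ω => F ⊆ ω) := by
  classical
  have hq0 : 0 < q := by linarith
  induction F using Finset.induction_on with
  | empty =>
    rw [Finset.prod_empty]
    unfold pr
    exact (ex_const (q := q) (r := r) (D := D) hq0 hr 1).ge.trans
      (ex_le hq0 hr fun ω _ => by simp)
  | insert e F he ih =>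
    rw [Finset.prod_insert he]
    have h1 := pr_open_one (D := D) hq hr (hF (Finset.mem_insert_self e F))
    have h2 := ih ((Finset.subset_insert e F).trans hF)
    have h3 : pr q r D (fun ω => e ∈ ω) * pr q r D (fun ω => F ⊆ ω) ≤
        pr q r D (fun ω => e ∈ ω ∧ F ⊆ ω) :=
      pr_fkg' hq hr (fun _ _ h h' => h h') (fun _ _ h h' => h'.trans h)
    refine le_trans ?_ (h3.trans (pr_mono' hq0 hr fun ω _ h => ?_))
    · refine mul_le_mul h1 h2 (Finset.prod_nonneg fun e _ => ?_) (pr_nonneg' hq0 hr _)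
      have := hr e
      positivity
    · exact Finset.insert_subset h.1 h.2

theorem pr_closed_ge (hq : 1 ≤ q) (hr : ∀ e, 0 ≤ r e) (F : Finset Edge) :
    ∏ e ∈ F, (1 + r e)⁻¹ ≤ pr q r D (fun ω => Disjoint F ω) := by
  classical
  have hq0 : 0 < q := by linarith
  induction F using Finset.induction_on with
  | empty =>
    rw [Finset.prod_empty]
    unfold pr
    exact (ex_const (q := q) (r := r) (D := D) hq0 hr 1).ge.trans
      (ex_le hq0 hr fun ω _ => by simp)
  | insert e F he ih =>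
    rw [Finset.prod_insert he]
    have h1 := pr_closed_one (D := D) hq hr e
    have h3 : pr q r D (fun ω => e ∉ ω) * pr q r D (fun ω => Disjoint F ω) ≤
        pr q r D (fun ω => e ∉ ω ∧ Disjoint F ω) :=
      pr_fkg_dec hq hr (fun _ _ h h' h'' => h' (h h'')) (fun _ _ h h' => h'.mono_right h)
    refine le_trans ?_ (h3.trans (pr_mono' hq0 hr fun ω _ h => ?_))
    · refine mul_le_mul h1 ih (Finset.prod_nonneg fun e _ => ?_) (pr_nonneg' hq0 hr _)
      have := hr e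
      positivity
    · exact Finset.disjoint_insert_left.2 h

/-! ### Symmetries -/

/-- The map `τ` of the edges is induced by the map `σ` of the vertices. -/
private def Cpt (σ : ℤ × ℤ ≃ ℤ × ℤ) (τ : Edge ≃ Edge) : Prop :=
  ∀ e, ((τ e).1 = σ e.1 ∧ tip (τ e) = σ (tip e)) ∨ ((τ e).1 = σ (tip e) ∧ tip (τ e) = σ e.1)

private def isoS {σ : ℤ × ℤ ≃ ℤ × ℤ} {τ : Edge ≃ Edge} (h : Cpt σ τ) (ω : Finset Edge) :
    gr ω ≃g gr (ω.map τ.toEmbedding) where
  toEquiv := σ
  map_rel_iff' := by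
    intro a b
    constructor
    · rintro ⟨e', he', h'⟩
      obtain ⟨e, he, rfl⟩ := Finset.mem_map.1 he'
      refine ⟨e, he, ?_⟩
      simp only [Equiv.coe_toEmbedding] at h'
      rcases h e with ⟨h1, h2⟩ | ⟨h1, h2⟩ <;> rw [h1, h2] at h' <;>
        simp only [EmbeddingLike.apply_eq_iff_eq] at h' <;> tauto
    · rintro ⟨e, he, h'⟩
      refine ⟨τ e, Finset.mem_map.2 ⟨e, he, rfl⟩, ?_⟩
      rcases h e with ⟨h1, h2⟩ | ⟨h1, h2⟩ <;> rw [h1, h2] <;>
        simp only [EmbeddingLike.apply_eq_iff_eq] <;> tauto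

private theorem conn_map {σ : ℤ × ℤ ≃ ℤ × ℤ} {τ : Edge ≃ Edge} (h : Cpt σ τ) (ω : Finset Edge)
    (x y : ℤ × ℤ) : Conn (ω.map τ.toEmbedding) (σ x) (σ y) ↔ Conn ω x y :=
  (isoS h ω).reachable_iff

private theorem ncl_map {σ : ℤ × ℤ ≃ ℤ × ℤ} {τ : Edge ≃ Edge} (h : Cpt σ τ) (D : Finset (ℤ × ℤ))
    (ω : Finset Edge) : ncl (D.image σ) (ω.map τ.toEmbedding) = ncl D ω := by
  classical
  unfold ncl
  have h1 : ∀ x, (gr (ω.map τ.toEmbedding)).connectedComponentMk (σ x) =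
      (isoS h ω).connectedComponentEquiv ((gr ω).connectedComponentMk x) := fun x => rfl
  rw [Finset.image_image]
  have h2 : ((fun x => (gr (ω.map τ.toEmbedding)).connectedComponentMk x) ∘ σ) =
      (isoS h ω).connectedComponentEquiv ∘ (fun x => (gr ω).connectedComponentMk x) := by
    funext x
    exact h1 x
  rw [h2, ← Finset.image_image, Finset.card_image_of_injective _ (Equiv.injective _)]

private theorem edges_image {σ : ℤ × ℤ ≃ ℤ × ℤ} {τ : Edge ≃ Edge} (h : Cpt σ τ)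
    (D : Finset (ℤ × ℤ)) : edges (D.image σ) = (edges D).map τ.toEmbedding := by
  ext e'
  obtain ⟨e, rfl⟩ := τ.surjective e'
  have h1 : τ e ∈ (edges D).map τ.toEmbedding ↔ e ∈ edges D :=
    Finset.mem_map' τ.toEmbedding
  rw [h1, mem_edges, mem_edges]
  have h2 : ∀ x, σ x ∈ D.image σ ↔ x ∈ D := fun x => by simp
  rcases h e with ⟨h3, h4⟩ | ⟨h3, h4⟩ <;> rw [h3, h4, h2, h2]
  exact and_comm

private theorem wt_map {σ : ℤ × ℤ ≃ ℤ × ℤ} {τ : Edge ≃ Edge} (h : Cpt σ τ)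
    (hr : ∀ e, r' (τ e) = r e) (D : Finset (ℤ × ℤ)) (ω : Finset Edge) :
    wt q r' (D.image σ) (ω.map τ.toEmbedding) = wt q r D ω := by
  unfold wt
  rw [ncl_map h, Finset.prod_map]
  simp [hr]

private theorem sum_map {σ : ℤ × ℤ ≃ ℤ × ℤ} {τ : Edge ≃ Edge} (h : Cpt σ τ)
    (D : Finset (ℤ × ℤ)) (g : Finset Edge → ℝ) :
    ∑ ω ∈ (edges (D.image σ)).powerset, g ω =
      ∑ ω ∈ (edges D).powerset, g (ω.map τ.toEmbedding) := by
  symm
  refine Finset.sum_nbij' (fun ω => ω.map τ.toEmbedding) (fun ω => ω.map τ.symm.toEmbedding)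
    ?_ ?_ ?_ ?_ ?_
  · intro ω hω
    rw [Finset.mem_powerset] at hω ⊢
    rw [edges_image h]
    exact Finset.map_subset_map.2 hω
  · intro ω hω
    rw [Finset.mem_powerset] at hω ⊢
    rw [edges_image h] at hω
    intro e he
    obtain ⟨e', he', rfl⟩ := Finset.mem_map.1 he
    obtain ⟨e'', he'', rfl⟩ := Finset.mem_map.1 (hω he')
    simpa using he''
  · intro ω _
    ext e
    simp
  · intro ω _
    ext e
    simp
  · intro ω _
    rfl

private theorem Z_map {σ : ℤ × ℤ ≃ ℤ × ℤ} {τ : Edge ≃ Edge} (h : Cpt σ τ)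
    (hr : ∀ e, r' (τ e) = r e) (D : Finset (ℤ × ℤ)) : Z q r' (D.image σ) = Z q r D := by
  unfold Z
  rw [sum_map h]
  exact Finset.sum_congr rfl fun ω _ => wt_map h hr D ω

private theorem G_map {σ : ℤ × ℤ ≃ ℤ × ℤ} {τ : Edge ≃ Edge} (h : Cpt σ τ)
    (hr : ∀ e, r' (τ e) = r e) (D : Finset (ℤ × ℤ)) (x y : ℤ × ℤ) :
    G q r' (D.image σ) (σ x) (σ y) = G q r D x y := by
  unfold G pr ex
  rw [sum_map h, Z_map h hr]
  congr 1
  refine Finset.sum_congr rfl fun ω _ => ?_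
  rw [wt_map h hr]
  have := conn_map h ω x y
  by_cases hc : Conn ω x y
  · simp [hc, this.2 hc]
  · simp [hc, this]

/-- Translation of a vertex set. -/
def tr (v : ℤ × ℤ) (D : Finset (ℤ × ℤ)) : Finset (ℤ × ℤ) := D.map (addRightEmbedding v)

/-- Translation of the edges. -/
private def trE (v : ℤ × ℤ) : Edge ≃ Edge where
  toFun e := (e.1 + v, e.2)
  invFun e := (e.1 - v, e.2)
  left_inv e := by simp
  right_inv e := by simp

private theorem cpt_tr (v : ℤ × ℤ) : Cpt (Equiv.addRight v) (trE v) := by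
  rintro ⟨x, b⟩
  left
  refine ⟨rfl, ?_⟩
  cases b <;> simp [trE, tip, Prod.ext_iff, add_right_comm]

private theorem tr_eq (v : ℤ × ℤ) (D : Finset (ℤ × ℤ)) : tr v D = D.image (Equiv.addRight v) := by
  rw [tr, Finset.map_eq_image]
  rfl

theorem Z_tr (ρ : ℝ) (v : ℤ × ℤ) (D : Finset (ℤ × ℤ)) : Z q (hom ρ) (tr v D) = Z q (hom ρ) D := by
  rw [tr_eq]
  exact Z_map (cpt_tr v) (fun _ => rfl) D

theorem G_tr (ρ : ℝ) (v : ℤ × ℤ) (D : Finset (ℤ × ℤ)) (x y : ℤ × ℤ) :
    G q (hom ρ) (tr v D) (x + v) (y + v) = G q (hom ρ) D x y := by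
  rw [tr_eq]
  exact G_map (cpt_tr v) (fun _ => rfl) D x y

/-- The reflection in the horizontal axis. -/
def rfY (D : Finset (ℤ × ℤ)) : Finset (ℤ × ℤ) := D.image fun x => (x.1, -x.2)

/-- The reflection in the vertical axis. -/
def rfX (D : Finset (ℤ × ℤ)) : Finset (ℤ × ℤ) := D.image fun x => (-x.1, x.2)

private def sY : ℤ × ℤ ≃ ℤ × ℤ where
  toFun x := (x.1, -x.2)
  invFun x := (x.1, -x.2)
  left_inv x := by simp
  right_inv x := by simp

private def sX : ℤ × ℤ ≃ ℤ × ℤ where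
  toFun x := (-x.1, x.2)
  invFun x := (-x.1, x.2)
  left_inv x := by simp
  right_inv x := by simp

private def eY : Edge ≃ Edge where
  toFun e := ((e.1.1, if e.2 = true then -e.1.2 else -e.1.2 - 1), e.2)
  invFun e := ((e.1.1, if e.2 = true then -e.1.2 else -e.1.2 - 1), e.2)
  left_inv := by rintro ⟨⟨a, b⟩, c⟩; cases c <;> simp
  right_inv := by rintro ⟨⟨a, b⟩, c⟩; cases c <;> simp

private def eX : Edge ≃ Edge where
  toFun e := ((if e.2 = true then -e.1.1 - 1 else -e.1.1, e.1.2), e.2)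
  invFun e := ((if e.2 = true then -e.1.1 - 1 else -e.1.1, e.1.2), e.2)
  left_inv := by rintro ⟨⟨a, b⟩, c⟩; cases c <;> simp
  right_inv := by rintro ⟨⟨a, b⟩, c⟩; cases c <;> simp

private theorem cpt_Y : Cpt sY eY := by
  rintro ⟨⟨a, b⟩, c⟩
  cases c
  · right
    simp only [sY, eY, tip, Equiv.coe_fn_mk, Prod.mk.injEq, Bool.false_eq_true, if_false, true_and]
    constructor <;> ring
  · left
    simp [sY, eY, tip]

private theorem cpt_X : Cpt sX eX := by
  rintro ⟨⟨a, b⟩, c⟩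
  cases c
  · left
    simp [sX, eX, tip]
  · right
    simp only [sX, eX, tip, Equiv.coe_fn_mk, Prod.mk.injEq, if_true, and_true]
    constructor <;> ring

private theorem dfc_Y (ρ ρ' : ℝ) (e : Edge) : dfc ρ ρ' (eY e) = dfc ρ ρ' e := by
  obtain ⟨⟨a, b⟩, c⟩ := e
  cases c <;> simp [dfc, eY]

private theorem dfc_X (ρ ρ' : ℝ) (e : Edge) : dfc ρ ρ' (eX e) = dfc ρ ρ' e := by
  obtain ⟨⟨a, b⟩, c⟩ := e
  cases c <;> simp [dfc, eX]

theorem Z_rfY (ρ ρ' : ℝ) (D : Finset (ℤ × ℤ)) : Z q (dfc ρ ρ') (rfY D) = Z q (dfc ρ ρ') D :=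
  Z_map (σ := sY) cpt_Y (dfc_Y ρ ρ') D

theorem Z_rfX (ρ ρ' : ℝ) (D : Finset (ℤ × ℤ)) : Z q (dfc ρ ρ') (rfX D) = Z q (dfc ρ ρ') D :=
  Z_map (σ := sX) cpt_X (dfc_X ρ ρ') D

theorem G_rfY (ρ ρ' : ℝ) (D : Finset (ℤ × ℤ)) (x y : ℤ × ℤ) :
    G q (dfc ρ ρ') (rfY D) (x.1, -x.2) (y.1, -y.2) = G q (dfc ρ ρ') D x y :=
  G_map (σ := sY) cpt_Y (dfc_Y ρ ρ') D x y

theorem G_rfX (ρ ρ' : ℝ) (D : Finset (ℤ × ℤ)) (x y : ℤ × ℤ) :
    G q (dfc ρ ρ') (rfX D) (-x.1, x.2) (-y.1, y.2) = G q (dfc ρ ρ') D x y :=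
  G_map (σ := sX) cpt_X (dfc_X ρ ρ') D x y

theorem dfc_self (ρ : ℝ) : dfc ρ ρ = hom ρ := by
  funext e
  simp [dfc, hom]

end Pool.Helper49.FK
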