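import Mathlib
import Pool.Agent.Helper49.FK.Defs
import Pool.Agent.Helper49.FK.Comp
import Pool.Agent.Helper49.FK.Fkg
import Pool.Agent.Helper49.FK.PsiF
import Pool.Agent.Helper49.FK.Two

/-!
Project OZ.  Block FK-6: infinite volume (homogeneous).

`PsiI V` is the infimum (limit) of the decreasing sequence `Psi (box N) V`, `GI x y` the supremum (limit) of
the increasing sequence `G (box N) x y`.  Every finite `D` is contained in some `box N`.  All statements are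
limits of the finite ones; translation invariance since `tr v (box N) ⊆ box (N + |v|)`.
* `PsiI_decouple`: in `D' = D ∖ K`, by `Psi_ge` with `S ∖ K`:
  `pr (no connection) * Psi (D' ∖ S) V ≤ Psi D' V`, multiply by `Psi D K * Psi D (K ∪ S)` and use `Psi_union`;
  `pr D' (no connection) ≥ 1 - ∑ ∑ G D' ≥ 1 - ∑ ∑ GI` (`pr_conn_le`).  If the factor is negative the left-hand side is
  nonpositive.
* `PsiI_lower`: at most `4 |V|` edges touch `V`.
-/

namespace Pool.Helper49.FK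

open Filter Topology

variable {q ρ : ℝ}

private theorem hom_nonneg15 (hρ : 0 ≤ ρ) : ∀ e, 0 ≤ hom ρ e := fun _ => hρ

private theorem mem_box15 {N : ℕ} {x : ℤ × ℤ} :
    x ∈ box N ↔ (-(N : ℤ) ≤ x.1 ∧ x.1 ≤ N) ∧ (-(N : ℤ) ≤ x.2 ∧ x.2 ≤ N) := by
  unfold box
  rw [Finset.mem_product, Finset.mem_Icc, Finset.mem_Icc]

private theorem box_mono15 {N M : ℕ} (h : N ≤ M) : box N ⊆ box M := by
  intro x hx
  rw [mem_box15] at hx ⊢
  have : (N : ℤ) ≤ M := by exact_mod_cast h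
  omega

private theorem exists_box15 (D : Finset (ℤ × ℤ)) : ∃ N, D ⊆ box N := by
  induction D using Finset.induction_on with
  | empty => exact ⟨0, Finset.empty_subset _⟩
  | insert a D ha ih =>
    obtain ⟨N, hN⟩ := ih
    refine ⟨max N (a.1.natAbs + a.2.natAbs), ?_⟩
    rw [Finset.insert_subset_iff]
    refine ⟨?_, hN.trans (box_mono15 (le_max_left _ _))⟩
    refine box_mono15 (le_max_right _ _) ?_
    rw [mem_box15]
    omega

private theorem bdd_Psi15 (hq : 1 ≤ q) (hρ : 0 ≤ ρ) (V : Finset (ℤ × ℤ)) :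
    BddBelow (Set.range fun N => Psi q (hom ρ) (box N) V) := by
  refine ⟨0, ?_⟩
  rintro _ ⟨N, rfl⟩
  exact (Psi_pos (by linarith) (hom_nonneg15 hρ)).le

private theorem bdd_G15 (hq : 1 ≤ q) (hρ : 0 ≤ ρ) (x y : ℤ × ℤ) :
    BddAbove (Set.range fun N => G q (hom ρ) (box N) x y) := by
  refine ⟨1, ?_⟩
  rintro _ ⟨N, rfl⟩
  exact G_le_one (by linarith) (hom_nonneg15 hρ) x y

theorem PsiI_le (hq : 1 ≤ q) (hρ : 0 ≤ ρ) (D V : Finset (ℤ × ℤ)) :
    PsiI q ρ V ≤ Psi q (hom ρ) D V := by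
  obtain ⟨N, hN⟩ := exists_box15 D
  exact (ciInf_le (bdd_Psi15 hq hρ V) N).trans (Psi_anti_D hq (hom_nonneg15 hρ) hN)

theorem tendsto_Psi (hq : 1 ≤ q) (hρ : 0 ≤ ρ) (V : Finset (ℤ × ℤ)) :
    Tendsto (fun N => Psi q (hom ρ) (box N) V) atTop (𝓝 (PsiI q ρ V)) := by
  refine tendsto_atTop_ciInf ?_ (bdd_Psi15 hq hρ V)
  intro N M h
  exact Psi_anti_D hq (hom_nonneg15 hρ) (box_mono15 h)

private theorem card_touch15 (D V : Finset (ℤ × ℤ)) :
    ((edges D).filter (fun e => e.1 ∈ V ∨ tip e ∈ V)).card ≤ 4 * V.card := by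
  classical
  have hsub : (edges D).filter (fun e => e.1 ∈ V ∨ tip e ∈ V) ⊆
      (V ×ˢ (Finset.univ : Finset Bool)) ∪ (V ×ˢ (Finset.univ : Finset Bool)).image
        (fun p => ((if p.2 = true then (p.1.1 - 1, p.1.2) else (p.1.1, p.1.2 - 1)), p.2)) := by
    intro e he
    rw [Finset.mem_filter] at he
    rw [Finset.mem_union]
    rcases he.2 with h | h
    · left
      rw [Finset.mem_product]
      exact ⟨h, Finset.mem_univ _⟩
    · right
      rw [Finset.mem_image]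
      refine ⟨(tip e, e.2), ?_, ?_⟩
      · rw [Finset.mem_product]
        exact ⟨h, Finset.mem_univ _⟩
      · obtain ⟨⟨a, b⟩, c⟩ := e
        cases c <;> simp [tip]
  have h1 := Finset.card_le_card hsub
  have h2 := Finset.card_union_le (V ×ˢ (Finset.univ : Finset Bool))
    ((V ×ˢ (Finset.univ : Finset Bool)).image
        (fun p => ((if p.2 = true then (p.1.1 - 1, p.1.2) else (p.1.1, p.1.2 - 1)), p.2)))
  have h3 := Finset.card_image_le (s := V ×ˢ (Finset.univ : Finset Bool))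
    (f := fun p => ((if p.2 = true then (p.1.1 - 1, p.1.2) else (p.1.1, p.1.2 - 1)), p.2))
  have h4 : (V ×ˢ (Finset.univ : Finset Bool)).card = V.card * 2 := by
    rw [Finset.card_product]
    rfl
  omega

theorem PsiI_lower (hq : 1 ≤ q) (hρ : 0 ≤ ρ) (V : Finset (ℤ × ℤ)) :
    ((1 + ρ)⁻¹) ^ (4 * V.card) ≤ PsiI q ρ V := by
  refine le_ciInf fun N => ?_
  have h1 := Psi_lower (q := q) (r := hom ρ) (D := box N) (V := V) hq (hom_nonneg15 hρ)
  refine le_trans ?_ h1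
  have h2 : ∏ e ∈ (edges (box N)).filter (fun e => e.1 ∈ V ∨ tip e ∈ V), (1 + hom ρ e)⁻¹ =
      ((1 + ρ)⁻¹) ^ ((edges (box N)).filter (fun e => e.1 ∈ V ∨ tip e ∈ V)).card := by
    unfold hom
    rw [Finset.prod_const]
  rw [h2]
  exact pow_le_pow_of_le_one (by positivity) (inv_le_one_of_one_le₀ (by linarith))
    (card_touch15 _ _)

theorem PsiI_pos (hq : 1 ≤ q) (hρ : 0 ≤ ρ) (V : Finset (ℤ × ℤ)) : 0 < PsiI q ρ V :=
  lt_of_lt_of_le (by positivity) (PsiI_lower hq hρ V)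

theorem PsiI_le_one (hq : 1 ≤ q) (hρ : 0 ≤ ρ) (V : Finset (ℤ × ℤ)) : PsiI q ρ V ≤ 1 :=
  (PsiI_le hq hρ (box 0) V).trans (Psi_le_one (by linarith) (hom_nonneg15 hρ))

theorem PsiI_empty (hq : 1 ≤ q) (hρ : 0 ≤ ρ) : PsiI q ρ ∅ = 1 := by
  have h : ∀ N : ℕ, Psi q (hom ρ) (box N) ∅ = 1 := by
    intro N
    unfold Psi
    rw [Finset.empty_inter, Finset.card_empty, pow_zero, one_mul, Finset.sdiff_empty]
    exact div_self (Z_pos (by linarith) (hom_nonneg15 hρ)).ne'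
  unfold PsiI
  simp only [h]
  exact ciInf_const

theorem PsiI_anti (hq : 1 ≤ q) (hρ : 0 ≤ ρ) {V V' : Finset (ℤ × ℤ)} (h : V ⊆ V') :
    PsiI q ρ V' ≤ PsiI q ρ V :=
  le_of_tendsto_of_tendsto' (tendsto_Psi hq hρ V') (tendsto_Psi hq hρ V)
    fun _ => Psi_anti_V (by linarith) (hom_nonneg15 hρ) h

theorem PsiI_super (hq : 1 ≤ q) (hρ : 0 ≤ ρ) (S V : Finset (ℤ × ℤ)) :
    PsiI q ρ S * PsiI q ρ V ≤ PsiI q ρ (S ∪ V) :=
  le_of_tendsto_of_tendsto' ((tendsto_Psi hq hρ S).mul (tendsto_Psi hq hρ V))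
    (tendsto_Psi hq hρ (S ∪ V)) fun _ => Psi_super hq (hom_nonneg15 hρ)

/-- Conditional probabilities increase with the condition: log-supermodularity. -/
theorem PsiI_super' (hq : 1 ≤ q) (hρ : 0 ≤ ρ) (K S V : Finset (ℤ × ℤ)) :
    PsiI q ρ (K ∪ S) * PsiI q ρ (K ∪ V) ≤ PsiI q ρ (K ∪ S ∪ V) * PsiI q ρ K := by
  refine le_of_tendsto_of_tendsto' ((tendsto_Psi hq hρ (K ∪ S)).mul (tendsto_Psi hq hρ (K ∪ V)))
    ((tendsto_Psi hq hρ (K ∪ S ∪ V)).mul (tendsto_Psi hq hρ K)) fun N => ?_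
  have hq0 : 0 < q := by linarith
  have hr := hom_nonneg15 hρ
  have h1 := Psi_union (D := box N) (S := K) (V := S) hq0 hr
  have h2 := Psi_union (D := box N) (S := K) (V := V) hq0 hr
  have h3 := Psi_union (D := box N) (S := K) (V := S ∪ V) hq0 hr
  rw [← Finset.union_assoc] at h3
  have h4 := Psi_super (D := box N \ K) (S := S) (V := V) hq hr
  have h5 : 0 < Psi q (hom ρ) (box N) K := Psi_pos hq0 hr
  show Psi q (hom ρ) (box N) (K ∪ S) * Psi q (hom ρ) (box N) (K ∪ V) ≤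
    Psi q (hom ρ) (box N) (K ∪ S ∪ V) * Psi q (hom ρ) (box N) K
  rw [h1, h2, h3]
  calc Psi q (hom ρ) (box N) K * Psi q (hom ρ) (box N \ K) S *
        (Psi q (hom ρ) (box N) K * Psi q (hom ρ) (box N \ K) V) =
      Psi q (hom ρ) (box N) K * (Psi q (hom ρ) (box N \ K) S * Psi q (hom ρ) (box N \ K) V) *
        Psi q (hom ρ) (box N) K := by ring
    _ ≤ _ := mul_le_mul_of_nonneg_right (mul_le_mul_of_nonneg_left h4 h5.le) h5.le

private theorem Psi_tr15 (v : ℤ × ℤ) (D V : Finset (ℤ × ℤ)) :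
    Psi q (hom ρ) (tr v D) (tr v V) = Psi q (hom ρ) D V := by
  unfold Psi
  have h1 : tr v V ∩ tr v D = tr v (V ∩ D) := by
    unfold tr
    rw [Finset.map_inter]
  have h2 : tr v D \ tr v V = tr v (D \ V) := by
    unfold tr
    ext x
    simp only [Finset.mem_sdiff, Finset.mem_map, addRightEmbedding_apply]
    constructor
    · rintro ⟨⟨a, ha, rfl⟩, h⟩
      exact ⟨a, ⟨ha, fun hV => h ⟨a, hV, rfl⟩⟩, rfl⟩
    · rintro ⟨a, ⟨ha, hV⟩, rfl⟩
      refine ⟨⟨a, ha, rfl⟩, ?_⟩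
      rintro ⟨b, hb, hab⟩
      rw [add_left_injective v hab] at hb
      exact hV hb
  rw [h1, h2, Z_tr, Z_tr]
  congr 3
  unfold tr
  rw [Finset.card_map]

private theorem tr_tr15 (v : ℤ × ℤ) (V : Finset (ℤ × ℤ)) : tr (-v) (tr v V) = V := by
  unfold tr
  rw [Finset.map_map]
  convert Finset.map_refl
  ext x <;> simp

private theorem PsiI_tr_le15 (hq : 1 ≤ q) (hρ : 0 ≤ ρ) (v : ℤ × ℤ) (V : Finset (ℤ × ℤ)) :
    PsiI q ρ (tr v V) ≤ PsiI q ρ V := by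
  refine le_ciInf fun N => ?_
  rw [← Psi_tr15 (ρ := ρ) v (box N) V]
  exact PsiI_le hq hρ _ _

theorem PsiI_tr (hq : 1 ≤ q) (hρ : 0 ≤ ρ) (v : ℤ × ℤ) (V : Finset (ℤ × ℤ)) :
    PsiI q ρ (tr v V) = PsiI q ρ V := by
  refine le_antisymm (PsiI_tr_le15 hq hρ v V) ?_
  have h := PsiI_tr_le15 hq hρ (-v) (tr v V)
  rwa [tr_tr15] at h

private theorem rfY_inj15 : Function.Injective fun x : ℤ × ℤ => (x.1, -x.2) := by
  rintro ⟨a, b⟩ ⟨c, d⟩ h
  simp only [Prod.mk.injEq, neg_inj] at h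
  rw [h.1, h.2]

private theorem rfX_inj15 : Function.Injective fun x : ℤ × ℤ => (-x.1, x.2) := by
  rintro ⟨a, b⟩ ⟨c, d⟩ h
  simp only [Prod.mk.injEq, neg_inj] at h
  rw [h.1, h.2]

private theorem rfY_box15 (N : ℕ) : rfY (box N) = box N := by
  ext x
  unfold rfY
  rw [Finset.mem_image, mem_box15]
  constructor
  · rintro ⟨a, ha, rfl⟩
    rw [mem_box15] at ha
    dsimp only
    omega
  · intro h
    refine ⟨(x.1, -x.2), ?_, ?_⟩
    · rw [mem_box15]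
      dsimp only
      omega
    · simp

private theorem rfX_box15 (N : ℕ) : rfX (box N) = box N := by
  ext x
  unfold rfX
  rw [Finset.mem_image, mem_box15]
  constructor
  · rintro ⟨a, ha, rfl⟩
    rw [mem_box15] at ha
    dsimp only
    omega
  · intro h
    refine ⟨(-x.1, x.2), ?_, ?_⟩
    · rw [mem_box15]
      dsimp only
      omega
    · simp

private theorem Psi_rfY15 (D V : Finset (ℤ × ℤ)) :
    Psi q (hom ρ) (rfY D) (rfY V) = Psi q (hom ρ) D V := by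
  have hZ : ∀ D : Finset (ℤ × ℤ), Z q (hom ρ) (rfY D) = Z q (hom ρ) D := by
    intro D
    have := Z_rfY (q := q) ρ ρ D
    rwa [dfc_self] at this
  unfold Psi
  have h1 : rfY V ∩ rfY D = rfY (V ∩ D) := by
    unfold rfY
    rw [Finset.image_inter _ _ rfY_inj15]
  have h2 : rfY D \ rfY V = rfY (D \ V) := by
    unfold rfY
    rw [Finset.image_sdiff _ _ rfY_inj15]
  rw [h1, h2, hZ, hZ]
  congr 3
  unfold rfY
  rw [Finset.card_image_of_injective _ rfY_inj15]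

private theorem Psi_rfX15 (D V : Finset (ℤ × ℤ)) :
    Psi q (hom ρ) (rfX D) (rfX V) = Psi q (hom ρ) D V := by
  have hZ : ∀ D : Finset (ℤ × ℤ), Z q (hom ρ) (rfX D) = Z q (hom ρ) D := by
    intro D
    have := Z_rfX (q := q) ρ ρ D
    rwa [dfc_self] at this
  unfold Psi
  have h1 : rfX V ∩ rfX D = rfX (V ∩ D) := by
    unfold rfX
    rw [Finset.image_inter _ _ rfX_inj15]
  have h2 : rfX D \ rfX V = rfX (D \ V) := by
    unfold rfX
    rw [Finset.image_sdiff _ _ rfX_inj15]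
  rw [h1, h2, hZ, hZ]
  congr 3
  unfold rfX
  rw [Finset.card_image_of_injective _ rfX_inj15]

theorem PsiI_rfY (hq : 1 ≤ q) (hρ : 0 ≤ ρ) (V : Finset (ℤ × ℤ)) :
    PsiI q ρ (rfY V) = PsiI q ρ V := by
  unfold PsiI
  refine congrArg iInf (funext fun N => ?_)
  have h := Psi_rfY15 (q := q) (ρ := ρ) (box N) V
  rwa [rfY_box15] at h

theorem PsiI_rfX (hq : 1 ≤ q) (hρ : 0 ≤ ρ) (V : Finset (ℤ × ℤ)) :
    PsiI q ρ (rfX V) = PsiI q ρ V := by
  unfold PsiI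
  refine congrArg iInf (funext fun N => ?_)
  have h := Psi_rfX15 (q := q) (ρ := ρ) (box N) V
  rwa [rfX_box15] at h

theorem G_le_GI (hq : 1 ≤ q) (hρ : 0 ≤ ρ) (D : Finset (ℤ × ℤ)) (x y : ℤ × ℤ) :
    G q (hom ρ) D x y ≤ GI q ρ x y := by
  obtain ⟨N, hN⟩ := exists_box15 D
  exact (G_mono_D hq (hom_nonneg15 hρ) hN x y).trans (le_ciSup (bdd_G15 hq hρ x y) N)

theorem tendsto_G (hq : 1 ≤ q) (hρ : 0 ≤ ρ) (x y : ℤ × ℤ) :
    Tendsto (fun N => G q (hom ρ) (box N) x y) atTop (𝓝 (GI q ρ x y)) := by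
  refine tendsto_atTop_ciSup ?_ (bdd_G15 hq hρ x y)
  intro N M h
  exact G_mono_D hq (hom_nonneg15 hρ) (box_mono15 h) x y

theorem GI_nonneg (hq : 1 ≤ q) (hρ : 0 ≤ ρ) (x y : ℤ × ℤ) : 0 ≤ GI q ρ x y :=
  (G_nonneg (by linarith) (hom_nonneg15 hρ) x y).trans (G_le_GI hq hρ (box 0) x y)

theorem GI_le_one (hq : 1 ≤ q) (hρ : 0 ≤ ρ) (x y : ℤ × ℤ) : GI q ρ x y ≤ 1 :=
  ciSup_le fun _ => G_le_one (by linarith) (hom_nonneg15 hρ) x y

theorem GI_self (hq : 1 ≤ q) (hρ : 0 ≤ ρ) (x : ℤ × ℤ) : GI q ρ x x = 1 := by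
  have h : ∀ N : ℕ, G q (hom ρ) (box N) x x = 1 := by
    intro N
    unfold G pr
    refine (ex_congr (g := fun _ => 1) fun ω _ => ?_).trans
      (ex_const (by linarith) (hom_nonneg15 hρ) 1)
    rw [if_pos (Conn.refl ω x)]
  unfold GI
  simp only [h]
  exact ciSup_const

theorem GI_symm (x y : ℤ × ℤ) : GI q ρ x y = GI q ρ y x := by
  unfold GI
  exact congrArg iSup (funext fun N => G_symm x y)

theorem GI_triangle (hq : 1 ≤ q) (hρ : 0 ≤ ρ) (x y z : ℤ × ℤ) :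
    GI q ρ x y * GI q ρ y z ≤ GI q ρ x z :=
  le_of_tendsto_of_tendsto' ((tendsto_G hq hρ x y).mul (tendsto_G hq hρ y z))
    (tendsto_G hq hρ x z) fun _ => G_triangle hq (hom_nonneg15 hρ) x y z

private theorem GI_tr_le15 (hq : 1 ≤ q) (hρ : 0 ≤ ρ) (v x y : ℤ × ℤ) :
    GI q ρ x y ≤ GI q ρ (x + v) (y + v) := by
  refine ciSup_le fun N => ?_
  rw [← G_tr ρ v (box N) x y]
  exact G_le_GI hq hρ _ _ _

theorem GI_tr (hq : 1 ≤ q) (hρ : 0 ≤ ρ) (v x y : ℤ × ℤ) :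
    GI q ρ (x + v) (y + v) = GI q ρ x y := by
  refine le_antisymm ?_ (GI_tr_le15 hq hρ v x y)
  have h := GI_tr_le15 hq hρ (-v) (x + v) (y + v)
  rwa [add_neg_cancel_right, add_neg_cancel_right] at h

theorem GI_rfY (hq : 1 ≤ q) (hρ : 0 ≤ ρ) (x y : ℤ × ℤ) :
    GI q ρ (x.1, -x.2) (y.1, -y.2) = GI q ρ x y := by
  unfold GI
  refine congrArg iSup (funext fun N => ?_)
  have h := G_rfY (q := q) ρ ρ (box N) x y
  rwa [rfY_box15, dfc_self] at h

theorem GI_rfX (hq : 1 ≤ q) (hρ : 0 ≤ ρ) (x y : ℤ × ℤ) :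
    GI q ρ (-x.1, x.2) (-y.1, y.2) = GI q ρ x y := by
  unfold GI
  refine congrArg iSup (funext fun N => ?_)
  have h := G_rfX (q := q) ρ ρ (box N) x y
  rwa [rfX_box15, dfc_self] at h

theorem GI_edge (hq : 1 ≤ q) (hρ : 0 ≤ ρ) (e : Edge) : ρ / (ρ + q) ≤ GI q ρ e.1 (tip e) := by
  have hF : ({e} : Finset Edge) ⊆ edges {e.1, tip e} := by
    rw [Finset.singleton_subset_iff, mem_edges]
    simp
  have h1 := pr_open_ge (q := q) (r := hom ρ) hq (hom_nonneg15 hρ) hF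
  rw [Finset.prod_singleton] at h1
  refine le_trans h1 (le_trans ?_ (G_le_GI hq hρ {e.1, tip e} e.1 (tip e)))
  unfold G pr
  refine ex_le (by linarith) (hom_nonneg15 hρ) fun ω _ => ?_
  by_cases h : ({e} : Finset Edge) ⊆ ω
  · rw [if_pos h, if_pos (conn_edge (Finset.singleton_subset_iff.1 h))]
  · rw [if_neg h]
    split_ifs <;> norm_num

private theorem decouple15 (hq : 1 ≤ q) (hρ : 0 ≤ ρ) (D K S V : Finset (ℤ × ℤ)) (hS : S ⊆ D) :
    Psi q (hom ρ) D (K ∪ S ∪ V) * Psi q (hom ρ) D K * (1 - ∑ s ∈ S, ∑ v ∈ V, GI q ρ s v) ≤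
      Psi q (hom ρ) D (K ∪ S) * Psi q (hom ρ) D (K ∪ V) := by
  classical
  have hq0 : 0 < q := by linarith
  have hr := hom_nonneg15 (ρ := ρ) hρ
  have h1 := Psi_union (D := D) (S := K ∪ S) (V := V) hq0 hr
  have h2 := Psi_union (D := D) (S := K) (V := V) hq0 hr
  have hsub : S \ K ⊆ D \ K := Finset.sdiff_subset_sdiff hS le_rfl
  have h3 := Psi_ge (q := q) (r := hom ρ) (D := D \ K) (S := S \ K) (V := V) hq hr hsub
  have hset : (D \ K) \ (S \ K) = D \ (K ∪ S) := by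
    ext x
    simp only [Finset.mem_sdiff, Finset.mem_union]
    tauto
  rw [hset] at h3
  have h4 := pr_conn_le (q := q) (r := hom ρ) (D := D \ K) hq0 hr (S \ K) V
  have h5 : pr q (hom ρ) (D \ K) (fun ω => ∀ s ∈ S \ K, ∀ v ∈ V, ¬ Conn ω s v) +
      pr q (hom ρ) (D \ K) (fun ω => ∃ s ∈ S \ K, ∃ v ∈ V, Conn ω s v) = 1 := by
    unfold pr
    rw [← ex_add]
    refine (ex_congr (g := fun _ => 1) fun ω _ => ?_).trans (ex_const hq0 hr 1)
    by_cases h : ∃ s ∈ S \ K, ∃ v ∈ V, Conn ω s v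
    · have h' : ¬ ∀ s ∈ S \ K, ∀ v ∈ V, ¬ Conn ω s v := by
        push Not
        exact h
      rw [if_pos h, if_neg h', zero_add]
    · have h' : ∀ s ∈ S \ K, ∀ v ∈ V, ¬ Conn ω s v := by
        push Not at h
        exact h
      rw [if_neg h, if_pos h', add_zero]
  have h6 : ∑ s ∈ S \ K, ∑ v ∈ V, G q (hom ρ) (D \ K) s v ≤ ∑ s ∈ S, ∑ v ∈ V, GI q ρ s v := by
    calc _ ≤ ∑ s ∈ S \ K, ∑ v ∈ V, GI q ρ s v :=
          Finset.sum_le_sum fun s _ => Finset.sum_le_sum fun v _ => G_le_GI hq hρ _ _ _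
      _ ≤ _ := Finset.sum_le_sum_of_subset_of_nonneg Finset.sdiff_subset
          fun s _ _ => Finset.sum_nonneg fun v _ => GI_nonneg hq hρ s v
  have h7 : 0 < Psi q (hom ρ) D K := Psi_pos hq0 hr
  have h8 : 0 < Psi q (hom ρ) D (K ∪ S) := Psi_pos hq0 hr
  have h9 : 0 < Psi q (hom ρ) (D \ (K ∪ S)) V := Psi_pos hq0 hr
  have h10 : Psi q (hom ρ) (D \ (K ∪ S)) V * (1 - ∑ s ∈ S, ∑ v ∈ V, GI q ρ s v) ≤
      Psi q (hom ρ) (D \ K) V := by
    refine le_trans ?_ h3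
    rw [mul_comm]
    refine mul_le_mul_of_nonneg_right ?_ h9.le
    linarith
  rw [h1, h2]
  calc Psi q (hom ρ) D (K ∪ S) * Psi q (hom ρ) (D \ (K ∪ S)) V * Psi q (hom ρ) D K *
        (1 - ∑ s ∈ S, ∑ v ∈ V, GI q ρ s v) =
      (Psi q (hom ρ) D (K ∪ S) * Psi q (hom ρ) D K) *
        (Psi q (hom ρ) (D \ (K ∪ S)) V * (1 - ∑ s ∈ S, ∑ v ∈ V, GI q ρ s v)) := by ring
    _ ≤ (Psi q (hom ρ) D (K ∪ S) * Psi q (hom ρ) D K) * Psi q (hom ρ) (D \ K) V :=
        mul_le_mul_of_nonneg_left h10 (by positivity)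
    _ = _ := by ring

theorem PsiI_decouple (hq : 1 ≤ q) (hρ : 0 ≤ ρ) (K S V : Finset (ℤ × ℤ)) :
    PsiI q ρ (K ∪ S ∪ V) * PsiI q ρ K * (1 - ∑ s ∈ S, ∑ v ∈ V, GI q ρ s v) ≤
      PsiI q ρ (K ∪ S) * PsiI q ρ (K ∪ V) := by
  obtain ⟨N, hN⟩ := exists_box15 S
  refine le_of_tendsto_of_tendsto
    (((tendsto_Psi hq hρ (K ∪ S ∪ V)).mul (tendsto_Psi hq hρ K)).mul_const _)
    ((tendsto_Psi hq hρ (K ∪ S)).mul (tendsto_Psi hq hρ (K ∪ V))) ?_
  rw [Filter.EventuallyLE, eventually_atTop]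
  exact ⟨N, fun M hM => decouple15 hq hρ (box M) K S V (hN.trans (box_mono15 hM))⟩

end Pool.Helper49.FK
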