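import Mathlib
import Pool.Agent.Helper49.FK.Defs
import Pool.Agent.Helper49.FK.Comp
import Pool.Agent.Helper49.FK.Fkg
import Pool.Agent.Helper49.FK.Two
import Pool.Agent.Helper49.FK.Inf
import Pool.Agent.Helper49.FK.Cond

/-!
Project OZ.  Block FK-10: consequences of exponential decay with wired boundary condition.

* `ExpW.arm`: let `D' ⊇ D ∪ bx x (n + 1)` be a box and `F' = edges D' ∖ edges (bx x n)`.  By `prW_mono` the left-hand
  side is at most `prW q (hom ρ) D' F' (Arm n x)`.  Given that all edges of `F'` are open the law of the edges of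
  `bx x n` is the same as in `bx x (n + 1)` given that the ring is open (all vertices of `D'` outside of
  `bx x n` and the vertices of its boundary are joined outside in both cases: `ring` is connected and touches all
  boundary vertices; so the numbers of clusters differ by a constant), and translations preserve everything.
  The constant is that of `ExpW`.
* `ExpW.decay`: `Conn ω (0,0) y` with `ω ⊆ edges (box N)` and `n = max |y.1| |y.2|` implies `Arm n (0,0) ω`; use
  `ExpW.arm` with `F = ∅` and `n ≥ (|y.1| + |y.2|) / 2`.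
-/

namespace Pool.Helper49.FK

variable {q ρ : ℝ}

private theorem mem_bx76 {x y : ℤ × ℤ} {n : ℕ} : y ∈ bx x n ↔
    (x.1 - n ≤ y.1 ∧ y.1 ≤ x.1 + n) ∧ (x.2 - n ≤ y.2 ∧ y.2 ≤ x.2 + n) := by
  simp only [bx, Finset.mem_product, Finset.mem_Icc]

private theorem mem_box76 {y : ℤ × ℤ} {n : ℕ} : y ∈ box n ↔
    (-(n : ℤ) ≤ y.1 ∧ y.1 ≤ n) ∧ (-(n : ℤ) ≤ y.2 ∧ y.2 ≤ n) := by
  simp only [box, Finset.mem_product, Finset.mem_Icc]

private theorem bx_zero76 (n : ℕ) : bx (0, 0) n = box n := by
  ext y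
  rw [mem_bx76, mem_box76]
  simp

private theorem tip_cases76 (e : Edge) :
    ((tip e).1 = e.1.1 + 1 ∧ (tip e).2 = e.1.2) ∨ ((tip e).1 = e.1.1 ∧ (tip e).2 = e.1.2 + 1) := by
  unfold tip
  split_ifs
  · left
    exact ⟨rfl, rfl⟩
  · right
    exact ⟨rfl, rfl⟩

theorem arm_incr (n : ℕ) (x : ℤ × ℤ) : Incr (Arm n x) := by
  rintro ω ω' h ⟨y, hy, h1, h2⟩
  exact ⟨y, hy, h1, h2.mono (Finset.inter_subset_inter_right h)⟩

theorem arm_dep (n : ℕ) (x : ℤ × ℤ) : Dep (edges (bx x n)) (Arm n x) := by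
  intro ω
  unfold Arm
  rw [Finset.inter_assoc, Finset.inter_self]

/-- A connection from `x` to a point at distance at least `n` contains an arm. -/
theorem arm_of_conn {ω : Finset Edge} {x y : ℤ × ℤ} {n : ℕ} (h : Conn ω x y)
    (hn : (n : ℤ) ≤ max |y.1 - x.1| |y.2 - x.2|) : Arm n x ω := by
  by_contra hA
  have hlt : ∀ z : ℤ × ℤ, Conn (ω ∩ edges (bx x n)) x z → |z.1 - x.1| < n ∧ |z.2 - x.2| < n := by
    intro z hz
    have hz' : z ∈ bx x n := hz.mem Finset.inter_subset_right (by
      rw [mem_bx76]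
      omega)
    have h2 := mem_bx76.1 hz'
    constructor
    · refine lt_of_le_of_ne (abs_le.2 ⟨by omega, by omega⟩) fun h3 => hA ⟨z, hz', Or.inl h3, hz⟩
    · refine lt_of_le_of_ne (abs_le.2 ⟨by omega, by omega⟩) fun h3 => hA ⟨z, hz', Or.inr h3, hz⟩
  have key : y ∈ {z | Conn (ω ∩ edges (bx x n)) x z} := by
    refine h.induct (Conn.refl _ _) fun e he => ?_
    have hc := tip_cases76 e
    constructor
    · intro h1
      have h2 := hlt _ h1
      rw [abs_lt, abs_lt] at h2
      have he' : e ∈ edges (bx x n) := by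
        rw [mem_edges, mem_bx76, mem_bx76]
        omega
      exact h1.trans (conn_edge (Finset.mem_inter.2 ⟨he, he'⟩))
    · intro h1
      have h2 := hlt _ h1
      rw [abs_lt, abs_lt] at h2
      have he' : e ∈ edges (bx x n) := by
        rw [mem_edges, mem_bx76, mem_bx76]
        omega
      exact h1.trans (conn_edge (Finset.mem_inter.2 ⟨he, he'⟩)).symm
  have h3 := hlt y key
  exact absurd hn (not_le.2 (max_lt h3.1 h3.2))

private theorem card_image_le76 {α β γ : Type*} [DecidableEq β] [DecidableEq γ] (D : Finset α)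
    (f : α → β) (g : α → γ) (h : ∀ z ∈ D, ∀ w ∈ D, f z = f w → g z = g w) :
    (D.image g).card ≤ (D.image f).card := by
  classical
  rcases D.eq_empty_or_nonempty with rfl | ⟨a, ha⟩
  · simp
  obtain ⟨k, hk⟩ : ∃ k : β → γ, ∀ z ∈ D, k (f z) = g z := by
    refine ⟨fun c => if hc : ∃ z ∈ D, f z = c then g hc.choose else g a, fun z hz => ?_⟩
    have hc : ∃ w ∈ D, f w = f z := ⟨z, hz, rfl⟩
    simp only [dif_pos hc]
    exact h _ hc.choose_spec.1 _ hz hc.choose_spec.2
  have e : D.image g = (D.image f).image k := by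
    rw [Finset.image_image]
    exact Finset.image_congr (fun z hz => (hk z hz).symm)
  rw [e]
  exact Finset.card_image_le

private theorem ncl_eq76 {D D' : Finset (ℤ × ℤ)} {ω ω' : Finset Edge} (φ : ℤ × ℤ → ℤ × ℤ)
    (h1 : ∀ z ∈ D, φ z ∈ D') (h2 : ∀ z ∈ D, ∀ w ∈ D, Conn ω z w ↔ Conn ω' (φ z) (φ w))
    (h3 : ∀ z' ∈ D', ∃ z ∈ D, Conn ω' (φ z) z') : ncl D ω = ncl D' ω' := by
  classical
  have e1 : (D'.image fun x => (gr ω').connectedComponentMk x) =
      D.image fun x => (gr ω').connectedComponentMk (φ x) := by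
    ext c
    rw [Finset.mem_image, Finset.mem_image]
    constructor
    · rintro ⟨z', hz', rfl⟩
      obtain ⟨z, hz, hc⟩ := h3 z' hz'
      exact ⟨z, hz, SimpleGraph.ConnectedComponent.eq.2 hc⟩
    · rintro ⟨z, hz, rfl⟩
      exact ⟨φ z, h1 z hz, rfl⟩
  have e2 : ncl D' ω' = (D'.image fun x => (gr ω').connectedComponentMk x).card := by
    unfold ncl
    congr!
  have e3 : ncl D ω = (D.image fun x => (gr ω).connectedComponentMk x).card := by
    unfold ncl
    congr!
  rw [e2, e3, e1]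
  apply le_antisymm
  · refine card_image_le76 D _ _ fun z hz w hw h => ?_
    exact SimpleGraph.ConnectedComponent.eq.2
      ((h2 z hz w hw).2 (SimpleGraph.ConnectedComponent.eq.1 h))
  · refine card_image_le76 D _ _ fun z hz w hw h => ?_
    exact SimpleGraph.ConnectedComponent.eq.2
      ((h2 z hz w hw).1 (SimpleGraph.ConnectedComponent.eq.1 h))

/-- Translation of edges. -/
private def sh76 (x : ℤ × ℤ) (e : Edge) : Edge := (e.1 + x, e.2)

private theorem tip_sh76 (x : ℤ × ℤ) (e : Edge) : tip (sh76 x e) = tip e + x := by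
  unfold tip sh76
  split_ifs <;> ext <;> simp <;> ring

private theorem sh_inj76 (x : ℤ × ℤ) : Function.Injective (sh76 x) := by
  rintro ⟨a, b⟩ ⟨c, d⟩ h
  simp only [sh76, Prod.mk.injEq, add_left_inj] at h
  rw [h.1, h.2]

private theorem conn_sh76 {ξ ξ' : Finset Edge} {x z w : ℤ × ℤ} (hξ : ∀ e ∈ ξ, sh76 x e ∈ ξ')
    (h : Conn ξ z w) : Conn ξ' (z + x) (w + x) := by
  have key : w ∈ {w | Conn ξ' (z + x) (w + x)} := by
    refine h.induct (Conn.refl _ _) fun e he => ?_
    have h1 : Conn ξ' (e.1 + x) (tip e + x) := by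
      have := conn_edge (hξ e he)
      rwa [tip_sh76] at this
    exact ⟨fun h2 => h2.trans h1, fun h2 => h2.trans h1.symm⟩
  exact key

private theorem conn_image76 {ξ : Finset Edge} {x z w : ℤ × ℤ} :
    Conn (ξ.image (sh76 x)) (z + x) (w + x) ↔ Conn ξ z w := by
  constructor
  · intro h
    have h1 := conn_sh76 (ξ' := ξ) (x := -x) (by
      intro e he
      obtain ⟨e', he', rfl⟩ := Finset.mem_image.1 he
      have : sh76 (-x) (sh76 x e') = e' := by
        simp [sh76]
      rwa [this]) h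
    simpa using h1
  · exact fun h => conn_sh76 (fun e he => Finset.mem_image_of_mem _ he) h

private theorem image_edges76 (x : ℤ × ℤ) (n : ℕ) :
    (edges (box n)).image (sh76 x) = edges (bx x n) := by
  ext e
  rw [Finset.mem_image]
  constructor
  · rintro ⟨e', he', rfl⟩
    rw [mem_edges, mem_box76, mem_box76] at he'
    rw [mem_edges, tip_sh76, mem_bx76, mem_bx76]
    simp only [sh76, Prod.fst_add, Prod.snd_add]
    omega
  · intro he
    refine ⟨sh76 (-x) e, ?_, by simp [sh76]⟩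
    rw [mem_edges, mem_bx76, mem_bx76] at he
    rw [mem_edges, tip_sh76, mem_box76, mem_box76]
    simp only [sh76, Prod.fst_add, Prod.snd_add, Prod.fst_neg, Prod.snd_neg]
    omega

private theorem arm_sh76 (x : ℤ × ℤ) (n : ℕ) (ξ F F' : Finset Edge) (hξ : ξ ⊆ edges (box n))
    (hF : Disjoint F (edges (box n))) (hF' : Disjoint F' (edges (bx x n))) :
    Arm n x (F' ∪ ξ.image (sh76 x)) ↔ Arm n (0, 0) (F ∪ ξ) := by
  have e1 : (F ∪ ξ) ∩ edges (bx (0, 0) n) = ξ := by
    rw [bx_zero76, Finset.union_inter_distrib_right, Finset.disjoint_iff_inter_eq_empty.1 hF,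
      Finset.empty_union, Finset.inter_eq_left]
    exact hξ
  have e2 : (F' ∪ ξ.image (sh76 x)) ∩ edges (bx x n) = ξ.image (sh76 x) := by
    rw [Finset.union_inter_distrib_right, Finset.disjoint_iff_inter_eq_empty.1 hF',
      Finset.empty_union, Finset.inter_eq_left, ← image_edges76]
    exact Finset.image_subset_image hξ
  unfold Arm
  rw [e1, e2]
  constructor
  · rintro ⟨y, hy, h1, h2⟩
    refine ⟨y - x, ?_, ?_, ?_⟩
    · rw [mem_bx76] at hy ⊢
      simp only [Prod.fst_sub, Prod.snd_sub]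
      omega
    · simpa using h1
    · have e3 : ((0, 0) : ℤ × ℤ) + x = x := zero_add x
      have : Conn (ξ.image (sh76 x)) ((0, 0) + x) (y - x + x) := by
        rw [e3, sub_add_cancel]
        exact h2
      exact conn_image76.1 this
  · rintro ⟨y, hy, h1, h2⟩
    refine ⟨y + x, ?_, ?_, ?_⟩
    · rw [mem_bx76] at hy ⊢
      simp only [Prod.fst_add, Prod.snd_add]
      simp only at hy
      omega
    · simpa using h1
    · have e3 : ((0, 0) : ℤ × ℤ) + x = x := zero_add x
      have := conn_image76 (x := x).2 h2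
      rwa [e3] at this

private theorem mem_ring76 {n : ℕ} {e : Edge} :
    e ∈ ring n ↔ e ∈ edges (box (n + 1)) ∧ e ∉ edges (box n) := by
  unfold ring
  rw [Finset.mem_sdiff]

private theorem vert76 (n : ℕ) (c : ℤ) (hc : |c| = n + 1) (k : ℕ) (hk : k ≤ 2 * (n + 1)) :
    Conn (ring n) (c, (n : ℤ) + 1) (c, (n : ℤ) + 1 - k) := by
  induction k with
  | zero => simpa using Conn.refl (ring n) (c, (n : ℤ) + 1)
  | succ k ih =>
    have h1 := ih (by omega)
    have he : (((c, (n : ℤ) + 1 - (k + 1 : ℕ)), false) : Edge) ∈ ring n := by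
      have hc' := abs_eq (by positivity : (0 : ℤ) ≤ (n : ℤ) + 1) |>.1 hc
      rw [mem_ring76, mem_edges, mem_edges, mem_box76, mem_box76, mem_box76, mem_box76]
      simp only [tip]
      push_cast
      constructor
      · refine ⟨?_, ?_⟩ <;> simp <;> omega
      · rintro ⟨h2, -⟩
        omega
    have h2 := conn_edge he
    have h3 : tip (((c, (n : ℤ) + 1 - (k + 1 : ℕ)), false) : Edge) = (c, (n : ℤ) + 1 - k) := by
      simp only [tip, Bool.false_eq_true, if_false]
      push_cast
      congr 1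
      ring
    rw [h3] at h2
    exact h1.trans h2.symm

private theorem horz76 (n : ℕ) (c : ℤ) (hc : |c| = n + 1) (k : ℕ) (hk : k ≤ 2 * (n + 1)) :
    Conn (ring n) ((n : ℤ) + 1, c) ((n : ℤ) + 1 - k, c) := by
  induction k with
  | zero => simpa using Conn.refl (ring n) ((n : ℤ) + 1, c)
  | succ k ih =>
    have h1 := ih (by omega)
    have he : ((((n : ℤ) + 1 - (k + 1 : ℕ), c), true) : Edge) ∈ ring n := by
      have hc' := abs_eq (by positivity : (0 : ℤ) ≤ (n : ℤ) + 1) |>.1 hc
      rw [mem_ring76, mem_edges, mem_edges, mem_box76, mem_box76, mem_box76, mem_box76]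
      simp only [tip]
      push_cast
      constructor
      · refine ⟨?_, ?_⟩ <;> simp <;> omega
      · rintro ⟨h2, -⟩
        omega
    have h2 := conn_edge he
    have h3 : tip ((((n : ℤ) + 1 - (k + 1 : ℕ), c), true) : Edge) = ((n : ℤ) + 1 - k, c) := by
      simp only [tip, if_true]
      push_cast
      congr 1
      ring
    rw [h3] at h2
    exact h1.trans h2.symm

/-- The boundary of the box is connected by the ring. -/
private theorem ring_conn76 (n : ℕ) (a : ℤ × ℤ) (ha : a ∈ box (n + 1))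
    (hb : |a.1| = n + 1 ∨ |a.2| = n + 1) : Conn (ring n) ((n : ℤ) + 1, (n : ℤ) + 1) a := by
  rw [mem_box76] at ha
  push_cast at ha
  have hn : |(n : ℤ) + 1| = n + 1 := abs_of_nonneg (by positivity)
  rcases hb with hb | hb
  · have h1 := vert76 n a.1 hb ((n : ℤ) + 1 - a.2).toNat (by omega)
    have h2 := horz76 n ((n : ℤ) + 1) hn ((n : ℤ) + 1 - a.1).toNat (by omega)
    have e1 : (n : ℤ) + 1 - (((n : ℤ) + 1 - a.2).toNat : ℤ) = a.2 := by omega
    have e2 : (n : ℤ) + 1 - (((n : ℤ) + 1 - a.1).toNat : ℤ) = a.1 := by omega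
    rw [e1] at h1
    rw [e2] at h2
    exact h2.trans h1
  · have h1 := horz76 n a.2 hb ((n : ℤ) + 1 - a.1).toNat (by omega)
    have h2 := vert76 n ((n : ℤ) + 1) hn ((n : ℤ) + 1 - a.2).toNat (by omega)
    have e1 : (n : ℤ) + 1 - (((n : ℤ) + 1 - a.1).toNat : ℤ) = a.1 := by omega
    have e2 : (n : ℤ) + 1 - (((n : ℤ) + 1 - a.2).toNat : ℤ) = a.2 := by omega
    rw [e1] at h1
    rw [e2] at h2
    exact h2.trans h1


/-- Every vertex of the large box is joined to the small one outside. -/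
private theorem outer76 (x : ℤ × ℤ) (n M : ℕ) (k : ℕ) : ∀ z' ∈ bx x M,
    (|z'.1 - x.1| + |z'.2 - x.2|).toNat ≤ k →
    ∃ w ∈ bx x (n + 1), Conn (edges (bx x M) \ edges (bx x n)) w z' := by
  induction k with
  | zero =>
    intro z' _ hk
    refine ⟨z', ?_, Conn.refl _ _⟩
    have h1 := abs_nonneg (z'.1 - x.1)
    have h2 := abs_nonneg (z'.2 - x.2)
    have h3 : |z'.1 - x.1| = 0 := by omega
    have h4 : |z'.2 - x.2| = 0 := by omega
    rw [abs_eq_zero] at h3 h4
    rw [mem_bx76]
    push_cast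
    omega
  | succ k ih =>
    intro z' hz hk
    by_cases hB : z' ∈ bx x (n + 1)
    · exact ⟨z', hB, Conn.refl _ _⟩
    rw [mem_bx76] at hz hB
    push_cast at hB
    have main : ∀ (w : ℤ × ℤ) (e : Edge), w ∈ bx x M →
        (|w.1 - x.1| + |w.2 - x.2|).toNat ≤ k →
        ((e.1 = w ∧ tip e = z') ∨ (e.1 = z' ∧ tip e = w)) →
        ∃ w ∈ bx x (n + 1), Conn (edges (bx x M) \ edges (bx x n)) w z' := by
      intro w e hw hwk he
      obtain ⟨u, hu, huw⟩ := ih w hw hwk
      have hz1 : z' ∈ bx x M := by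
        rw [mem_bx76]
        exact hz
      have hz2 : z' ∉ bx x n := by
        rw [mem_bx76]
        omega
      have he' : e ∈ edges (bx x M) \ edges (bx x n) := by
        rw [Finset.mem_sdiff, mem_edges, mem_edges]
        rcases he with ⟨h1, h2⟩ | ⟨h1, h2⟩
        · rw [h1, h2]
          exact ⟨⟨hw, hz1⟩, fun h3 => hz2 h3.2⟩
        · rw [h1, h2]
          exact ⟨⟨hz1, hw⟩, fun h3 => hz2 h3.1⟩
      have h3 := conn_edge he'
      rcases he with ⟨h1, h2⟩ | ⟨h1, h2⟩
      · rw [h1, h2] at h3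
        exact ⟨u, hu, huw.trans h3⟩
      · rw [h1, h2] at h3
        exact ⟨u, hu, huw.trans h3.symm⟩
    obtain ⟨z1, z2⟩ := z'
    simp only at hz hB hk
    by_cases c1 : x.1 + n + 1 < z1
    · refine main (z1 - 1, z2) ((z1 - 1, z2), true) ?_ ?_ (Or.inl ⟨rfl, by simp [tip]⟩)
      · rw [mem_bx76]
        simp only
        omega
      · simp only
        have e1 : |z1 - x.1| = z1 - x.1 := abs_of_nonneg (by omega)
        have e2 : |z1 - 1 - x.1| = z1 - 1 - x.1 := abs_of_nonneg (by omega)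
        rw [e1] at hk
        rw [e2]
        omega
    by_cases c2 : z1 < x.1 - n - 1
    · refine main (z1 + 1, z2) ((z1, z2), true) ?_ ?_ (Or.inr ⟨rfl, by simp [tip]⟩)
      · rw [mem_bx76]
        simp only
        omega
      · simp only
        have e1 : |z1 - x.1| = -(z1 - x.1) := abs_of_nonpos (by omega)
        have e2 : |z1 + 1 - x.1| = -(z1 + 1 - x.1) := abs_of_nonpos (by omega)
        rw [e1] at hk
        rw [e2]
        omega
    by_cases c3 : x.2 + n + 1 < z2
    · refine main (z1, z2 - 1) ((z1, z2 - 1), false) ?_ ?_ (Or.inl ⟨rfl, by simp [tip]⟩)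
      · rw [mem_bx76]
        simp only
        omega
      · simp only
        have e1 : |z2 - x.2| = z2 - x.2 := abs_of_nonneg (by omega)
        have e2 : |z2 - 1 - x.2| = z2 - 1 - x.2 := abs_of_nonneg (by omega)
        rw [e1] at hk
        rw [e2]
        omega
    · refine main (z1, z2 + 1) ((z1, z2), false) ?_ ?_ (Or.inr ⟨rfl, by simp [tip]⟩)
      · rw [mem_bx76]
        simp only
        omega
      · simp only
        have e1 : |z2 - x.2| = -(z2 - x.2) := abs_of_nonpos (by omega)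
        have e2 : |z2 + 1 - x.2| = -(z2 + 1 - x.2) := abs_of_nonpos (by omega)
        rw [e1] at hk
        rw [e2]
        omega

private theorem sub_bx76 (x : ℤ × ℤ) {n m : ℕ} (h : n ≤ m) : bx x n ⊆ bx x m := by
  intro z hz
  rw [mem_bx76] at hz ⊢
  omega

/-- The number of clusters with a wired outside does not depend on the domain. -/
private theorem ncl_wired76 (x : ℤ × ℤ) (n M : ℕ) (hM : n + 1 ≤ M) (ξ : Finset Edge) :
    ncl (box (n + 1)) (ring n ∪ ξ) =
      ncl (bx x M) ((edges (bx x M) \ edges (bx x n)) ∪ ξ.image (sh76 x)) := by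
  have hsub : ∀ e ∈ ring n ∪ ξ, sh76 x e ∈
      (edges (bx x M) \ edges (bx x n)) ∪ ξ.image (sh76 x) := by
    intro e he
    rcases Finset.mem_union.1 he with he | he
    · refine Finset.mem_union_left _ ?_
      rw [mem_ring76, mem_edges, mem_edges, mem_box76, mem_box76, mem_box76, mem_box76] at he
      rw [Finset.mem_sdiff, mem_edges, mem_edges, tip_sh76, mem_bx76, mem_bx76, mem_bx76,
        mem_bx76]
      simp only [sh76, Prod.fst_add, Prod.snd_add]
      push_cast at he
      omega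
    · exact Finset.mem_union_right _ (Finset.mem_image_of_mem _ he)
  refine ncl_eq76 (fun z => z + x) ?_ ?_ ?_
  · intro z hz
    rw [mem_box76] at hz
    rw [mem_bx76]
    simp only [Prod.fst_add, Prod.snd_add]
    push_cast at hz
    omega
  · intro z hz w hw
    refine ⟨fun h => conn_sh76 hsub h, fun h => ?_⟩
    have key : w + x ∈ {w' : ℤ × ℤ | (w' - x ∈ box (n + 1) ∧ Conn (ring n ∪ ξ) z (w' - x)) ∨
        (w' - x ∉ box (n + 1) ∧ Conn (ring n ∪ ξ) z ((n : ℤ) + 1, (n : ℤ) + 1))} := by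
      refine h.induct ?_ fun e' he' => ?_
      · left
        rw [add_sub_cancel_right]
        exact ⟨hz, Conn.refl _ _⟩
      · obtain ⟨e, rfl⟩ : ∃ e, e' = sh76 x e := ⟨sh76 (-x) e', by simp [sh76]⟩
        have t1 : (sh76 x e).1 - x = e.1 := by simp [sh76]
        have t2 : tip (sh76 x e) - x = tip e := by rw [tip_sh76, add_sub_cancel_right]
        rw [Set.mem_ofPred_eq, Set.mem_ofPred_eq, t1, t2]
        have hc := tip_cases76 e
        by_cases d1 : e.1 ∈ box (n + 1)
        · by_cases d2 : tip e ∈ box (n + 1)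
          · have he : e ∈ ring n ∪ ξ := by
              rcases Finset.mem_union.1 he' with he' | he'
              · refine Finset.mem_union_left _ ?_
                rw [mem_ring76]
                refine ⟨mem_edges.2 ⟨d1, d2⟩, fun h3 => ?_⟩
                refine (Finset.mem_sdiff.1 he').2 ?_
                rw [← image_edges76]
                exact Finset.mem_image_of_mem _ h3
              · obtain ⟨e2, he2, h4⟩ := Finset.mem_image.1 he'
                rw [sh_inj76 x h4] at he2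
                exact Finset.mem_union_right _ he2
            have h5 := conn_edge he
            simp only [d1, d2, true_and, not_true_eq_false, false_and, or_false]
            exact ⟨fun h6 => h6.trans h5, fun h6 => h6.trans h5.symm⟩
          · have h5 : Conn (ring n ∪ ξ) ((n : ℤ) + 1, (n : ℤ) + 1) e.1 := by
              refine (ring_conn76 n e.1 d1 ?_).mono Finset.subset_union_left
              rw [mem_box76] at d1 d2
              push_cast at d1 d2
              have : e.1.1 = n + 1 ∨ e.1.2 = n + 1 := by omega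
              rcases this with h6 | h6
              · left
                rw [h6]
                exact abs_of_nonneg (by positivity)
              · right
                rw [h6]
                exact abs_of_nonneg (by positivity)
            simp only [d1, d2, true_and, not_true_eq_false, false_and, or_false,
              not_false_eq_true, false_or]
            exact ⟨fun h6 => h6.trans h5.symm, fun h6 => h6.trans h5⟩
        · by_cases d2 : tip e ∈ box (n + 1)
          · have h5 : Conn (ring n ∪ ξ) ((n : ℤ) + 1, (n : ℤ) + 1) (tip e) := by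
              refine (ring_conn76 n (tip e) d2 ?_).mono Finset.subset_union_left
              rw [mem_box76] at d1 d2
              push_cast at d1 d2
              have : (tip e).1 = -(n + 1 : ℤ) ∨ (tip e).2 = -(n + 1 : ℤ) := by omega
              rcases this with h6 | h6
              · left
                rw [h6, abs_neg]
                exact abs_of_nonneg (by positivity)
              · right
                rw [h6, abs_neg]
                exact abs_of_nonneg (by positivity)
            simp only [d1, d2, true_and, not_true_eq_false, false_and, or_false,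
              not_false_eq_true, false_or]
            exact ⟨fun h6 => h6.trans h5, fun h6 => h6.trans h5.symm⟩
          · simp only [d1, d2, false_and, not_false_eq_true, true_and, false_or]
    rw [Set.mem_ofPred_eq, add_sub_cancel_right] at key
    rcases key with h3 | h3
    · exact h3.2
    · exact absurd hw h3.1
  · intro z' hz'
    obtain ⟨w, hw, hwz⟩ := outer76 x n M _ z' hz' le_rfl
    refine ⟨w - x, ?_, ?_⟩
    · rw [mem_bx76] at hw
      rw [mem_box76]
      simp only [Prod.fst_sub, Prod.snd_sub]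
      push_cast at hw ⊢
      omega
    · rw [sub_add_cancel]
      exact hwz.mono Finset.subset_union_left


open Classical in
private theorem pr_sum76 (D : Finset (ℤ × ℤ)) (r : Edge → ℝ) (I0 : Finset Edge)
    (s : Edge → Edge) (hs : Function.Injective s) (hI : I0.image s ⊆ edges D)
    (A : Finset Edge → Prop) :
    pr q r D (fun ω => edges D \ I0.image s ⊆ ω ∧ A ω) =
      (∑ ξ ∈ I0.powerset, wt q r D ((edges D \ I0.image s) ∪ ξ.image s) *
        if A ((edges D \ I0.image s) ∪ ξ.image s) then 1 else 0) / Z q r D := by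
  unfold pr ex
  congr 1
  have e1 : ∑ ω ∈ (edges D).powerset,
      wt q r D ω * (if edges D \ I0.image s ⊆ ω ∧ A ω then (1 : ℝ) else 0) =
      ∑ ω ∈ (edges D).powerset.filter (fun ω => edges D \ I0.image s ⊆ ω),
        wt q r D ω * (if A ω then (1 : ℝ) else 0) := by
    rw [Finset.sum_filter]
    refine Finset.sum_congr rfl fun ω _ => ?_
    by_cases h1 : edges D \ I0.image s ⊆ ω
    · simp only [h1, true_and, if_true]
    · simp only [h1, false_and, if_false, mul_zero]
  have e2 : ∑ ω ∈ (edges D).powerset,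
      wt q r D ω * (if edges D \ I0.image s ⊆ ω ∧ A ω then (1 : ℝ) else 0) =
      ∑ ξ ∈ I0.powerset, wt q r D ((edges D \ I0.image s) ∪ ξ.image s) *
        (if A ((edges D \ I0.image s) ∪ ξ.image s) then (1 : ℝ) else 0) := by
    rw [e1]
    symm
    refine Finset.sum_bij' (fun ξ _ => (edges D \ I0.image s) ∪ ξ.image s)
      (fun ω _ => I0.filter (fun e => s e ∈ ω)) ?_ ?_ ?_ ?_ ?_
    · intro ξ hξ
      rw [Finset.mem_powerset] at hξ
      rw [Finset.mem_filter, Finset.mem_powerset]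
      exact ⟨Finset.union_subset Finset.sdiff_subset
        ((Finset.image_subset_image hξ).trans hI), Finset.subset_union_left⟩
    · intro ω _
      rw [Finset.mem_powerset]
      exact Finset.filter_subset _ _
    · intro ξ hξ
      rw [Finset.mem_powerset] at hξ
      ext e
      rw [Finset.mem_filter, Finset.mem_union, Finset.mem_sdiff]
      constructor
      · rintro ⟨h1, h2 | h2⟩
        · exact absurd (Finset.mem_image_of_mem s h1) h2.2
        · obtain ⟨e', he', h3⟩ := Finset.mem_image.1 h2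
          rwa [← hs h3]
      · intro h1
        exact ⟨hξ h1, Or.inr (Finset.mem_image_of_mem s h1)⟩
    · intro ω hω
      rw [Finset.mem_filter, Finset.mem_powerset] at hω
      ext e
      rw [Finset.mem_union, Finset.mem_image]
      constructor
      · rintro (h1 | ⟨e', he', rfl⟩)
        · exact hω.2 h1
        · exact (Finset.mem_filter.1 he').2
      · intro h1
        by_cases h2 : e ∈ I0.image s
        · right
          obtain ⟨e', he', rfl⟩ := Finset.mem_image.1 h2
          exact ⟨e', Finset.mem_filter.2 ⟨he', h1⟩, rfl⟩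
        · left
          exact Finset.mem_sdiff.2 ⟨hω.1 h1, h2⟩
    · intro ξ _
      rfl
  refine Eq.trans (Finset.sum_congr rfl fun ω _ => ?_) e2
  beta_reduce
  congr!

open Classical in
private theorem prW_sum76 (hq : 0 < q) (D : Finset (ℤ × ℤ)) (r : Edge → ℝ) (hr : ∀ e, 0 ≤ r e)
    (I0 : Finset Edge) (s : Edge → Edge) (hs : Function.Injective s)
    (hI : I0.image s ⊆ edges D) (A : Finset Edge → Prop) :
    prW q r D (edges D \ I0.image s) A =
      (∑ ξ ∈ I0.powerset, wt q r D ((edges D \ I0.image s) ∪ ξ.image s) *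
        if A ((edges D \ I0.image s) ∪ ξ.image s) then 1 else 0) /
      ∑ ξ ∈ I0.powerset, wt q r D ((edges D \ I0.image s) ∪ ξ.image s) := by
  have h1 := pr_sum76 (q := q) D r I0 s hs hI A
  have h2 := pr_sum76 (q := q) D r I0 s hs hI (fun _ => True)
  simp only [and_true, if_true, mul_one] at h2
  unfold prW
  rw [h1, h2]
  exact div_div_div_cancel_right₀ (Z_pos hq hr).ne' _ _

private theorem wt_hom76 (D : Finset (ℤ × ℤ)) (F ξ : Finset Edge)
    (h : Disjoint F ξ) :
    wt q (hom ρ) D (F ∪ ξ) = ρ ^ F.card * (ρ ^ ξ.card * q ^ ncl D (F ∪ ξ)) := by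
  unfold wt hom
  rw [Finset.prod_const, Finset.card_union_of_disjoint h, pow_add]
  ring

private theorem prW_eq76 (hq : 0 < q) (hρ : 0 < ρ) (x : ℤ × ℤ) (n M : ℕ) (hM : n + 1 ≤ M) :
    prW q (hom ρ) (bx x M) (edges (bx x M) \ edges (bx x n)) (Arm n x) =
      prW q (hom ρ) (box (n + 1)) (ring n) (Arm n (0, 0)) := by
  classical
  have hr : ∀ e, 0 ≤ hom ρ e := fun _ => hρ.le
  have hI1 : (edges (box n)).image (sh76 x) ⊆ edges (bx x M) := by
    rw [image_edges76]
    exact edges_mono (sub_bx76 x (by omega))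
  have hI2 : (edges (box n)).image (id : Edge → Edge) ⊆ edges (box (n + 1)) := by
    rw [Finset.image_id]
    refine edges_mono ?_
    rw [← bx_zero76, ← bx_zero76]
    exact sub_bx76 _ (by omega)
  have h1 := prW_sum76 hq (bx x M) (hom ρ) hr (edges (box n)) (sh76 x) (sh_inj76 x) hI1 (Arm n x)
  have h2 := prW_sum76 hq (box (n + 1)) (hom ρ) hr (edges (box n)) id Function.injective_id hI2
    (Arm n (0, 0))
  rw [image_edges76] at h1
  simp only [Finset.image_id] at h2
  have hring : edges (box (n + 1)) \ edges (box n) = ring n := rfl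
  rw [hring] at h2
  rw [h1, h2]
  have hd1 : ∀ ξ ∈ (edges (box n)).powerset,
      Disjoint (edges (bx x M) \ edges (bx x n)) (ξ.image (sh76 x)) := by
    intro ξ hξ
    rw [Finset.mem_powerset] at hξ
    refine Finset.disjoint_of_subset_right ?_ Finset.sdiff_disjoint
    rw [← image_edges76]
    exact Finset.image_subset_image hξ
  have hd2 : ∀ ξ ∈ (edges (box n)).powerset, Disjoint (ring n) ξ := by
    intro ξ hξ
    rw [Finset.mem_powerset] at hξ
    exact Finset.disjoint_of_subset_right hξ Finset.sdiff_disjoint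
  have w1 : ∀ ξ ∈ (edges (box n)).powerset,
      wt q (hom ρ) (bx x M) ((edges (bx x M) \ edges (bx x n)) ∪ ξ.image (sh76 x)) =
        ρ ^ (edges (bx x M) \ edges (bx x n)).card *
          (ρ ^ ξ.card * q ^ ncl (box (n + 1)) (ring n ∪ ξ)) := by
    intro ξ hξ
    rw [wt_hom76 _ _ _ (hd1 ξ hξ), ← ncl_wired76 x n M hM ξ,
      Finset.card_image_of_injective _ (sh_inj76 x)]
  have w2 : ∀ ξ ∈ (edges (box n)).powerset,
      wt q (hom ρ) (box (n + 1)) (ring n ∪ ξ) =
        ρ ^ (ring n).card * (ρ ^ ξ.card * q ^ ncl (box (n + 1)) (ring n ∪ ξ)) := by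
    intro ξ hξ
    rw [wt_hom76 _ _ _ (hd2 ξ hξ)]
  have w3 : ∀ ξ ∈ (edges (box n)).powerset,
      (Arm n x ((edges (bx x M) \ edges (bx x n)) ∪ ξ.image (sh76 x)) ↔
        Arm n (0, 0) (ring n ∪ ξ)) := by
    intro ξ hξ
    exact arm_sh76 x n ξ _ _ (Finset.mem_powerset.1 hξ) Finset.sdiff_disjoint
      Finset.sdiff_disjoint
  have s1 : ∑ ξ ∈ (edges (box n)).powerset,
      wt q (hom ρ) (bx x M) ((edges (bx x M) \ edges (bx x n)) ∪ ξ.image (sh76 x)) *
        (if Arm n x ((edges (bx x M) \ edges (bx x n)) ∪ ξ.image (sh76 x)) then (1 : ℝ) else 0) =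
      ρ ^ (edges (bx x M) \ edges (bx x n)).card * ∑ ξ ∈ (edges (box n)).powerset,
        (ρ ^ ξ.card * q ^ ncl (box (n + 1)) (ring n ∪ ξ)) *
          (if Arm n (0, 0) (ring n ∪ ξ) then (1 : ℝ) else 0) := by
    rw [Finset.mul_sum]
    refine Finset.sum_congr rfl fun ξ hξ => ?_
    rw [w1 ξ hξ, mul_assoc]
    congr 2
    exact if_congr (w3 ξ hξ) rfl rfl
  have s2 : ∑ ξ ∈ (edges (box n)).powerset,
      wt q (hom ρ) (bx x M) ((edges (bx x M) \ edges (bx x n)) ∪ ξ.image (sh76 x)) =
      ρ ^ (edges (bx x M) \ edges (bx x n)).card * ∑ ξ ∈ (edges (box n)).powerset,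
        (ρ ^ ξ.card * q ^ ncl (box (n + 1)) (ring n ∪ ξ)) := by
    rw [Finset.mul_sum]
    exact Finset.sum_congr rfl w1
  have s3 : ∑ ξ ∈ (edges (box n)).powerset, wt q (hom ρ) (box (n + 1)) (ring n ∪ ξ) *
        (if Arm n (0, 0) (ring n ∪ ξ) then (1 : ℝ) else 0) =
      ρ ^ (ring n).card * ∑ ξ ∈ (edges (box n)).powerset,
        (ρ ^ ξ.card * q ^ ncl (box (n + 1)) (ring n ∪ ξ)) *
          (if Arm n (0, 0) (ring n ∪ ξ) then (1 : ℝ) else 0) := by
    rw [Finset.mul_sum]
    refine Finset.sum_congr rfl fun ξ hξ => ?_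
    rw [w2 ξ hξ, mul_assoc]
  have s4 : ∑ ξ ∈ (edges (box n)).powerset, wt q (hom ρ) (box (n + 1)) (ring n ∪ ξ) =
      ρ ^ (ring n).card * ∑ ξ ∈ (edges (box n)).powerset,
        (ρ ^ ξ.card * q ^ ncl (box (n + 1)) (ring n ∪ ξ)) := by
    rw [Finset.mul_sum]
    exact Finset.sum_congr rfl w2
  have t1 : ρ ^ (edges (bx x M) \ edges (bx x n)).card ≠ 0 := (pow_pos hρ _).ne'
  have t2 : ρ ^ (ring n).card ≠ 0 := (pow_pos hρ _).ne'
  rw [s2, s4]
  convert (show (ρ ^ (edges (bx x M) \ edges (bx x n)).card * ∑ ξ ∈ (edges (box n)).powerset,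
        (ρ ^ ξ.card * q ^ ncl (box (n + 1)) (ring n ∪ ξ)) *
          (if Arm n (0, 0) (ring n ∪ ξ) then (1 : ℝ) else 0)) /
      (ρ ^ (edges (bx x M) \ edges (bx x n)).card * ∑ ξ ∈ (edges (box n)).powerset,
        (ρ ^ ξ.card * q ^ ncl (box (n + 1)) (ring n ∪ ξ))) =
      (ρ ^ (ring n).card * ∑ ξ ∈ (edges (box n)).powerset,
        (ρ ^ ξ.card * q ^ ncl (box (n + 1)) (ring n ∪ ξ)) *
          (if Arm n (0, 0) (ring n ∪ ξ) then (1 : ℝ) else 0)) /
      (ρ ^ (ring n).card * ∑ ξ ∈ (edges (box n)).powerset,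
        (ρ ^ ξ.card * q ^ ncl (box (n + 1)) (ring n ∪ ξ))) from by
    rw [mul_div_mul_left _ _ t1, mul_div_mul_left _ _ t2]) using 2

private theorem ring_pos76 (hq : 0 < q) (hρ : 0 < ρ) (n : ℕ) :
    0 < pr q (hom ρ) (box (n + 1)) (fun ω => ring n ⊆ ω) :=
  pr_open_pos hq (fun _ => hρ.le) Finset.sdiff_subset fun _ _ => hρ

private theorem exists_bx76 (D : Finset (ℤ × ℤ)) (x : ℤ × ℤ) (n : ℕ) :
    ∃ M : ℕ, n + 1 ≤ M ∧ D ⊆ bx x M := by
  refine ⟨n + 1 + ∑ z ∈ D, ((z.1 - x.1).natAbs + (z.2 - x.2).natAbs), by omega, ?_⟩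
  intro z hz
  have h := Finset.single_le_sum (f := fun z : ℤ × ℤ => (z.1 - x.1).natAbs + (z.2 - x.2).natAbs)
    (fun _ _ => Nat.zero_le _) hz
  rw [mem_bx76]
  push_cast
  have h2 : (((z.1 - x.1).natAbs + (z.2 - x.2).natAbs : ℕ) : ℤ) ≤
      ((∑ z ∈ D, ((z.1 - x.1).natAbs + (z.2 - x.2).natAbs) : ℕ) : ℤ) := by exact_mod_cast h
  push_cast at h2
  have h3 := abs_nonneg (z.1 - x.1)
  have h4 := abs_nonneg (z.2 - x.2)
  have h5 := le_abs_self (z.1 - x.1)
  have h6 := neg_abs_le (z.1 - x.1)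
  have h7 := le_abs_self (z.2 - x.2)
  have h8 := neg_abs_le (z.2 - x.2)
  refine ⟨⟨?_, ?_⟩, ?_, ?_⟩ <;> linarith

theorem ExpW.arm (hq : 1 ≤ q) (hρ : 0 < ρ) (h : ExpW q ρ) :
    ∃ c C : ℝ, 0 < c ∧ 0 < C ∧ ∀ (D : Finset (ℤ × ℤ)) (r : Edge → ℝ) (F : Finset Edge)
      (x : ℤ × ℤ) (n : ℕ), (∀ e, 0 ≤ r e) → (∀ e, r e ≤ ρ) → F ⊆ edges D →
      Disjoint F (edges (bx x n)) → prW q r D F (Arm n x) ≤ C * Real.exp (-c * n) := by
  have hq0 : 0 < q := zero_lt_one.trans_le hq
  obtain ⟨c, C, hc, hC, hcC⟩ := h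
  refine ⟨c, C, hc, hC, fun D r F x n hr hrρ hF hd => ?_⟩
  obtain ⟨M, hM, hDM⟩ := exists_bx76 D x n
  have h1 : prW q r D F (Arm n x) ≤
      prW q (hom ρ) (bx x M) (edges (bx x M) \ edges (bx x n)) (Arm n x) := by
    refine prW_mono hq hr hrρ hDM ?_ Finset.sdiff_subset (fun _ _ => hρ) (arm_incr n x)
    intro e he
    exact Finset.mem_sdiff.2 ⟨edges_mono hDM (hF he), Finset.disjoint_left.1 hd he⟩
  refine h1.trans ?_
  rw [prW_eq76 hq0 hρ x n M hM, prW, div_le_iff₀ (ring_pos76 hq0 hρ n)]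
  exact hcC n

theorem ExpW.decay (hq : 1 ≤ q) (hρ : 0 < ρ) (h : ExpW q ρ) : ExpDecay q ρ := by
  have hq0 : 0 < q := zero_lt_one.trans_le hq
  obtain ⟨c, C, hc, hC, hcC⟩ := h.arm hq hρ
  refine ⟨c / 2, C, by positivity, hC, fun y => ?_⟩
  refine ciSup_le fun N => ?_
  have h1 := hcC (box N) (hom ρ) ∅ (0, 0) (max |y.1| |y.2|).toNat (fun _ => hρ.le)
    (fun _ => le_rfl) (Finset.empty_subset _) (Finset.disjoint_empty_left _)
  rw [prW_empty (r := hom ρ) hq0 (fun _ => hρ.le)] at h1
  have hm : ((max |y.1| |y.2|).toNat : ℤ) = max |y.1| |y.2| :=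
    Int.toNat_of_nonneg (le_max_of_le_left (abs_nonneg _))
  have h2 : G q (hom ρ) (box N) (0, 0) y ≤
      pr q (hom ρ) (box N) (Arm (max |y.1| |y.2|).toNat (0, 0)) := by
    refine pr_mono hq0 (fun _ => hρ.le) fun ω _ hω => ?_
    refine arm_of_conn hω ?_
    rw [hm]
    simp
  refine h2.trans (h1.trans ?_)
  refine mul_le_mul_of_nonneg_left (Real.exp_le_exp.2 ?_) hC.le
  have hm' : (((max |y.1| |y.2|).toNat : ℕ) : ℝ) = max |(y.1 : ℝ)| |(y.2 : ℝ)| := by
    have : (((max |y.1| |y.2|).toNat : ℤ) : ℝ) = ((max |y.1| |y.2| : ℤ) : ℝ) := by rw [hm]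
    push_cast at this
    exact this
  rw [hm']
  have h3 := le_max_left |(y.1 : ℝ)| |(y.2 : ℝ)|
  have h4 := le_max_right |(y.1 : ℝ)| |(y.2 : ℝ)|
  nlinarith

theorem ExpW.anti (hq : 1 ≤ q) {ρ' : ℝ} (hρ' : 0 < ρ') (hρ : ρ' ≤ ρ) (h : ExpW q ρ) :
    ExpW q ρ' := by
  have hq0 : 0 < q := zero_lt_one.trans_le hq
  have hρ0 : 0 < ρ := hρ'.trans_le hρ
  obtain ⟨c, C, hc, hC, hcC⟩ := h
  refine ⟨c, C, hc, hC, fun n => ?_⟩
  have h1 : prW q (hom ρ') (box (n + 1)) (ring n) (Arm n (0, 0)) ≤
      prW q (hom ρ) (box (n + 1)) (ring n) (Arm n (0, 0)) :=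
    prW_mono hq (fun _ => hρ'.le) (fun _ => hρ) (Finset.Subset.refl _) (Finset.Subset.refl _)
      Finset.sdiff_subset (fun _ _ => hρ0) (arm_incr n _)
  have h2 : prW q (hom ρ) (box (n + 1)) (ring n) (Arm n (0, 0)) ≤ C * Real.exp (-c * n) := by
    rw [prW, div_le_iff₀ (ring_pos76 hq0 hρ0 n)]
    exact hcC n
  have h3 := h1.trans h2
  rw [prW, div_le_iff₀ (ring_pos76 hq0 hρ' n)] at h3
  exact h3

theorem ExpDecay.GI_le (hq : 1 ≤ q) (hρ : 0 ≤ ρ) (h : ExpDecay q ρ) :
    ∃ c C : ℝ, 0 < c ∧ 0 < C ∧ ∀ x y : ℤ × ℤ,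
      GI q ρ x y ≤ C * Real.exp (-c * (|(x.1 : ℝ) - y.1| + |(x.2 : ℝ) - y.2|)) := by
  obtain ⟨c, C, hc, hC, hcC⟩ := h
  refine ⟨c, C, hc, hC, fun x y => ?_⟩
  have h1 := GI_tr hq hρ x ((0, 0) : ℤ × ℤ) (y - x)
  have e1 : ((0, 0) : ℤ × ℤ) + x = x := zero_add x
  rw [e1, sub_add_cancel] at h1
  rw [h1]
  have h2 := hcC (y - x)
  simp only [Prod.fst_sub, Prod.snd_sub] at h2
  push_cast at h2
  rw [abs_sub_comm (x.1 : ℝ), abs_sub_comm (x.2 : ℝ)]
  exact h2

end Pool.Helper49.FK
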