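import Mathlib
import Pool.Agent.Helper49.FK.Defs
import Pool.Agent.Helper49.FK.Comp
import Pool.Agent.Helper49.FK.Fkg
import Pool.Agent.Helper49.FK.Cond

/-!
Project OZ.  Block FK-11: exploration of clusters, finite energy.

* `ex_explore`: the configurations with `cluS = U` and `cleS = K` are the `K ∪ ω'`, `ω' ⊆ edges (D ∖ U)`, with weight
  `(∏ e ∈ K, r e) * q ^ ncl U K * wt (D ∖ U) ω'` (`ncl_union`); so both sides are
  `∑ over (U, K)` of `(that factor) * ∑ ω', wt (D ∖ U) ω' * Φ U K ω'`.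
* `prW_explore`: apply it to `Φ U K ω' = 1 (F ⊆ K, U ∩ B = ∅, A ω')`; on `U ∩ B = ∅` the edges of `K` are not in `edges B`.
* `wt_change`: add or remove one edge at a time.
-/

namespace Pool.Helper49.FK

variable {q : ℝ} {r r' : Edge → ℝ} {D D' : Finset (ℤ × ℤ)} {A B : Finset Edge → Prop}

private theorem conn_iff_f11 {S U : Finset (ℤ × ℤ)} (hS : S ⊆ D) {ω : Finset Edge} (hω : ω ⊆ edges D)
    (hU : U = cluS D S ω) {ω' : Finset Edge} (hω' : ω' ⊆ edges (D \ U)) {s : ℤ × ℤ} (hs : s ∈ S)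
    (y : ℤ × ℤ) : Conn (cleS S ω ∪ ω') s y ↔ Conn ω s y := by
  classical
  constructor
  · intro h
    refine Conn.induct (S := {y | Conn ω s y}) h (Conn.refl ω s) fun e he => ?_
    rcases Finset.mem_union.1 he with h1 | h1
    · have h2 : e ∈ ω := by
        unfold cleS at h1
        exact (Finset.mem_filter.1 h1).1
      exact ⟨fun h3 => Conn.trans h3 (conn_edge h2), fun h3 => Conn.trans h3 (conn_edge h2).symm⟩
    · have h2 := mem_edges.1 (hω' h1)
      have h3 : ∀ z, Conn ω s z → z ∈ U := by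
        intro z hz
        rw [hU]
        unfold cluS
        exact Finset.mem_filter.2 ⟨Conn.mem hω hz (hS hs), s, hs, hz⟩
      constructor
      · intro h4
        exact absurd (h3 _ h4) (Finset.mem_sdiff.1 h2.1).2
      · intro h4
        exact absurd (h3 _ h4) (Finset.mem_sdiff.1 h2.2).2
  · intro h
    have hK : ∀ z, Conn (cleS S ω) s z → Conn ω s z := fun z hz =>
      Conn.mono (by unfold cleS; exact Finset.filter_subset _ _) hz
    refine Conn.mono Finset.subset_union_left ?_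
    refine Conn.induct (S := {y | Conn (cleS S ω) s y}) h (Conn.refl _ s) fun e he => ?_
    have hmem : Conn ω s e.1 → e ∈ cleS S ω := by
      intro h1
      unfold cleS
      exact Finset.mem_filter.2 ⟨he, s, hs, h1⟩
    constructor
    · intro h1
      exact Conn.trans h1 (conn_edge (hmem (hK _ h1)))
    · intro h1
      have h2 : e ∈ cleS S ω := hmem (Conn.trans (hK _ h1) (conn_edge he).symm)
      exact Conn.trans h1 (conn_edge h2).symm

private theorem cluS_f11 {S U : Finset (ℤ × ℤ)} (hS : S ⊆ D) {ω : Finset Edge} (hω : ω ⊆ edges D)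
    (hU : U = cluS D S ω) {ω' : Finset Edge} (hω' : ω' ⊆ edges (D \ U)) :
    cluS D S (cleS S ω ∪ ω') = U := by
  classical
  rw [hU]
  unfold cluS
  refine Finset.filter_congr fun y _ => ?_
  exact exists_congr fun s => and_congr_right fun hs => conn_iff_f11 hS hω hU hω' hs y

private theorem cleS_sub_f11 {S : Finset (ℤ × ℤ)} (hS : S ⊆ D) {ω : Finset Edge} (hω : ω ⊆ edges D) :
    cleS S ω ⊆ edges (cluS D S ω) := by
  classical
  intro e he
  unfold cleS at he
  obtain ⟨h1, s, hs, h2⟩ := Finset.mem_filter.1 he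
  rw [mem_edges]
  unfold cluS
  have h3 := mem_edges.1 (hω h1)
  exact ⟨Finset.mem_filter.2 ⟨h3.1, s, hs, h2⟩,
    Finset.mem_filter.2 ⟨h3.2, s, hs, Conn.trans h2 (conn_edge h1)⟩⟩

private theorem rest_f11 {S : Finset (ℤ × ℤ)} {ω : Finset Edge} (hω : ω ⊆ edges D) :
    ω \ cleS S ω ⊆ edges (D \ cluS D S ω) := by
  classical
  intro e he
  obtain ⟨h1, h2⟩ := Finset.mem_sdiff.1 he
  have h3 := mem_edges.1 (hω h1)
  have h4 : ∀ s ∈ S, ¬ Conn ω s e.1 := by
    intro s hs h
    apply h2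
    unfold cleS
    exact Finset.mem_filter.2 ⟨h1, s, hs, h⟩
  rw [mem_edges, Finset.mem_sdiff, Finset.mem_sdiff]
  unfold cluS
  refine ⟨⟨h3.1, fun h => ?_⟩, ⟨h3.2, fun h => ?_⟩⟩
  · obtain ⟨_, s, hs, h5⟩ := Finset.mem_filter.1 h
    exact h4 s hs h5
  · obtain ⟨_, s, hs, h5⟩ := Finset.mem_filter.1 h
    exact h4 s hs (Conn.trans h5 (conn_edge h1).symm)

private theorem disj_f11 {U : Finset (ℤ × ℤ)} {K ω' : Finset Edge} (hK : K ⊆ edges U)
    (hω' : ω' ⊆ edges (D \ U)) : Disjoint K ω' := by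
  rw [Finset.disjoint_left]
  intro e h1 h2
  exact (Finset.mem_sdiff.1 (mem_edges.1 (hω' h2)).1).2 (mem_edges.1 (hK h1)).1

private theorem cleS_f11 {S U : Finset (ℤ × ℤ)} (hS : S ⊆ D) {ω : Finset Edge} (hω : ω ⊆ edges D)
    (hU : U = cluS D S ω) {ω' : Finset Edge} (hω' : ω' ⊆ edges (D \ U)) :
    cleS S (cleS S ω ∪ ω') = cleS S ω := by
  classical
  ext e
  constructor
  · intro h
    unfold cleS at h
    obtain ⟨h1, s, hs, h2⟩ := Finset.mem_filter.1 h
    change Conn (cleS S ω ∪ ω') s e.1 at h2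
    rw [conn_iff_f11 hS hω hU hω' hs] at h2
    rcases Finset.mem_union.1 h1 with h3 | h3
    · exact h3
    · exfalso
      refine (Finset.mem_sdiff.1 (mem_edges.1 (hω' h3)).1).2 ?_
      rw [hU]
      unfold cluS
      exact Finset.mem_filter.2 ⟨Conn.mem hω h2 (hS hs), s, hs, h2⟩
  · intro h
    have h' := h
    unfold cleS at h'
    obtain ⟨h1, s, hs, h2⟩ := Finset.mem_filter.1 h'
    have h3 : Conn (cleS S ω ∪ ω') s e.1 := (conn_iff_f11 hS hω hU hω' hs _).2 h2
    change e ∈ (cleS S ω ∪ ω').filter fun e => ∃ s ∈ S, Conn (cleS S ω ∪ ω') s e.1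
    exact Finset.mem_filter.2 ⟨Finset.mem_union_left _ h, s, hs, h3⟩

private theorem wt_f11 {U : Finset (ℤ × ℤ)} (hUD : U ⊆ D) {K ω' : Finset Edge} (hK : K ⊆ edges U)
    (hω' : ω' ⊆ edges (D \ U)) :
    wt q r D (K ∪ ω') = ((∏ e ∈ K, r e) * q ^ ncl U K) * wt q r (D \ U) ω' := by
  classical
  unfold wt
  have h1 : ncl D (K ∪ ω') = ncl U K + ncl (D \ U) ω' := by
    have h2 := ncl_union (D₁ := U) (D₂ := D \ U) Finset.disjoint_sdiff hK hω'
    rwa [Finset.union_sdiff_of_subset hUD] at h2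
  rw [h1, Finset.prod_union (disj_f11 hK hω'), pow_add]
  ring

/-- Exploration of the clusters of `S`: given them, the rest is the model in `D ∖ cluS`. -/
theorem ex_explore (hq : 0 < q) (hr : ∀ e, 0 ≤ r e) {S : Finset (ℤ × ℤ)} (hS : S ⊆ D)
    (Φ : Finset (ℤ × ℤ) → Finset Edge → Finset Edge → ℝ) :
    ex q r D (fun ω => Φ (cluS D S ω) (cleS S ω) (ω \ cleS S ω)) =
      ex q r D (fun ω => ex q r (D \ cluS D S ω) (Φ (cluS D S ω) (cleS S ω))) := by
  classical
  unfold ex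
  congr 1
  -- the facts
  have hUD : ∀ ω, cluS D S ω ⊆ D := fun ω => by
    unfold cluS
    exact Finset.filter_subset _ _
  have hKω : ∀ ω, cleS S ω ⊆ ω := fun ω => by
    unfold cleS
    exact Finset.filter_subset _ _
  have hw : ∀ ω ⊆ edges D, wt q r D ω =
      ((∏ e ∈ cleS S ω, r e) * q ^ ncl (cluS D S ω) (cleS S ω)) *
        wt q r (D \ cluS D S ω) (ω \ cleS S ω) := by
    intro ω hω
    have h1 := wt_f11 (q := q) (r := r) (hUD ω) (cleS_sub_f11 hS hω) (rest_f11 (S := S) hω)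
    rwa [Finset.union_sdiff_of_subset (hKω ω)] at h1
  have hZ : ∀ U, Z q r (D \ U) ≠ 0 := fun U => (Z_pos hq hr).ne'
  -- left side as a double sum
  have hL : ∑ ω ∈ (edges D).powerset, wt q r D ω * Φ (cluS D S ω) (cleS S ω) (ω \ cleS S ω) =
      ∑ ω ∈ (edges D).powerset, ∑ ω' ∈ (edges (D \ cluS D S ω)).powerset,
        wt q r D ω * Φ (cluS D S ω) (cleS S ω) (ω \ cleS S ω) *
          (wt q r (D \ cluS D S ω) ω' / Z q r (D \ cluS D S ω)) := by
    refine Finset.sum_congr rfl fun ω _ => ?_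
    rw [← Finset.mul_sum, ← Finset.sum_div]
    have h2 : ∑ ω' ∈ (edges (D \ cluS D S ω)).powerset, wt q r (D \ cluS D S ω) ω' =
        Z q r (D \ cluS D S ω) := rfl
    rw [h2, div_self (hZ _), mul_one]
  have hR : ∑ ω ∈ (edges D).powerset, wt q r D ω *
      ((∑ ω' ∈ (edges (D \ cluS D S ω)).powerset,
        wt q r (D \ cluS D S ω) ω' * Φ (cluS D S ω) (cleS S ω) ω') / Z q r (D \ cluS D S ω)) =
      ∑ ω ∈ (edges D).powerset, ∑ ω' ∈ (edges (D \ cluS D S ω)).powerset,
        wt q r D ω * (wt q r (D \ cluS D S ω) ω' * Φ (cluS D S ω) (cleS S ω) ω' /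
          Z q r (D \ cluS D S ω)) := by
    refine Finset.sum_congr rfl fun ω _ => ?_
    rw [Finset.sum_div, Finset.mul_sum]
  rw [hL, hR, Finset.sum_sigma', Finset.sum_sigma']
  -- the involution
  have hmem : ∀ x : (Σ _ : Finset Edge, Finset Edge),
      x ∈ (edges D).powerset.sigma (fun ω => (edges (D \ cluS D S ω)).powerset) ↔
        x.1 ⊆ edges D ∧ x.2 ⊆ edges (D \ cluS D S x.1) := by
    intro x
    rw [Finset.mem_sigma, Finset.mem_powerset, Finset.mem_powerset]
  let T : (Σ _ : Finset Edge, Finset Edge) → (Σ _ : Finset Edge, Finset Edge) :=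
    fun x => ⟨cleS S x.1 ∪ x.2, x.1 \ cleS S x.1⟩
  have hT1 : ∀ x : (Σ _ : Finset Edge, Finset Edge), x.1 ⊆ edges D →
      x.2 ⊆ edges (D \ cluS D S x.1) → cluS D S (cleS S x.1 ∪ x.2) = cluS D S x.1 :=
    fun x h1 h2 => cluS_f11 hS h1 rfl h2
  have hT2 : ∀ x : (Σ _ : Finset Edge, Finset Edge), x.1 ⊆ edges D →
      x.2 ⊆ edges (D \ cluS D S x.1) → cleS S (cleS S x.1 ∪ x.2) = cleS S x.1 :=
    fun x h1 h2 => cleS_f11 hS h1 rfl h2
  have hT3 : ∀ x : (Σ _ : Finset Edge, Finset Edge), x.1 ⊆ edges D →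
      x.2 ⊆ edges (D \ cluS D S x.1) → (cleS S x.1 ∪ x.2) \ cleS S x.1 = x.2 := by
    intro x h1 h2
    exact Finset.union_sdiff_cancel_left (disj_f11 (cleS_sub_f11 hS h1) h2)
  have hTm : ∀ x ∈ (edges D).powerset.sigma (fun ω => (edges (D \ cluS D S ω)).powerset),
      T x ∈ (edges D).powerset.sigma (fun ω => (edges (D \ cluS D S ω)).powerset) := by
    intro x hx
    obtain ⟨h1, h2⟩ := (hmem x).1 hx
    refine (hmem _).2 ⟨?_, ?_⟩
    · exact Finset.union_subset ((hKω _).trans h1) (h2.trans (edges_mono Finset.sdiff_subset))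
    · change x.1 \ cleS S x.1 ⊆ edges (D \ cluS D S (cleS S x.1 ∪ x.2))
      rw [hT1 x h1 h2]
      exact rest_f11 h1
  have hTT : ∀ x ∈ (edges D).powerset.sigma (fun ω => (edges (D \ cluS D S ω)).powerset),
      T (T x) = x := by
    intro x hx
    obtain ⟨h1, h2⟩ := (hmem x).1 hx
    change (⟨cleS S (cleS S x.1 ∪ x.2) ∪ (x.1 \ cleS S x.1),
      (cleS S x.1 ∪ x.2) \ cleS S (cleS S x.1 ∪ x.2)⟩ : (Σ _ : Finset Edge, Finset Edge)) = x
    rw [hT2 x h1 h2, hT3 x h1 h2, Finset.union_sdiff_of_subset (hKω _)]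
  refine Finset.sum_bij' (fun x _ => T x) (fun x _ => T x) hTm hTm hTT hTT ?_
  intro x hx
  obtain ⟨h1, h2⟩ := (hmem x).1 hx
  change wt q r D x.1 * Φ (cluS D S x.1) (cleS S x.1) (x.1 \ cleS S x.1) *
      (wt q r (D \ cluS D S x.1) x.2 / Z q r (D \ cluS D S x.1)) =
    wt q r D (cleS S x.1 ∪ x.2) * (wt q r (D \ cluS D S (cleS S x.1 ∪ x.2)) (x.1 \ cleS S x.1) *
      Φ (cluS D S (cleS S x.1 ∪ x.2)) (cleS S (cleS S x.1 ∪ x.2)) (x.1 \ cleS S x.1) /
        Z q r (D \ cluS D S (cleS S x.1 ∪ x.2)))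
  rw [hT1 x h1 h2, hT2 x h1 h2, hw x.1 h1,
    wt_f11 (q := q) (r := r) (hUD x.1) (cleS_sub_f11 hS h1) h2]
  ring

/-- If the edges of `F` are open, `S` contains their ends and `S` is not joined to `B`, then an event inside
`B` has at most its largest probability in the domains `D ∖ U`. -/
theorem prW_explore (hq : 0 < q) (hr : ∀ e, 0 ≤ r e) {S B : Finset (ℤ × ℤ)} (hS : S ⊆ D)
    {F : Finset Edge} (hF : ∀ e ∈ F, e.1 ∈ S ∧ tip e ∈ S) (hA : Dep (edges B) A) {M : ℝ}
    (hM : 0 ≤ M) (h : ∀ U : Finset (ℤ × ℤ), pr q r (D \ U) A ≤ M) :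
    prW q r D F (fun ω => (∀ s ∈ S, ∀ b ∈ B, ¬ Conn ω s b) ∧ A ω) ≤ M := by
  classical
  have key : pr q r D (fun ω => F ⊆ ω ∧ (∀ s ∈ S, ∀ b ∈ B, ¬ Conn ω s b) ∧ A ω) ≤
      M * pr q r D (fun ω => F ⊆ ω) := by
    set Φ : Finset (ℤ × ℤ) → Finset Edge → Finset Edge → ℝ := fun U K ω' =>
      (if F ⊆ K ∧ Disjoint U B then 1 else 0) * (if A ω' then 1 else 0) with hΦ
    have hFK : ∀ ω : Finset Edge, F ⊆ ω ↔ F ⊆ cleS S ω := by
      intro ω
      constructor
      · intro h1 e he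
        unfold cleS
        exact Finset.mem_filter.2 ⟨h1 he, e.1, (hF e he).1, Conn.refl _ _⟩
      · intro h1
        refine h1.trans ?_
        unfold cleS
        exact Finset.filter_subset _ _
    have e1 : pr q r D (fun ω => F ⊆ ω ∧ (∀ s ∈ S, ∀ b ∈ B, ¬ Conn ω s b) ∧ A ω) =
        ex q r D (fun ω => Φ (cluS D S ω) (cleS S ω) (ω \ cleS S ω)) := by
      unfold pr
      refine ex_congr fun ω hω => ?_
      have h2 : (∀ s ∈ S, ∀ b ∈ B, ¬ Conn ω s b) ↔ Disjoint (cluS D S ω) B := by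
        rw [Finset.disjoint_left]
        unfold cluS
        constructor
        · intro h3 y hy hyB
          obtain ⟨_, s, hs, h4⟩ := Finset.mem_filter.1 hy
          exact h3 s hs y hyB h4
        · intro h3 s hs b hb h4
          exact h3 (Finset.mem_filter.2 ⟨Conn.mem hω h4 (hS hs), s, hs, h4⟩) hb
      have h3 : Disjoint (cluS D S ω) B → (A ω ↔ A (ω \ cleS S ω)) := by
        intro h4
        rw [← hA ω, ← hA (ω \ cleS S ω)]
        have h5 : ω ∩ edges B = (ω \ cleS S ω) ∩ edges B := by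
          ext e
          rw [Finset.mem_inter, Finset.mem_inter, Finset.mem_sdiff]
          constructor
          · rintro ⟨h6, h7⟩
            refine ⟨⟨h6, fun h8 => ?_⟩, h7⟩
            exact Finset.disjoint_left.1 h4 (mem_edges.1 (cleS_sub_f11 hS hω h8)).1
              (mem_edges.1 h7).1
          · rintro ⟨⟨h6, _⟩, h7⟩
            exact ⟨h6, h7⟩
        rw [h5]
      simp only [hΦ]
      by_cases c1 : F ⊆ ω
      · by_cases c2 : Disjoint (cluS D S ω) B
        · rw [if_pos (⟨(hFK ω).1 c1, c2⟩ : F ⊆ cleS S ω ∧ Disjoint (cluS D S ω) B), one_mul]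
          by_cases c3 : A ω
          · rw [if_pos ⟨c1, h2.2 c2, c3⟩, if_pos ((h3 c2).1 c3)]
          · rw [if_neg (fun h6 => c3 h6.2.2), if_neg (fun h6 => c3 ((h3 c2).2 h6))]
        · rw [if_neg (fun h6 => c2 (h2.1 h6.2.1)), if_neg (fun h6 => c2 h6.2), zero_mul]
      · rw [if_neg (fun h6 => c1 h6.1), if_neg (fun h6 => c1 ((hFK ω).2 h6.1)), zero_mul]
    rw [e1, ex_explore hq hr hS Φ]
    unfold pr
    rw [← ex_const_mul]
    refine ex_le hq hr fun ω _ => ?_
    have e2 : ex q r (D \ cluS D S ω) (Φ (cluS D S ω) (cleS S ω)) =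
        (if F ⊆ cleS S ω ∧ Disjoint (cluS D S ω) B then 1 else 0) *
          pr q r (D \ cluS D S ω) A := by
      unfold pr
      rw [← ex_const_mul]
    rw [e2]
    by_cases c1 : F ⊆ ω
    · rw [if_pos c1, mul_one]
      split_ifs
      · rw [one_mul]
        exact h _
      · rw [zero_mul]
        exact hM
    · rw [if_neg c1, if_neg (fun h6 => c1 ((hFK ω).2 h6.1)), zero_mul, mul_zero]
  unfold prW
  rcases (pr_nonneg (D := D) hq hr (fun ω => F ⊆ ω)).lt_or_eq with h1 | h1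
  · rw [div_le_iff₀ h1]
    exact key
  · rw [← h1, div_zero]
    exact hM

private theorem wt_pos_f11 (hq : 1 ≤ q) {a b : ℝ} (ha : 0 < a)
    (hr : ∀ e ∈ edges D, a ≤ r e ∧ r e ≤ b) {ω : Finset Edge} (hω : ω ⊆ edges D) :
    0 < wt q r D ω := by
  unfold wt
  refine mul_pos (Finset.prod_pos fun e he => ?_) (pow_pos (by linarith) _)
  exact lt_of_lt_of_le ha (hr e (hω he)).1

private theorem wt_insert_f11 (hq : 1 ≤ q) {a b : ℝ} (ha : 0 < a)
    (hr : ∀ e ∈ edges D, a ≤ r e ∧ r e ≤ b) {ω : Finset Edge} (hω : ω ⊆ edges D) {e : Edge}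
    (he : e ∈ edges D) (heω : e ∉ ω) :
    a / q * wt q r D ω ≤ wt q r D (insert e ω) ∧ b⁻¹ * wt q r D (insert e ω) ≤ wt q r D ω := by
  classical
  have hq0 : 0 < q := by linarith
  have hre := hr e he
  have hb : 0 < b := lt_of_lt_of_le ha (hre.1.trans hre.2)
  have hre0 : 0 < r e := lt_of_lt_of_le ha hre.1
  have hP : 0 < ∏ x ∈ ω, r x := Finset.prod_pos fun x hx => lt_of_lt_of_le ha (hr x (hω hx)).1
  unfold wt
  rw [Finset.prod_insert heω]
  by_cases hc : Conn ω e.1 (tip e)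
  · rw [ncl_insert_of_conn hc]
    have hX : 0 < (∏ x ∈ ω, r x) * q ^ ncl D ω := mul_pos hP (pow_pos hq0 _)
    constructor
    · have h1 : a / q ≤ r e := by
        rw [div_le_iff₀ hq0]
        nlinarith
      calc a / q * ((∏ x ∈ ω, r x) * q ^ ncl D ω) ≤ r e * ((∏ x ∈ ω, r x) * q ^ ncl D ω) :=
            mul_le_mul_of_nonneg_right h1 hX.le
        _ = _ := by ring
    · have h1 : b⁻¹ * r e ≤ 1 := by
        rw [inv_mul_le_iff₀ hb, mul_one]
        exact hre.2
      calc b⁻¹ * (r e * (∏ x ∈ ω, r x) * q ^ ncl D ω) =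
            (b⁻¹ * r e) * ((∏ x ∈ ω, r x) * q ^ ncl D ω) := by ring
        _ ≤ 1 * ((∏ x ∈ ω, r x) * q ^ ncl D ω) := mul_le_mul_of_nonneg_right h1 hX.le
        _ = _ := one_mul _
  · have hn := ncl_insert_of_not_conn he hc
    rw [← hn, pow_succ]
    have hX : 0 < (∏ x ∈ ω, r x) * q ^ ncl D (insert e ω) := mul_pos hP (pow_pos hq0 _)
    constructor
    · calc a / q * ((∏ x ∈ ω, r x) * (q ^ ncl D (insert e ω) * q)) =
            a * ((∏ x ∈ ω, r x) * q ^ ncl D (insert e ω)) := by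
            field_simp
        _ ≤ r e * ((∏ x ∈ ω, r x) * q ^ ncl D (insert e ω)) :=
            mul_le_mul_of_nonneg_right hre.1 hX.le
        _ = _ := by ring
    · have h1 : b⁻¹ * r e ≤ q := by
        rw [inv_mul_le_iff₀ hb]
        nlinarith [hre.2]
      calc b⁻¹ * (r e * (∏ x ∈ ω, r x) * q ^ ncl D (insert e ω)) =
            (b⁻¹ * r e) * ((∏ x ∈ ω, r x) * q ^ ncl D (insert e ω)) := by ring
        _ ≤ q * ((∏ x ∈ ω, r x) * q ^ ncl D (insert e ω)) := mul_le_mul_of_nonneg_right h1 hX.le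
        _ = _ := by ring

/-- Finite energy. -/
theorem wt_change (hq : 1 ≤ q) {a b : ℝ} (ha : 0 < a) (hab : a ≤ b)
    (hr : ∀ e ∈ edges D, a ≤ r e ∧ r e ≤ b) {ω ω' : Finset Edge} (hω : ω ⊆ edges D)
    (hω' : ω' ⊆ edges D) :
    (min 1 (min (a / q) b⁻¹)) ^ ((ω \ ω') ∪ (ω' \ ω)).card * wt q r D ω ≤ wt q r D ω' := by
  classical
  have hq0 : 0 < q := by linarith
  have hb : 0 < b := lt_of_lt_of_le ha hab
  set c := min 1 (min (a / q) b⁻¹) with hc
  have hc0 : 0 < c := lt_min one_pos (lt_min (by positivity) (by positivity))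
  have hc1 : c ≤ a / q := (min_le_right _ _).trans (min_le_left _ _)
  have hc2 : c ≤ b⁻¹ := (min_le_right _ _).trans (min_le_right _ _)
  generalize hn : ((ω \ ω') ∪ (ω' \ ω)).card = n
  induction n generalizing ω with
  | zero =>
    rw [Finset.card_eq_zero, Finset.union_eq_empty, Finset.sdiff_eq_empty_iff_subset,
      Finset.sdiff_eq_empty_iff_subset] at hn
    rw [Finset.Subset.antisymm hn.1 hn.2, pow_zero, one_mul]
  | succ n ih =>
    have hne : ((ω \ ω') ∪ (ω' \ ω)).Nonempty := by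
      rw [← Finset.card_pos, hn]
      omega
    obtain ⟨e, he⟩ := hne
    rcases Finset.mem_union.1 he with h1 | h1
    · -- remove `e`
      obtain ⟨h2, h3⟩ := Finset.mem_sdiff.1 h1
      have h4 : ω.erase e ⊆ edges D := (Finset.erase_subset _ _).trans hω
      have h5 : ((ω.erase e \ ω') ∪ (ω' \ ω.erase e)) = ((ω \ ω') ∪ (ω' \ ω)).erase e := by
        ext x
        simp only [Finset.mem_union, Finset.mem_sdiff, Finset.mem_erase]
        by_cases hx : x = e
        · subst hx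
          simp [h3]
        · simp [hx]
      have h6 := ih h4 (by rw [h5, Finset.card_erase_of_mem he, hn]; rfl)
      have h7 := (wt_insert_f11 hq ha hr h4 (hω h2) (Finset.notMem_erase e ω)).2
      rw [Finset.insert_erase h2] at h7
      calc c ^ (n + 1) * wt q r D ω = c ^ n * (c * wt q r D ω) := by ring
        _ ≤ c ^ n * wt q r D (ω.erase e) := by
            refine mul_le_mul_of_nonneg_left ?_ (pow_nonneg hc0.le _)
            exact (mul_le_mul_of_nonneg_right hc2 (wt_pos_f11 hq ha hr hω).le).trans h7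
        _ ≤ _ := h6
    · -- add `e`
      obtain ⟨h2, h3⟩ := Finset.mem_sdiff.1 h1
      have h4 : insert e ω ⊆ edges D := Finset.insert_subset (hω' h2) hω
      have h5 : ((insert e ω \ ω') ∪ (ω' \ insert e ω)) = ((ω \ ω') ∪ (ω' \ ω)).erase e := by
        ext x
        simp only [Finset.mem_union, Finset.mem_sdiff, Finset.mem_insert, Finset.mem_erase]
        by_cases hx : x = e
        · subst hx
          simp [h2]
        · simp [hx]
      have h6 := ih h4 (by rw [h5, Finset.card_erase_of_mem he, hn]; rfl)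
      have h7 := (wt_insert_f11 hq ha hr hω (hω' h2) h3).1
      calc c ^ (n + 1) * wt q r D ω = c ^ n * (c * wt q r D ω) := by ring
        _ ≤ c ^ n * wt q r D (insert e ω) := by
            refine mul_le_mul_of_nonneg_left ?_ (pow_nonneg hc0.le _)
            exact (mul_le_mul_of_nonneg_right hc1 (wt_pos_f11 hq ha hr hω).le).trans h7
        _ ≤ _ := h6

end Pool.Helper49.FK
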