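import Mathlib
import Pool.Agent.Helper49.FK.Clus
import Pool.Agent.Helper49.FK.Inf

/-!
Project OZ.  Block FK-7: the cluster expansion of the two-point function in infinite volume.

* `sum_clw_le`: for a finite set of clusters all contained in `box N`:
  `∑ clw ≤ ∑ clwD (box N) = G (box N) x y ≤ GI x y` (`clw_le_clwD`, `G_eq_sum`).
* `hasSum_clw` under `ExpDecay`: for `M` fixed and `N ≥ M`,
  `G (box N) x y ≤ ∑ (clusters in box M) clwD (box N) + pr (x is connected to a point off box M)`; the last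
  probability is at most the sum of `GI x z` over the points `z` of `box (M + 1) ∖ box M`, which tends to `0` as
  `M → ∞`; for `M` fixed `clwD (box N) → clw` as `N → ∞` (`tendsto_Psi`).  So
  `GI x y ≤ ∑ (clusters in box M) clw + ε M`.
* `hasSum_clw_one`: the same for `y = x`, `GI x x = 1`.
-/

namespace Pool.Helper49.FK

/-- The finite clusters containing `x` and `y`. -/
def ClusI (x y : ℤ × ℤ) : Type :=
  {c : Finset (ℤ × ℤ) × Finset Edge // x ∈ c.1 ∧ y ∈ c.1 ∧ IsClu c.1 c.2}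

variable {q ρ : ℝ}

private theorem mem_box52 {N : ℕ} {v : ℤ × ℤ} :
    v ∈ box N ↔ (-(N : ℤ) ≤ v.1 ∧ v.1 ≤ N) ∧ -(N : ℤ) ≤ v.2 ∧ v.2 ≤ N := by
  simp [box, Finset.mem_product, Finset.mem_Icc]

private theorem box_mono52 {M N : ℕ} (h : M ≤ N) : box M ⊆ box N := by
  intro v hv
  rw [mem_box52] at hv ⊢
  omega

private theorem exists_box52 (V : Finset (ℤ × ℤ)) : ∃ N : ℕ, V ⊆ box N := by
  refine ⟨∑ v ∈ V, (v.1.natAbs + v.2.natAbs), fun v hv => ?_⟩
  have h1 := Finset.single_le_sum (f := fun v : ℤ × ℤ => v.1.natAbs + v.2.natAbs)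
    (fun _ _ => Nat.zero_le _) hv
  rw [mem_box52]
  omega

theorem clw_nonneg (hq : 1 ≤ q) (hρ : 0 ≤ ρ) (V : Finset (ℤ × ℤ)) (C : Finset Edge) :
    0 ≤ clw q ρ V C := by
  have h1 := (PsiI_pos hq hρ V).le
  have h2 : (0 : ℝ) < q := by linarith
  unfold clw
  positivity

private theorem clwD_nonneg52 (hq : 1 ≤ q) (hρ : 0 ≤ ρ) {D V : Finset (ℤ × ℤ)} {C : Finset Edge}
    (hV : V ⊆ D) (hne : V.Nonempty) : 0 ≤ clwD q (hom ρ) D V C :=
  (clw_nonneg hq hρ V C).trans (clw_le_clwD hq hρ hV hne)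

private theorem hom_nonneg52 (hρ : 0 ≤ ρ) : ∀ e, 0 ≤ hom ρ e := fun _ => hρ

/-- the cluster as an element of the sigma type -/
private def emb52 (x y : ℤ × ℤ) : ClusI x y ↪ ((_ : Finset (ℤ × ℤ)) × Finset Edge) where
  toFun c := ⟨c.1.1, c.1.2⟩
  inj' := by
    intro c c' h
    apply Subtype.ext
    have h1 : c.1.1 = c'.1.1 := congrArg Sigma.fst h
    have h2 : c.1.2 = c'.1.2 := congrArg Sigma.snd h
    exact Prod.ext h1 h2

private theorem sum_clw_le52 (hq : 1 ≤ q) (hρ : 0 ≤ ρ) (x y : ℤ × ℤ) (s : Finset (ClusI x y)) :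
    ∑ c ∈ s, clw q ρ c.1.1 c.1.2 ≤ GI q ρ x y := by
  classical
  obtain ⟨N, hN⟩ := exists_box52 (s.biUnion fun c => c.1.1)
  obtain ⟨N', hN'⟩ := exists_box52 {x, y}
  have hsub : ∀ c ∈ s, c.1.1 ⊆ box (N + N') := fun c hc v hv =>
    box_mono52 (Nat.le_add_right N N') (hN (Finset.mem_biUnion.2 ⟨c, hc, hv⟩))
  have hx : x ∈ box (N + N') := box_mono52 (Nat.le_add_left N' N) (hN' (by simp))
  have hy : y ∈ box (N + N') := box_mono52 (Nat.le_add_left N' N) (hN' (by simp))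
  have h1 := G_eq_sum (q := q) (by linarith) (hom_nonneg52 hρ) hx hy
  refine le_trans ?_ (G_le_GI hq hρ (box (N + N')) x y)
  rw [h1]
  calc ∑ c ∈ s, clw q ρ c.1.1 c.1.2 ≤ ∑ c ∈ s, clwD q (hom ρ) (box (N + N')) c.1.1 c.1.2 :=
        Finset.sum_le_sum fun c hc => clw_le_clwD hq hρ (hsub c hc) ⟨x, c.2.1⟩
    _ = ∑ c ∈ s.map (emb52 x y), clwD q (hom ρ) (box (N + N')) c.1 c.2 := by
        rw [Finset.sum_map]
        rfl
    _ ≤ _ := by
        refine Finset.sum_le_sum_of_subset_of_nonneg ?_ ?_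
        · intro d hd
          obtain ⟨c, hc, rfl⟩ := Finset.mem_map.1 hd
          rw [Finset.mem_filter, mem_clus]
          exact ⟨⟨hsub c hc, c.2.1, c.2.2.2⟩, c.2.2.1⟩
        · intro d hd _
          rw [Finset.mem_filter, mem_clus] at hd
          exact clwD_nonneg52 hq hρ hd.1.1 ⟨x, hd.1.2.1⟩

theorem summable_clw (hq : 1 ≤ q) (hρ : 0 ≤ ρ) (x y : ℤ × ℤ) :
    Summable fun c : ClusI x y => clw q ρ c.1.1 c.1.2 :=
  summable_of_sum_le (fun c => clw_nonneg hq hρ c.1.1 c.1.2) (sum_clw_le52 hq hρ x y)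

theorem tsum_clw_le (hq : 1 ≤ q) (hρ : 0 ≤ ρ) (x y : ℤ × ℤ) :
    ∑' c : ClusI x y, clw q ρ c.1.1 c.1.2 ≤ GI q ρ x y :=
  (summable_clw hq hρ x y).tsum_le_of_sum_le (sum_clw_le52 hq hρ x y)

/-- a connection leaving the box meets the next ring -/
private theorem cross52 {C : Finset Edge} {M : ℕ} {a w : ℤ × ℤ} (p : (gr C).Walk a w)
    (ha : a ∈ box M) (hw : w ∉ box M) :
    ∃ z, z ∈ box (M + 1) ∧ z ∉ box M ∧ ∃ e ∈ C, e.1 = z ∨ tip e = z := by
  induction p with
  | nil => exact absurd ha hw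
  | @cons u v w h p ih =>
    by_cases hv : v ∈ box M
    · exact ih hv hw
    · refine ⟨v, ?_, hv, ?_⟩
      · obtain ⟨e, he, h1⟩ := h
        rw [mem_box52] at ha ⊢
        rcases h1 with ⟨h1, h2⟩ | ⟨h1, h2⟩
        · rw [← h1] at ha
          rw [← h2]
          unfold tip
          split_ifs <;> push_cast <;> omega
        · rw [← h2] at ha
          rw [← h1]
          unfold tip at ha
          split_ifs at ha <;> push_cast <;> omega
      · obtain ⟨e, he, h1⟩ := h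
        refine ⟨e, he, ?_⟩
        rcases h1 with ⟨h1, h2⟩ | ⟨h1, h2⟩
        · exact Or.inr h2
        · exact Or.inl h1

private theorem ring52 {V : Finset (ℤ × ℤ)} {C : Finset Edge} (hVC : IsClu V C) {M : ℕ} {x : ℤ × ℤ}
    (hx : x ∈ box M) (hxV : x ∈ V) (hV : ¬ V ⊆ box M) : ∃ z ∈ box (M + 1) \ box M, z ∈ V := by
  obtain ⟨w, hw, hwM⟩ := Finset.not_subset.1 hV
  obtain ⟨p⟩ := hVC.2 x hxV w hw
  obtain ⟨z, hz1, hz2, e, he, hz3⟩ := cross52 p hx hwM
  refine ⟨z, Finset.mem_sdiff.2 ⟨hz1, hz2⟩, ?_⟩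
  have h1 := hVC.1 he
  unfold edges at h1
  rw [Finset.mem_filter, Finset.mem_product] at h1
  rcases hz3 with rfl | rfl
  · exact h1.1.1
  · exact h1.2

open Classical in
private theorem split52 (hq : 1 ≤ q) (hρ : 0 ≤ ρ) {x y : ℤ × ℤ} {M N : ℕ} (hMN : M + 1 ≤ N)
    (hx : x ∈ box M) (hy : y ∈ box M) :
    G q (hom ρ) (box N) x y ≤
      ∑ c ∈ (clus (box M) x).filter (fun c => y ∈ c.1), clwD q (hom ρ) (box N) c.1 c.2 +
      ∑ z ∈ box (M + 1) \ box M, G q (hom ρ) (box N) x z := by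
  have hMN' : box M ⊆ box N := box_mono52 (by omega)
  have hq0 : 0 < q := by linarith
  rw [G_eq_sum hq0 (hom_nonneg52 hρ) (hMN' hx) (hMN' hy),
    ← Finset.sum_filter_add_sum_filter_not ((clus (box N) x).filter (fun c => y ∈ c.1))
      (fun c => c.1 ⊆ box M)]
  refine add_le_add (le_of_eq ?_) ?_
  · refine Finset.sum_congr ?_ fun _ _ => rfl
    ext c
    simp only [Finset.mem_filter, mem_clus]
    constructor
    · rintro ⟨⟨⟨h1, h2⟩, h3⟩, h4⟩
      exact ⟨⟨h4, h2⟩, h3⟩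
    · rintro ⟨⟨h4, h2⟩, h3⟩
      exact ⟨⟨⟨h4.trans hMN', h2⟩, h3⟩, h4⟩
  · set A := ((clus (box N) x).filter (fun c => y ∈ c.1)).filter (fun c => ¬ c.1 ⊆ box M) with hA
    have hnn : ∀ c ∈ clus (box N) x, 0 ≤ clwD q (hom ρ) (box N) c.1 c.2 := fun c hc => by
      rw [mem_clus] at hc
      exact clwD_nonneg52 hq hρ hc.1 ⟨x, hc.2.1⟩
    have hAc : ∀ c ∈ A, c ∈ clus (box N) x ∧ ¬ c.1 ⊆ box M := fun c hc => by
      rw [hA, Finset.mem_filter, Finset.mem_filter] at hc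
      exact ⟨hc.1.1, hc.2⟩
    calc ∑ c ∈ A, clwD q (hom ρ) (box N) c.1 c.2 ≤
          ∑ c ∈ A, ∑ z ∈ box (M + 1) \ box M,
            if z ∈ c.1 then clwD q (hom ρ) (box N) c.1 c.2 else 0 := by
          refine Finset.sum_le_sum fun c hc => ?_
          obtain ⟨h1, h2⟩ := hAc c hc
          have h3 := mem_clus.1 h1
          obtain ⟨z, hz, hzc⟩ := ring52 h3.2.2 hx h3.2.1 h2
          have h4 := Finset.single_le_sum
            (f := fun z => if z ∈ c.1 then clwD q (hom ρ) (box N) c.1 c.2 else 0)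
            (fun z _ => by
              split_ifs
              · exact hnn c h1
              · exact le_rfl) hz
          simp only [if_pos hzc] at h4
          exact h4
      _ = ∑ z ∈ box (M + 1) \ box M, ∑ c ∈ A,
            if z ∈ c.1 then clwD q (hom ρ) (box N) c.1 c.2 else 0 := Finset.sum_comm
      _ ≤ ∑ z ∈ box (M + 1) \ box M, G q (hom ρ) (box N) x z := by
          refine Finset.sum_le_sum fun z hz => ?_
          have hzN : z ∈ box N := box_mono52 hMN (Finset.mem_sdiff.1 hz).1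
          rw [G_eq_sum hq0 (hom_nonneg52 hρ) (hMN' hx) hzN,
            Finset.sum_filter (s := clus (box N) x) (fun c => z ∈ c.1)]
          exact Finset.sum_le_sum_of_subset_of_nonneg (fun c hc => (hAc c hc).1)
            fun c hc _ => by
              split_ifs
              · exact hnn c hc
              · exact le_rfl

open Classical in
private theorem GI_le52 (hq : 1 ≤ q) (hρ : 0 ≤ ρ) {x y : ℤ × ℤ} {M : ℕ}
    (hx : x ∈ box M) (hy : y ∈ box M) :
    GI q ρ x y ≤ ∑ c ∈ (clus (box M) x).filter (fun c => y ∈ c.1), clw q ρ c.1 c.2 +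
      ∑ z ∈ box (M + 1) \ box M, GI q ρ x z := by
  have hq0 : 0 < q := by linarith
  have h1 := tendsto_G hq hρ x y
  have h2 : Filter.Tendsto (fun N => ∑ c ∈ (clus (box M) x).filter (fun c => y ∈ c.1),
      clwD q (hom ρ) (box N) c.1 c.2 + ∑ z ∈ box (M + 1) \ box M, G q (hom ρ) (box N) x z)
      Filter.atTop (nhds (∑ c ∈ (clus (box M) x).filter (fun c => y ∈ c.1), clw q ρ c.1 c.2 +
      ∑ z ∈ box (M + 1) \ box M, GI q ρ x z)) := by
    refine Filter.Tendsto.add ?_ ?_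
    · refine tendsto_finsetSum _ fun c hc => ?_
      rw [Finset.mem_filter, mem_clus] at hc
      have h3 : Filter.Tendsto (fun N => (∏ e ∈ c.2, hom ρ e) * Psi q (hom ρ) (box N) c.1 /
          q ^ (c.1.card - 1)) Filter.atTop (nhds (clw q ρ c.1 c.2)) := by
        have h4 : clw q ρ c.1 c.2 = (∏ e ∈ c.2, hom ρ e) * PsiI q ρ c.1 / q ^ (c.1.card - 1) := by
          unfold clw hom
          rw [Finset.prod_const]
        rw [h4]
        exact ((tendsto_Psi hq hρ c.1).const_mul _).div_const _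
      refine h3.congr' ?_
      filter_upwards [Filter.eventually_ge_atTop M] with N hN
      exact (clwD_eq hq0 (hc.1.1.trans (box_mono52 hN)) ⟨x, hc.1.2.1⟩).symm
    · exact tendsto_finsetSum _ fun z _ => tendsto_G hq hρ x z
  refine le_of_tendsto_of_tendsto h1 h2 ?_
  filter_upwards [Filter.eventually_ge_atTop (M + 1)] with N hN
  exact split52 hq hρ hN hx hy

open Classical in
private theorem fin_le52 (hq : 1 ≤ q) (hρ : 0 ≤ ρ) (x y : ℤ × ℤ) (M : ℕ) :
    ∑ c ∈ (clus (box M) x).filter (fun c => y ∈ c.1), clw q ρ c.1 c.2 ≤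
      ∑' c : ClusI x y, clw q ρ c.1.1 c.1.2 := by
  set F := (clus (box M) x).filter (fun c => y ∈ c.1) with hF
  have hFc : ∀ c ∈ F, x ∈ c.1 ∧ y ∈ c.1 ∧ IsClu c.1 c.2 := fun c hc => by
    rw [hF, Finset.mem_filter, mem_clus] at hc
    exact ⟨hc.1.2.1, hc.2, hc.1.2.2⟩
  let j : {c // c ∈ F} ↪ ClusI x y :=
    ⟨fun c => ⟨(c.1.1, c.1.2), hFc c.1 c.2⟩, by
      intro c c' h
      apply Subtype.ext
      have h1 := congrArg Subtype.val h
      have h2 : c.1.1 = c'.1.1 := congrArg Prod.fst h1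
      have h3 : c.1.2 = c'.1.2 := congrArg Prod.snd h1
      exact Sigma.ext h2 (heq_of_eq h3)⟩
  have h1 : ∑ c ∈ F, clw q ρ c.1 c.2 = ∑ c ∈ F.attach.map j, clw q ρ c.1.1 c.1.2 := by
    rw [Finset.sum_map, ← Finset.sum_attach]
    rfl
  rw [h1]
  exact (summable_clw hq hρ x y).sum_le_tsum _ fun c _ => clw_nonneg hq hρ _ _

private theorem card_box52 (M : ℕ) : (box M).card = (2 * M + 1) ^ 2 := by
  unfold box
  rw [Finset.card_product, Int.card_Icc, sq]
  congr 1 <;> omega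

private theorem ring_le52 {c C : ℝ} (hc : 0 < c) (hC : 0 < C) (hq : 1 ≤ q) (hρ : 0 ≤ ρ)
    (h : ∀ x : ℤ × ℤ, GI q ρ (0, 0) x ≤ C * Real.exp (-c * (|(x.1 : ℝ)| + |(x.2 : ℝ)|)))
    (x : ℤ × ℤ) (M : ℕ) :
    ∑ z ∈ box (M + 1) \ box M, GI q ρ x z ≤
      (2 * (M : ℝ) + 3) ^ 2 * (C * Real.exp (-c * ((M : ℝ) + 1 - (|(x.1 : ℝ)| + |(x.2 : ℝ)|)))) := by
  have h1 : ∀ z ∈ box (M + 1) \ box M, GI q ρ x z ≤
      C * Real.exp (-c * ((M : ℝ) + 1 - (|(x.1 : ℝ)| + |(x.2 : ℝ)|))) := by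
    intro z hz
    have h2 : GI q ρ x z = GI q ρ (0, 0) (z - x) := by
      have h3 := GI_tr hq hρ x (0, 0) (z - x)
      rw [← h3, sub_add_cancel]
      congr 1
      ext <;> simp
    rw [h2]
    refine (h (z - x)).trans ?_
    refine mul_le_mul_of_nonneg_left ?_ hC.le
    rw [Real.exp_le_exp]
    have h4 : ((M : ℝ) + 1) ≤ |(z.1 : ℝ)| + |(z.2 : ℝ)| := by
      have h5 : ((M : ℤ) + 1) ≤ |z.1| + |z.2| := by
        have h6 := (Finset.mem_sdiff.1 hz).2
        rw [mem_box52] at h6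
        by_contra hcon
        push Not at hcon
        apply h6
        have h7 := abs_nonneg z.1
        have h8 := abs_nonneg z.2
        have h9 := le_abs_self z.1
        have h10 := neg_abs_le z.1
        have h11 := le_abs_self z.2
        have h12 := neg_abs_le z.2
        omega
      exact_mod_cast h5
    have h5 : |(z.1 : ℝ)| - |(x.1 : ℝ)| ≤ |((z - x).1 : ℝ)| := by
      have := abs_sub_abs_le_abs_sub (z.1 : ℝ) (x.1 : ℝ)
      simpa using this
    have h6 : |(z.2 : ℝ)| - |(x.2 : ℝ)| ≤ |((z - x).2 : ℝ)| := by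
      have := abs_sub_abs_le_abs_sub (z.2 : ℝ) (x.2 : ℝ)
      simpa using this
    nlinarith
  refine (Finset.sum_le_sum h1).trans ?_
  rw [Finset.sum_const, nsmul_eq_mul]
  refine mul_le_mul_of_nonneg_right ?_ (by positivity)
  have h2 : (box (M + 1) \ box M).card ≤ (2 * M + 3) ^ 2 := by
    refine (Finset.card_le_card Finset.sdiff_subset).trans ?_
    rw [card_box52]
    exact le_of_eq (by ring)
  exact_mod_cast h2

private theorem lim52 {c C a : ℝ} (hc : 0 < c) :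
    Filter.Tendsto (fun M : ℕ => (2 * (M : ℝ) + 3) ^ 2 * (C * Real.exp (-c * ((M : ℝ) + 1 - a))))
      Filter.atTop (nhds 0) := by
  have h1 := Real.tendsto_pow_mul_exp_neg_atTop_nhds_zero 2
  have h2 : Filter.Tendsto (fun M : ℕ => c * (2 * (M : ℝ) + 3) / 2) Filter.atTop Filter.atTop := by
    have h3 : Filter.Tendsto (fun M : ℕ => (M : ℝ)) Filter.atTop Filter.atTop :=
      tendsto_natCast_atTop_atTop
    have h4 : (fun M : ℕ => c * (2 * (M : ℝ) + 3) / 2) = fun M : ℕ => c * (M : ℝ) + 3 * c / 2 := by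
      ext1 M
      ring
    rw [h4]
    exact Filter.tendsto_atTop_add_const_right _ _ (h3.const_mul_atTop hc)
  have h3 := (h1.comp h2).const_mul ((2 / c) ^ 2 * C * Real.exp (c / 2 + c * a))
  rw [mul_zero] at h3
  refine h3.congr fun M => ?_
  simp only [Function.comp_apply]
  have h4 : Real.exp (-c * ((M : ℝ) + 1 - a)) =
      Real.exp (c / 2 + c * a) * Real.exp (-(c * (2 * (M : ℝ) + 3) / 2)) := by
    rw [← Real.exp_add]
    congr 1
    ring
  rw [h4]
  field_simp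

theorem hasSum_clw (hq : 1 ≤ q) (hρ : 0 ≤ ρ) (hE : ExpDecay q ρ) (x y : ℤ × ℤ) :
    HasSum (fun c : ClusI x y => clw q ρ c.1.1 c.1.2) (GI q ρ x y) := by
  have hs := summable_clw hq hρ x y
  have h1 : GI q ρ x y ≤ ∑' c : ClusI x y, clw q ρ c.1.1 c.1.2 := by
    obtain ⟨c, C, hc, hC, h⟩ := hE
    obtain ⟨M₀, hM₀⟩ := exists_box52 {x, y}
    have h2 := (lim52 (c := c) (C := C) (a := |(x.1 : ℝ)| + |(x.2 : ℝ)|) hc).const_add
      (∑' c : ClusI x y, clw q ρ c.1.1 c.1.2)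
    rw [add_zero] at h2
    refine ge_of_tendsto h2 ?_
    filter_upwards [Filter.eventually_ge_atTop M₀] with M hM
    have hx : x ∈ box M := box_mono52 hM (hM₀ (by simp))
    have hy : y ∈ box M := box_mono52 hM (hM₀ (by simp))
    exact (GI_le52 hq hρ hx hy).trans
      (add_le_add (fin_le52 hq hρ x y M) (ring_le52 hc hC hq hρ h x M))
  have h2 : ∑' c : ClusI x y, clw q ρ c.1.1 c.1.2 = GI q ρ x y :=
    le_antisymm (tsum_clw_le hq hρ x y) h1
  rw [← h2]
  exact hs.hasSum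

end Pool.Helper49.FK
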