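import Mathlib
import Pool.Agent.Helper49.FK.Defs
import Pool.Agent.Helper49.FK.Comp
import Pool.Agent.Helper49.FK.Fkg

/-!
Project OZ.  Block FK-8: domination by thinning (helper17).

Let `r ≤ R` be odds which differ only on a finite set `L` of edges, `r e = ρ'`, `R e = ρ` for `e ∈ L`, `0 ≤ ρ' < ρ`, and
`1 - δ = ρ' (ρ + 1) / (ρ (ρ' + 1))`.  Claim: the law for `r` is stochastically dominated by the law for `R` after
deleting every open edge of `L` independently with probability `δ`.
One edge `e` at a time: the deletion at the other edges is a monotone operation, so let `r` and `R` differ at `e`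
only.  Let `a` be the expectation of the increasing `f` given `e` open, `b` given `e` closed, `c` the expectation of
`f (η.erase e)` given `e` open (all the same for `r` and `R`); `a ≥ c ≥ b` (FKG: given `e` open the rest is larger).
With `π = P_R (e open)`, `π' = P_r (e open)` the claim is
`π' a + (1 - π') b ≤ (1 - δ) π a + δ π c + (1 - π) b`, which follows from `c ≥ b`, `a ≥ b` and `(1 - δ) π ≥ π'`.
The last inequality: `π = ρ A / (ρ A + B)`, `π' = ρ' A / (ρ' A + B)` with `A ≤ B` (`A` the weight of the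
configurations with `e` open without the factor of `e`, `B` with `e` closed; removing `e` does not
decrease the number of clusters), and `π' / π = ρ' (ρ A + B) / (ρ (ρ' A + B))` increases with `A / B ≤ 1`.
Given `η` with `A η`, the event `A` survives the deletion only if no `e ∈ L ∩ η` with `¬ A (η.erase e)` is deleted:
probability at most `(1 - δ) ^ (number of these)`.
-/

namespace Pool.Helper49.FK

open Classical in
/-- The number of horizontal edges of the row `0` that are pivotal for `A`. -/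
noncomputable def piv (A : Finset Edge → Prop) (η : Finset Edge) : ℕ :=
  (η.filter fun e => e.2 = true ∧ e.1.2 = 0 ∧ ¬ A (η.erase e)).card

private theorem th_ex_congr_r {q : ℝ} {r r' : Edge → ℝ} {D : Finset (ℤ × ℤ)} {f : Finset Edge → ℝ}
    (h : ∀ e ∈ edges D, r e = r' e) : ex q r D f = ex q r' D f := by
  have hw : ∀ ω ∈ (edges D).powerset, wt q r D ω = wt q r' D ω := by
    intro ω hω
    unfold wt
    congr 1
    exact Finset.prod_congr rfl fun e he => h e (Finset.mem_powerset.1 hω he)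
  unfold ex Z
  rw [Finset.sum_congr rfl hw]
  congr 1
  exact Finset.sum_congr rfl fun ω hω => by rw [hw ω hω]

/-- The weighted sum split according to the state of `e`. -/
private theorem th_split {q : ℝ} {r : Edge → ℝ} {D : Finset (ℤ × ℤ)} {e : Edge} (he : e ∈ edges D)
    (t : ℝ) (f : Finset Edge → ℝ) :
    ∑ ω ∈ (edges D).powerset, wt q (Function.update r e t) D ω * f ω =
      t * ∑ ω ∈ ((edges D).erase e).powerset,
        (∏ x ∈ ω, r x) * q ^ ncl D (insert e ω) * f (insert e ω) +
      ∑ ω ∈ ((edges D).erase e).powerset, (∏ x ∈ ω, r x) * q ^ ncl D ω * f ω := by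
  have h1 : edges D = insert e ((edges D).erase e) := (Finset.insert_erase he).symm
  have hp : ∀ ω ∈ ((edges D).erase e).powerset, e ∉ ω ∧
      ∏ x ∈ ω, Function.update r e t x = ∏ x ∈ ω, r x := by
    intro ω hω
    have heω : e ∉ ω := fun h => (Finset.notMem_erase e _) (Finset.mem_powerset.1 hω h)
    refine ⟨heω, Finset.prod_congr rfl fun x hx => ?_⟩
    rw [Function.update_of_ne]
    rintro rfl
    exact heω hx
  conv_lhs => rw [h1]
  rw [Finset.sum_powerset_insert (Finset.notMem_erase e _), add_comm]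
  congr 1
  · rw [Finset.mul_sum]
    refine Finset.sum_congr rfl fun ω hω => ?_
    obtain ⟨h2, h3⟩ := hp ω hω
    unfold wt
    rw [Finset.prod_insert h2, h3, Function.update_self]
    ring
  · refine Finset.sum_congr rfl fun ω hω => ?_
    obtain ⟨h2, h3⟩ := hp ω hω
    unfold wt
    rw [h3]

/-- One edge. -/
private theorem th_one {q ρ ρ' : ℝ} (hq : 1 ≤ q) (h0 : 0 ≤ ρ') (h : ρ' < ρ) {r : Edge → ℝ}
    {D : Finset (ℤ × ℤ)} (hr : ∀ e, 0 ≤ r e) {e : Edge} (hre : r e = ρ) {f : Finset Edge → ℝ}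
    (hf : Mono f) {θ : ℝ} (hθ : θ = ρ' * (ρ + 1) / (ρ * (ρ' + 1))) :
    ex q (Function.update r e ρ') D f ≤ ex q r D (fun ω => θ * f ω + (1 - θ) * f (ω.erase e)) := by
  have hq0 : 0 < q := lt_of_lt_of_le one_pos hq
  have hρ : 0 < ρ := lt_of_le_of_lt h0 h
  by_cases he : e ∈ edges D
  swap
  · have h1 : ex q (Function.update r e ρ') D f = ex q r D f := by
      refine th_ex_congr_r fun x hx => ?_
      rw [Function.update_of_ne]
      rintro rfl
      exact he hx
    rw [h1]
    refine le_of_eq (ex_congr fun ω hω => ?_)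
    rw [Finset.erase_eq_of_notMem fun h => he (hω h)]
    ring
  have hru : r = Function.update r e ρ := by rw [← hre, Function.update_eq_self]
  have hru0 : ∀ t : ℝ, 0 ≤ t → ∀ x, 0 ≤ Function.update r e t x := by
    intro t ht x
    by_cases hx : x = e
    · subst hx; rwa [Function.update_self]
    · rw [Function.update_of_ne hx]; exact hr x
  -- the five sums
  obtain ⟨Aa, hAa⟩ : ∃ Aa, Aa = ∑ ω ∈ ((edges D).erase e).powerset,
    (∏ x ∈ ω, r x) * q ^ ncl D (insert e ω) := ⟨_, rfl⟩
  obtain ⟨Bb, hBb⟩ : ∃ Bb, Bb = ∑ ω ∈ ((edges D).erase e).powerset,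
    (∏ x ∈ ω, r x) * q ^ ncl D ω := ⟨_, rfl⟩
  obtain ⟨F1, hF1⟩ : ∃ F1, F1 = ∑ ω ∈ ((edges D).erase e).powerset,
    (∏ x ∈ ω, r x) * q ^ ncl D (insert e ω) * f (insert e ω) := ⟨_, rfl⟩
  obtain ⟨F0, hF0⟩ : ∃ F0, F0 = ∑ ω ∈ ((edges D).erase e).powerset,
    (∏ x ∈ ω, r x) * q ^ ncl D ω * f ω := ⟨_, rfl⟩
  obtain ⟨C, hC⟩ : ∃ C, C = ∑ ω ∈ ((edges D).erase e).powerset,
    (∏ x ∈ ω, r x) * q ^ ncl D (insert e ω) * f ω := ⟨_, rfl⟩
  have hnot : ∀ ω ∈ ((edges D).erase e).powerset, e ∉ ω := fun ω hω h =>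
    (Finset.notMem_erase e _) (Finset.mem_powerset.1 hω h)
  have hp0 : ∀ ω : Finset Edge, 0 ≤ ∏ x ∈ ω, r x := fun ω => Finset.prod_nonneg fun x _ => hr x
  have hZ : ∀ t : ℝ, Z q (Function.update r e t) D = t * Aa + Bb := by
    intro t
    have := th_split (q := q) (r := r) he t (fun _ => 1)
    simp only [mul_one] at this
    unfold Z
    rw [this, hAa, hBb]
  have hZp : ∀ t : ℝ, 0 ≤ t → 0 < t * Aa + Bb := by
    intro t ht
    rw [← hZ]
    exact Z_pos hq0 (hru0 t ht)
  have hAB : Aa ≤ Bb := by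
    rw [hAa, hBb]
    refine Finset.sum_le_sum fun ω hω => mul_le_mul_of_nonneg_left ?_ (hp0 ω)
    refine pow_le_pow_right₀ hq ?_
    by_cases hc : Conn ω e.1 (tip e)
    · exact (ncl_insert_of_conn hc).le
    · have := ncl_insert_of_not_conn he hc
      omega
  have hCF : C ≤ F1 := by
    rw [hC, hF1]
    refine Finset.sum_le_sum fun ω hω => mul_le_mul_of_nonneg_left ?_ ?_
    · exact hf _ _ (Finset.subset_insert _ _)
    · exact mul_nonneg (hp0 ω) (pow_nonneg hq0.le _)
  have hfe : Mono fun ω => f (ω.erase e) := fun ω ω' hω => hf _ _ (Finset.erase_subset_erase _ hω)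
  have hex : ∀ t : ℝ, ex q (Function.update r e t) D (fun ω => f (ω.erase e)) =
      (t * C + F0) / (t * Aa + Bb) := by
    intro t
    have e1 : ∑ ω ∈ ((edges D).erase e).powerset,
        (∏ x ∈ ω, r x) * q ^ ncl D (insert e ω) * f ((insert e ω).erase e) = C := by
      rw [hC]
      exact Finset.sum_congr rfl fun ω hω => by rw [Finset.erase_insert (hnot ω hω)]
    have e2 : ∑ ω ∈ ((edges D).erase e).powerset,
        (∏ x ∈ ω, r x) * q ^ ncl D ω * f (ω.erase e) = F0 := by
      rw [hF0]
      exact Finset.sum_congr rfl fun ω hω => by rw [Finset.erase_eq_of_notMem (hnot ω hω)]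
    unfold ex
    rw [th_split he, hZ, e1, e2]
  have hFKG : F0 * Aa ≤ C * Bb := by
    have h1 := ex_mono_r (D := D) (f := fun ω => f (ω.erase e)) hq (hru0 0 le_rfl)
      (r' := Function.update r e 1) (fun x => by
        by_cases hx : x = e
        · subst hx; rw [Function.update_self, Function.update_self]; exact zero_le_one
        · rw [Function.update_of_ne hx, Function.update_of_ne hx]) hfe
    rw [hex, hex, div_le_div_iff₀ (hZp 0 le_rfl) (hZp 1 zero_le_one)] at h1
    nlinarith [h1]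
  have hl : ex q (Function.update r e ρ') D f = (ρ' * F1 + F0) / (ρ' * Aa + Bb) := by
    unfold ex
    rw [th_split he, hZ, hF1, hF0]
  have hrr : ex q r D (fun ω => θ * f ω + (1 - θ) * f (ω.erase e)) =
      (θ * (ρ * F1 + F0) + (1 - θ) * (ρ * C + F0)) / (ρ * Aa + Bb) := by
    rw [ex_add, ex_const_mul, ex_const_mul, hru, hex ρ]
    have : ex q (Function.update r e ρ) D f = (ρ * F1 + F0) / (ρ * Aa + Bb) := by
      unfold ex
      rw [th_split he, hZ, hF1, hF0]
    rw [this]
    ring
  rw [hl, hrr, div_le_div_iff₀ (hZp ρ' h0) (hZp ρ hρ.le)]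
  have hθ1 : θ * ρ * (ρ' + 1) = ρ' * (ρ + 1) := by
    rw [hθ]
    field_simp
  have key : 0 ≤ (ρ - ρ') * (ρ' * (Bb - Aa) * (F1 - C) + (ρ' + 1) * (C * Bb - F0 * Aa)) := by
    refine mul_nonneg (by linarith) (add_nonneg ?_ ?_)
    · exact mul_nonneg (mul_nonneg h0 (by linarith)) (by linarith)
    · exact mul_nonneg (by linarith) (by linarith)
  have hpos : 0 < ρ' + 1 := by linarith
  have e1 : (θ * (ρ * F1 + F0) + (1 - θ) * (ρ * C + F0)) * (ρ' * Aa + Bb) -
      (ρ' * F1 + F0) * (ρ * Aa + Bb) =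
      (ρ - ρ') * (ρ' * (Bb - Aa) * (F1 - C) + (ρ' + 1) * (C * Bb - F0 * Aa)) / (ρ' + 1) := by
    rw [eq_div_iff hpos.ne']
    linear_combination (F1 - C) * (ρ' * Aa + Bb) * hθ1
  have e2 : 0 ≤ (ρ - ρ') * (ρ' * (Bb - Aa) * (F1 - C) + (ρ' + 1) * (C * Bb - F0 * Aa)) / (ρ' + 1) :=
    div_nonneg key hpos.le
  linarith

open Classical in
private theorem th_many {q ρ ρ' : ℝ} (hq : 1 ≤ q) (h0 : 0 ≤ ρ') (h : ρ' < ρ)
    {D : Finset (ℤ × ℤ)} {A : Finset Edge → Prop} (hA : ∀ ω ω', ω ⊆ ω' → A ω → A ω') {θ : ℝ}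
    (hθ : θ = ρ' * (ρ + 1) / (ρ * (ρ' + 1))) (hθ0 : 0 ≤ θ) (hθ1 : θ ≤ 1) (S : Finset Edge) :
    ∃ g : Finset Edge → ℝ, Mono g ∧
      (∀ η, g η ≤ if A η then θ ^ (η.filter fun e => e ∈ S ∧ ¬ A (η.erase e)).card else 0) ∧
      ∀ r : Edge → ℝ, (∀ e, 0 ≤ r e) → (∀ e ∈ S, r e = ρ) →
        pr q (fun e => if e ∈ S then ρ' else r e) D A ≤ ex q r D g := by
  induction S using Finset.induction_on with
  | empty =>
    refine ⟨fun ω => if A ω then 1 else 0, ?_, ?_, ?_⟩
    · intro ω ω' hω
      by_cases h1 : A ω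
      · simp [h1, hA ω ω' hω h1]
      · simp only [h1, if_false]
        split_ifs <;> norm_num
    · intro η
      simp
    · intro r _ _
      simp [pr]
  | insert e S heS ih =>
    obtain ⟨g, hg1, hg2, hg3⟩ := ih
    refine ⟨fun ω => θ * g ω + (1 - θ) * g (ω.erase e), ?_, ?_, ?_⟩
    · intro ω ω' hω
      have h1 := hg1 ω ω' hω
      have h2 := hg1 (ω.erase e) (ω'.erase e) (Finset.erase_subset_erase _ hω)
      have h3 : 0 ≤ 1 - θ := by linarith
      show θ * g ω + (1 - θ) * g (ω.erase e) ≤ θ * g ω' + (1 - θ) * g (ω'.erase e)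
      nlinarith [mul_le_mul_of_nonneg_left h1 hθ0, mul_le_mul_of_nonneg_left h2 h3]
    · intro η
      show θ * g η + (1 - θ) * g (η.erase e) ≤ _
      have h3 : 0 ≤ 1 - θ := by linarith
      have h1 := mul_le_mul_of_nonneg_left (hg2 η) hθ0
      have h2 := mul_le_mul_of_nonneg_left (hg2 (η.erase e)) h3
      refine (add_le_add h1 h2).trans ?_
      by_cases hAη : A η
      swap
      · have h4 : ¬ A (η.erase e) := fun h => hAη (hA _ _ (Finset.erase_subset _ _) h)
        simp [hAη, h4]
      by_cases he : e ∈ η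
      swap
      · rw [Finset.erase_eq_of_notMem he]
        have h5 : (η.filter fun x => x ∈ insert e S ∧ ¬ A (η.erase x)) =
            (η.filter fun x => x ∈ S ∧ ¬ A (η.erase x)) := by
          refine Finset.filter_congr fun x hx => ?_
          have : x ≠ e := fun h => he (h ▸ hx)
          simp [Finset.mem_insert, this]
        rw [h5]
        apply le_of_eq
        ring
      by_cases hp : A (η.erase e)
      swap
      · have h5 : (η.filter fun x => x ∈ insert e S ∧ ¬ A (η.erase x)) =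
            insert e (η.filter fun x => x ∈ S ∧ ¬ A (η.erase x)) := by
          ext x
          simp only [Finset.mem_filter, Finset.mem_insert]
          constructor
          · rintro ⟨h6, h7 | h7, h8⟩
            · exact Or.inl h7
            · exact Or.inr ⟨h6, h7, h8⟩
          · rintro (h7 | ⟨h6, h7, h8⟩)
            · subst h7; exact ⟨he, Or.inl rfl, hp⟩
            · exact ⟨h6, Or.inr h7, h8⟩
        have h6 : e ∉ (η.filter fun x => x ∈ S ∧ ¬ A (η.erase x)) := fun h =>
          heS (Finset.mem_filter.1 h).2.1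
        rw [h5, Finset.card_insert_of_notMem h6, if_pos hAη, if_pos hAη, if_neg hp, pow_succ]
        apply le_of_eq
        ring
      · have h5 : (η.filter fun x => x ∈ insert e S ∧ ¬ A (η.erase x)) =
            (η.filter fun x => x ∈ S ∧ ¬ A (η.erase x)) := by
          refine Finset.filter_congr fun x hx => ?_
          constructor
          · rintro ⟨h7, h8⟩
            rcases Finset.mem_insert.1 h7 with h9 | h9
            · subst h9; exact absurd hp h8
            · exact ⟨h9, h8⟩
          · rintro ⟨h7, h8⟩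
            exact ⟨Finset.mem_insert_of_mem h7, h8⟩
        have h6 : (η.filter fun x => x ∈ S ∧ ¬ A (η.erase x)) ⊆
            ((η.erase e).filter fun x => x ∈ S ∧ ¬ A ((η.erase e).erase x)) := by
          intro x hx
          rw [Finset.mem_filter] at hx ⊢
          obtain ⟨hx1, hx2, hx3⟩ := hx
          have hxe : x ≠ e := by
            rintro rfl
            exact hx3 hp
          refine ⟨Finset.mem_erase.2 ⟨hxe, hx1⟩, hx2, fun h => hx3 (hA _ _ ?_ h)⟩
          exact Finset.erase_subset_erase _ (Finset.erase_subset _ _)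
        have h7 := pow_le_pow_of_le_one hθ0 hθ1 (Finset.card_le_card h6)
        rw [h5, if_pos hAη, if_pos hp]
        nlinarith [mul_le_mul_of_nonneg_left h7 h3]
    · intro r hr hrS
      have h1 : (fun x => if x ∈ insert e S then ρ' else r x) =
          fun x => if x ∈ S then ρ' else Function.update r e ρ' x := by
        funext x
        by_cases hx : x = e
        · subst hx
          rw [if_pos (Finset.mem_insert_self _ _), if_neg heS, Function.update_self]
        · rw [Function.update_of_ne hx]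
          simp [Finset.mem_insert, hx]
      rw [h1]
      have h2 := hg3 (Function.update r e ρ') (fun x => by
        by_cases hx : x = e
        · subst hx; rwa [Function.update_self]
        · rw [Function.update_of_ne hx]; exact hr x) (fun x hx => by
        have : x ≠ e := fun h => heS (h ▸ hx)
        rw [Function.update_of_ne this]
        exact hrS x (Finset.mem_insert_of_mem hx))
      exact h2.trans (th_one hq h0 h hr (hrS e (Finset.mem_insert_self _ _)) hg1 hθ)

open Classical in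
theorem exists_thin {q ρ ρ' : ℝ} (hq : 1 ≤ q) (h0 : 0 ≤ ρ') (h : ρ' < ρ) :
    ∃ δ : ℝ, 0 < δ ∧ δ ≤ 1 ∧ ∀ (D : Finset (ℤ × ℤ)) (A : Finset Edge → Prop),
      (∀ ω ω', ω ⊆ ω' → A ω → A ω') →
      pr q (dfc ρ ρ') D A ≤
        ex q (hom ρ) D (fun η => if A η then (1 - δ) ^ piv A η else 0) := by
  have hρ : 0 < ρ := lt_of_le_of_lt h0 h
  have hpos : 0 < ρ' + 1 := by linarith
  obtain ⟨θ, hθ⟩ : ∃ θ, θ = ρ' * (ρ + 1) / (ρ * (ρ' + 1)) := ⟨_, rfl⟩
  have hθ0 : 0 ≤ θ := by
    rw [hθ]
    positivity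
  have hθ1 : θ < 1 := by
    rw [hθ, div_lt_one (by positivity)]
    nlinarith
  refine ⟨1 - θ, by linarith, by linarith, ?_⟩
  intro D A hA
  obtain ⟨g, hg1, hg2, hg3⟩ := th_many (D := D) hq h0 h hA hθ hθ0 hθ1.le
    ((edges D).filter fun e => e.2 = true ∧ e.1.2 = 0)
  have h1 := hg3 (hom ρ) (fun _ => hρ.le) (fun _ _ => rfl)
  have h2 : pr q (dfc ρ ρ') D A = pr q (fun e => if e ∈ (edges D).filter
      (fun e => e.2 = true ∧ e.1.2 = 0) then ρ' else hom ρ e) D A := by
    unfold pr
    refine th_ex_congr_r fun e he => ?_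
    unfold dfc hom
    simp only [Finset.mem_filter, he, true_and]
  rw [h2]
  refine h1.trans (ex_le (lt_of_lt_of_le one_pos hq) (fun _ => hρ.le) fun η hη => ?_)
  refine (hg2 η).trans (le_of_eq ?_)
  rw [sub_sub_cancel]
  unfold piv
  have h3 : (η.filter fun e => e ∈ (edges D).filter (fun e => e.2 = true ∧ e.1.2 = 0) ∧
      ¬ A (η.erase e)) = (η.filter fun e => e.2 = true ∧ e.1.2 = 0 ∧ ¬ A (η.erase e)) := by
    refine Finset.filter_congr fun e he => ?_
    rw [Finset.mem_filter]
    constructor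
    · rintro ⟨⟨_, h4, h5⟩, h6⟩
      exact ⟨h4, h5, h6⟩
    · rintro ⟨h4, h5, h6⟩
      exact ⟨⟨hη he, h4, h5⟩, h6⟩
  rw [h3]

end Pool.Helper49.FK
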